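import Mathlib.Geometry.Manifold.Instances.Real
import Mathlib.Geometry.Manifold.VectorBundle.Riemannian

/-!
Steklov eigenfunctions on a smooth surface with boundary, and the critical catenoid.
A surface with boundary is a smooth manifold modelled on the half-plane `{y | 0 ≤ y 0}`.
-/

open scoped Manifold ContDiff

namespace Pool.Agent.MP_30dcea_gt

universe u

section General

variable {E H : Type} [NormedAddCommGroup E] [NormedSpace ℝ E] [TopologicalSpace H]
  (I : ModelWithCorners ℝ E H) {M : Type u} [TopologicalSpace M] [ChartedSpace H M]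

/-- The differential `df_x(v)` of a vector valued map `f` on a manifold. -/
noncomputable def dmap {F : Type} [NormedAddCommGroup F] [NormedSpace ℝ F] (f : M → F) (x : M)
    (v : TangentSpace I x) : F :=
  mfderiv I 𝓘(ℝ, F) f x v

/-- The differential `dc_y(v)` of a map `c` from the model vector space to the manifold. -/
noncomputable def dparam (c : E → M) (y v : E) : TangentSpace I (c y) :=
  mfderiv 𝓘(ℝ, E) I c y v

/-- Smooth Riemannian metrics on the manifold `M`. -/
abbrev RMetric (M : Type u) [TopologicalSpace M] [ChartedSpace H M] [IsManifold I ∞ M] :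
    Type u :=
  Bundle.ContMDiffRiemannianMetric I ∞ E (fun x : M => TangentSpace I x)

variable {I} in
/-- The scalar product `g_x(v, w)`. -/
noncomputable def gin [IsManifold I ∞ M] (g : RMetric I M) (x : M) (v w : TangentSpace I x) : ℝ :=
  g.inner x v w

end General

/-- The plane. -/
abbrev E2 : Type := EuclideanSpace ℝ (Fin 2)

/-- Euclidean 3-space. -/
abbrev E3 : Type := EuclideanSpace ℝ (Fin 3)

/-- The model half-plane for surfaces with boundary. -/
noncomputable abbrev I2 : ModelWithCorners ℝ E2 (EuclideanHalfSpace 2) := 𝓡∂ 2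

variable {N : Type u} [TopologicalSpace N] [ChartedSpace (EuclideanHalfSpace 2) N]

/-- The inverse of the chart at `x₀`: local coordinates to points of `N`. -/
noncomputable def param (x₀ : N) : E2 → N := (extChartAt I2 x₀).symm

/-- The coordinate vector `∂/∂yᵢ` of the chart at `x₀`, at the point with coordinates `y`. -/
noncomputable def coordVec (x₀ : N) (y : E2) (i : Fin 2) : TangentSpace I2 (param x₀ y) :=
  dparam I2 (param x₀) y (EuclideanSpace.single i 1)

/-- The derivative `∂f/∂yᵢ` of a function on the plane. -/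
noncomputable def dcoord (f : E2 → ℝ) (i : Fin 2) (y : E2) : ℝ :=
  fderiv ℝ f y (EuclideanSpace.single i 1)

/-- The first coordinate (normal to the boundary line of the half-plane) of a tangent vector at
`x`, read in the chart at `x`. -/
noncomputable def normalCoord (x : N) (v : TangentSpace I2 x) : ℝ :=
  dmap (F := E2) I2 (extChartAt I2 x) x v 0

variable [IsManifold I2 ∞ N]

/-- The matrix `g_{ij}` of the metric in the chart at `x₀`. -/
noncomputable def gmat (g : RMetric I2 N) (x₀ : N) (y : E2) : Matrix (Fin 2) (Fin 2) ℝ :=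
  Matrix.of fun i j => gin g (param x₀ y) (coordVec x₀ y i) (coordVec x₀ y j)

/-- The Laplace-Beltrami operator `(det g)^{-1/2} ∂ᵢ ((det g)^{1/2} g^{ij} ∂ⱼ f)` in the chart
at `x₀`. -/
noncomputable def laplaceBeltrami (g : RMetric I2 N) (f : N → ℝ) (x₀ : N) (y : E2) : ℝ :=
  (Real.sqrt (gmat g x₀ y).det)⁻¹ *
    ∑ i, dcoord (fun z => Real.sqrt (gmat g x₀ z).det *
      ∑ j, (gmat g x₀ z)⁻¹ i j * dcoord (f ∘ param x₀) j z) i y

/-- `η` is the outward unit normal at the boundary point `x`: a unit vector, orthogonal to the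
vectors tangent to the boundary, pointing out of the half-plane. -/
def IsOutwardUnitNormal (g : RMetric I2 N) (x : N) (η : TangentSpace I2 x) : Prop :=
  gin g x η η = 1 ∧ (∀ v : TangentSpace I2 x, normalCoord x v = 0 → gin g x η v = 0) ∧
    normalCoord x η < 0

/-- `f` is a Steklov `σ`-eigenfunction or zero: smooth up to the boundary, harmonic in the
interior (in every chart), and `∂_η f = σ f` on the boundary. -/
def IsSteklovFn (g : RMetric I2 N) (σ : ℝ) (f : N → ℝ) : Prop :=
  ContMDiff I2 𝓘(ℝ, ℝ) ∞ f ∧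
    (∀ x₀ : N, ∀ y ∈ interior (extChartAt I2 x₀).target, laplaceBeltrami g f x₀ y = 0) ∧
    ∀ x ∈ I2.boundary N, ∀ η : TangentSpace I2 x, IsOutwardUnitNormal g x η →
      dmap I2 f x η = σ * f x

/-- `σ` is the smallest positive Steklov eigenvalue `σ₁(N, g)`. -/
def IsFirstEigenvalue (g : RMetric I2 N) (σ : ℝ) : Prop :=
  IsLeast {s : ℝ | 0 < s ∧ ∃ f : N → ℝ, f ≠ 0 ∧ IsSteklovFn g s f} σ

/-- The multiplicity of `σ`: the dimension of its eigenspace. -/
noncomputable def multiplicity (g : RMetric I2 N) (σ : ℝ) : ℕ :=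
  Module.finrank ℝ (Submodule.span ℝ {f : N → ℝ | IsSteklovFn g σ f})

/-- A map to the closed unit ball by `σ`-eigenfunctions, of norm one on the boundary. -/
def IsEigenMap (g : RMetric I2 N) (σ : ℝ) (Ψ : N → E3) : Prop :=
  (∀ i, IsSteklovFn g σ (fun x => Ψ x i)) ∧ (∀ x, ‖Ψ x‖ ≤ 1) ∧ ∀ x ∈ I2.boundary N, ‖Ψ x‖ = 1

/-- A conformal embedding of the compact surface `N`: injective, and the pulled back Euclidean
metric is a positive multiple of `g` at each point. -/
def IsConformalEmbedding (g : RMetric I2 N) (Ψ : N → E3) : Prop :=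
  Function.Injective Ψ ∧ ∀ x : N, ∃ c : ℝ, 0 < c ∧ ∀ v w : TangentSpace I2 x,
    inner ℝ (dmap I2 Ψ x v) (dmap I2 Ψ x w) = c * gin g x v w

/-- The piece `|s| ≤ T` of the catenoid `c (cosh s cos θ, cosh s sin θ, s)`, with
`c = (cosh² T + T²)^{-1/2}`; for `T tanh T = 1` it is the critical catenoid. -/
def catenoidPiece (T : ℝ) : Set E3 :=
  {p | ∃ s θ : ℝ, |s| ≤ T ∧ p = (Real.sqrt (Real.cosh T ^ 2 + T ^ 2))⁻¹ •
    (!₂[Real.cosh s * Real.cos θ, Real.cosh s * Real.sin θ, s] : E3)}

end Pool.Agent.MP_30dcea_gt
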