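import Mathlib.Topology.Sheaves.Presheaf
import Mathlib.Tactic.Monotonicity.Lemmas
import Mathlib.Algebra.Order.Star.Real
import Mathlib.Algebra.Ring.IsFormallyReal
import Mathlib.LinearAlgebra.Complex.FiniteDimensional
import Mathlib.Analysis.Complex.CauchyIntegral
import Mathlib.Analysis.Calculus.InverseFunctionTheorem.ApproximatesLinearOn
import Mathlib.Analysis.CStarAlgebra.Classes
import Pool.Agent.MP_30dcea_gt.Defs

-- ======== part 0: formerly Pool.Agent.MP_30dcea_gt.Calc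
section MrgPart0

/-!
Calculus on the closed half-plane: tangential derivatives, local holomorphic coordinates up to
the boundary, boundary uniqueness and a local identity theorem.
-/

open scoped Manifold ContDiff Topology NNReal
open Set Filter Metric

namespace Pool.Agent.MP_30dcea_gt

/-- The closed half-plane. -/
def HH : Set E2 := {y | 0 ≤ y 0}

/-- The coordinate vectors. -/
noncomputable abbrev ee (i : Fin 2) : E2 := EuclideanSpace.single i 1

lemma range_I2 : range I2 = HH := range_modelWithCornersEuclideanHalfSpace 2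

lemma uniqueDiffOn_HH : UniqueDiffOn ℝ HH := range_I2 ▸ I2.uniqueDiffOn

lemma cont0 : Continuous fun y : E2 => y 0 := by fun_prop

lemma convex_HH : Convex ℝ HH := by
  intro x hx y hy a b ha hb _
  simp only [HH, mem_ofPred_eq] at *
  simp only [PiLp.add_apply, PiLp.smul_apply, smul_eq_mul]
  positivity

lemma convex_pos : Convex ℝ {y : E2 | 0 < y 0} := by
  intro x hx y hy a b ha hb hab
  simp only [mem_ofPred_eq] at *
  simp only [PiLp.add_apply, PiLp.smul_apply, smul_eq_mul]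
  rcases ha.eq_or_lt with rfl | ha'
  · simp at hab; simp [hab, hy]
  · positivity

lemma isOpen_pos : IsOpen {y : E2 | 0 < y 0} := isOpen_lt continuous_const cont0

lemma HH_mem_nhds {y : E2} (hy : 0 < y 0) : HH ∈ 𝓝 y :=
  mem_of_superset (isOpen_pos.mem_nhds hy) fun z hz => (le_of_lt hz : 0 ≤ z 0)

lemma nhdsWithin_HH {y : E2} (hy : 0 < y 0) : 𝓝[HH] y = 𝓝 y :=
  nhdsWithin_eq_nhds.2 (HH_mem_nhds hy)

lemma E2_ext (v : E2) : v = v 0 • ee 0 + v 1 • ee 1 := by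
  ext i; fin_cases i <;> simp

lemma tendsto_normal {p : E2} (hp : p ∈ HH) :
    Tendsto (fun s : ℝ => p + s • ee 0) (𝓝[>] 0) (𝓝[HH] p) ∧
      ∀ᶠ s : ℝ in 𝓝[>] 0, 0 < (p + s • ee 0) 0 := by
  have h2 : ∀ᶠ s : ℝ in 𝓝[>] 0, 0 < (p + s • ee 0) 0 := by
    filter_upwards [self_mem_nhdsWithin] with s hs
    have : 0 ≤ p 0 := hp
    simp only [mem_Ioi] at hs
    simp; linarith
  refine ⟨tendsto_nhdsWithin_iff.2 ⟨?_, h2.mono fun s hs => le_of_lt hs⟩, h2⟩
  have : Continuous fun s : ℝ => p + s • ee 0 := by fun_prop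
  simpa using (this.tendsto 0).mono_left nhdsWithin_le_nhds

lemma frequently_pos {p : E2} (hp : p ∈ HH) : ∃ᶠ y in 𝓝[HH] p, 0 < y 0 :=
  (tendsto_normal hp).1.frequently (tendsto_normal hp).2.frequently

/-- An identity valid at interior points extends to the boundary by continuity. -/
lemma eq_of_interior {G : Type*} [TopologicalSpace G] [T2Space G] {f g : E2 → G} {p : E2}
    (hp : p ∈ HH) (hf : ContinuousWithinAt f HH p) (hg : ContinuousWithinAt g HH p)
    (h : ∀ᶠ y in 𝓝[HH] p, 0 < y 0 → f y = g y) : f p = g p :=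
  tendsto_nhds_unique_of_frequently_eq hf hg
    (((frequently_pos hp).and_eventually h).mono fun _ hy => hy.2 hy.1)

lemma tendsto_line {p : E2} (hp : p 0 = 0) :
    Tendsto (fun s : ℝ => p + s • ee 1) (𝓝 0) (𝓝[HH] p) := by
  refine tendsto_nhdsWithin_iff.2 ⟨?_, Eventually.of_forall fun s => ?_⟩
  · have : Continuous fun s : ℝ => p + s • ee 1 := by fun_prop
    simpa using this.tendsto 0
  · simp [HH, hp]

lemma line_zero {p : E2} (hp : p 0 = 0) (s : ℝ) : (p + s • ee 1) 0 = 0 := by simp [hp]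

section

variable {G : Type*} [NormedAddCommGroup G] [NormedSpace ℝ G]

/-- The derivative along the boundary line. -/
lemma hasDerivAt_line {F : E2 → G} {F' : E2 →L[ℝ] G} {p : E2} (hp : p 0 = 0) (s : ℝ)
    (h : HasFDerivWithinAt F F' HH (p + s • ee 1)) :
    HasDerivAt (fun t : ℝ => F (p + t • ee 1)) (F' (ee 1)) s := by
  have h1 : HasDerivAt (fun t : ℝ => p + t • ee 1) (ee 1) s := by
    simpa using ((hasDerivAt_id s).smul_const (ee 1)).const_add p
  have h2 : MapsTo (fun t : ℝ => p + t • ee 1) univ HH := fun t _ => by simp [HH, hp]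
  exact hasDerivWithinAt_univ.1 (h.comp_hasDerivWithinAt s h1.hasDerivWithinAt h2)

lemma hasDerivAt_line0 {F : E2 → G} {F' : E2 →L[ℝ] G} {p : E2} (hp : p 0 = 0)
    (h : HasFDerivWithinAt F F' HH p) :
    HasDerivAt (fun t : ℝ => F (p + t • ee 1)) (F' (ee 1)) 0 :=
  hasDerivAt_line hp 0 (by simpa using h)

/-- A function constant on the boundary line has zero tangential derivative. -/
lemma tan_zero {F : E2 → G} {F' : E2 →L[ℝ] G} {p : E2} (hp : p 0 = 0) {c : G}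
    (h : HasFDerivWithinAt F F' HH p) (h0 : ∀ᶠ y in 𝓝[HH] p, y 0 = 0 → F y = c) :
    F' (ee 1) = 0 := by
  have h1 := hasDerivAt_line0 hp h
  have h2 : (fun t : ℝ => F (p + t • ee 1)) =ᶠ[𝓝 0] fun _ => c :=
    ((tendsto_line hp).eventually h0).mono fun s hs => hs (line_zero hp s)
  exact h1.unique ((hasDerivAt_const (0 : ℝ) c).congr_of_eventuallyEq h2)

/-- A function with zero tangential derivative along the boundary is constant there. -/
lemma arc_const {F : E2 → G} {F' : E2 → E2 →L[ℝ] G} {p : E2} {r : ℝ} (hp : p 0 = 0)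
    (h : ∀ y ∈ ball p r, y 0 = 0 → HasFDerivWithinAt F (F' y) HH y ∧ F' y (ee 1) = 0) :
    ∀ y ∈ ball p r, y 0 = 0 → F y = F p := by
  have hb : ∀ s : ℝ, p + s • ee 1 ∈ ball p r ↔ s ∈ ball (0 : ℝ) r := fun s => by
    simp [norm_smul]
  intro y hy h0
  have hr : 0 < r := pos_of_mem_ball hy
  have hd : ∀ t ∈ ball (0 : ℝ) r, HasDerivAt (fun t : ℝ => F (p + t • ee 1)) 0 t := by
    intro t ht
    obtain ⟨h1, h2⟩ := h _ ((hb t).2 ht) (line_zero hp t)
    simpa [h2] using hasDerivAt_line hp t h1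
  have e : y = p + (y 1 - p 1) • ee 1 := by
    ext i; fin_cases i <;> simp [h0, hp]
  rw [e] at hy ⊢
  have := isOpen_ball.is_const_of_deriv_eq_zero (convex_ball (0 : ℝ) r).isPreconnected
    (fun t ht => (hd t ht).differentiableAt.differentiableWithinAt)
    (fun t ht => (hd t ht).deriv) ((hb _).1 hy) (mem_ball_self hr)
  simpa using this

end

/-- The complex valued form `v ↦ v₁ + m v₀`. -/
noncomputable def th (m : ℂ) : E2 →L[ℝ] ℂ :=
  Complex.ofRealCLM.comp (EuclideanSpace.proj 1) +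
    (EuclideanSpace.proj 0 : E2 →L[ℝ] ℝ).smulRight m

@[simp] lemma th_apply (m : ℂ) (v : E2) : th m v = v 1 + v 0 * m := by
  simp [th]

lemma continuous_th : Continuous th := by
  unfold th
  exact continuous_const.add
    (ContinuousLinearMap.smulRightL ℝ E2 ℂ (EuclideanSpace.proj 0 : E2 →L[ℝ] ℝ)).continuous

lemma th_eq_zero {m : ℂ} (hm : m.im ≠ 0) {v : E2} (h : th m v = 0) : v = 0 := by
  have h1 := congrArg Complex.im h
  have h2 := congrArg Complex.re h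
  simp [hm] at h1
  simp [h1] at h2
  ext i; fin_cases i <;> simp [h1, h2]

/-- The projection of the plane onto the half-plane. -/
noncomputable def piH (y : E2) : E2 := y - min (y 0) 0 • ee 0

lemma piH_zero (y : E2) : piH y 0 = max (y 0) 0 := by
  simp only [piH, PiLp.sub_apply, PiLp.smul_apply]
  rcases le_total (y 0) 0 with h | h <;> simp [h]

lemma piH_one (y : E2) : piH y 1 = y 1 := by simp [piH]

lemma piH_mem (y : E2) : piH y ∈ HH := by simp [HH, piH_zero]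

lemma piH_of_mem {y : E2} (hy : y ∈ HH) : piH y = y := by
  have : 0 ≤ y 0 := hy
  simp [piH, this]

lemma piH_lip (y z : E2) : ‖piH y - piH z‖ ≤ ‖y - z‖ := by
  rw [EuclideanSpace.norm_eq, EuclideanSpace.norm_eq]
  apply Real.sqrt_le_sqrt
  simp only [Fin.sum_univ_two, PiLp.sub_apply, piH_zero, piH_one, Real.norm_eq_abs]
  have := abs_max_sub_max_le_abs (y 0) (z 0) 0
  gcongr

lemma continuous_piH : Continuous piH := by unfold piH; fun_prop

lemma piH_ball {p y : E2} {r : ℝ} (hp : p ∈ HH) (hy : y ∈ ball p r) : piH y ∈ ball p r := by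
  rw [mem_ball, dist_eq_norm] at *
  calc ‖piH y - p‖ = ‖piH y - piH p‖ := by rw [piH_of_mem hp]
    _ ≤ _ := piH_lip _ _
    _ < r := hy

/-- `e` is a local coordinate on the ball, equal to `w` on the half-plane, with Lipschitz
inverse. -/
structure IsHC (e : OpenPartialHomeomorph E2 ℂ) (w : E2 → ℂ) (p : E2) (r : ℝ) : Prop where
  pos : 0 < r
  src : e.source = ball p r
  eq : ∀ y ∈ HH, e y = w y
  anti : ∃ C : ℝ, ∀ y ∈ ball p r, ∀ z ∈ ball p r, ‖y - z‖ ≤ C * ‖e y - e z‖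

lemma exists_HC {w : E2 → ℂ} {A : E2 → E2 →L[ℝ] ℂ} {p : E2} (hp : p ∈ HH)
    (hw : ∀ᶠ y in 𝓝[HH] p, HasFDerivWithinAt w (A y) HH y) (hA : ContinuousWithinAt A HH p)
    (hinj : ∀ v, A p v = 0 → v = 0) {U : Set E2} (hU : U ∈ 𝓝[HH] p) :
    ∃ e r, IsHC e w p r ∧ ball p r ∩ HH ⊆ U := by
  have hfin : Module.finrank ℝ E2 = Module.finrank ℝ ℂ := by simp
  have hi : Function.Injective (A p : E2 →ₗ[ℝ] ℂ) := (injective_iff_map_eq_zero _).2 hinj
  let L : E2 ≃L[ℝ] ℂ := (LinearMap.linearEquivOfInjective _ hi hfin).toContinuousLinearEquiv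
  have hL : (L : E2 →L[ℝ] ℂ) = A p := by ext1 v; rfl
  set Nn : ℝ≥0 := ‖(L.symm : ℂ →L[ℝ] E2)‖₊ with hN
  have hN0 : 0 < Nn := by
    rw [hN]
    exact L.nnnorm_symm_pos
  set c : ℝ≥0 := Nn⁻¹ / 2 with hc
  have hc0 : 0 < c := by positivity
  have hcN : c < Nn⁻¹ := NNReal.half_lt_self (by positivity)
  have h1 : ∀ᶠ y in 𝓝[HH] p, ‖A y - A p‖ ≤ c := by
    have := Metric.tendsto_nhds.1 hA c hc0
    exact this.mono fun y hy => by rw [← dist_eq_norm]; exact hy.le
  obtain ⟨r, hr, hb⟩ := Metric.mem_nhdsWithin_iff.1 ((hw.and h1).and hU)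
  let w' : E2 → ℂ := fun y => w (piH y) + min (y 0) 0 • A p (ee 0)
  have hconv : Convex ℝ (ball p r ∩ HH) := (convex_ball p r).inter convex_HH
  have happ : ApproximatesLinearOn w' (L : E2 →L[ℝ] ℂ) (ball p r) c := by
    intro y hy z hz
    have hy' : piH y ∈ ball p r ∩ HH := ⟨piH_ball hp hy, piH_mem y⟩
    have hz' : piH z ∈ ball p r ∩ HH := ⟨piH_ball hp hz, piH_mem z⟩
    have := hconv.norm_image_sub_le_of_norm_hasFDerivWithin_le' (φ := A p)
      (fun x hx => (hb hx).1.1.mono inter_subset_right) (fun x hx => (hb hx).1.2) hz' hy'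
    have e : w' y - w' z - (L : E2 →L[ℝ] ℂ) (y - z) =
        w (piH y) - w (piH z) - A p (piH y - piH z) := by
      simp only [w', hL, piH, map_sub, map_smul]; abel
    rw [e]
    exact this.trans (by gcongr; exact piH_lip y z)
  refine ⟨happ.toOpenPartialHomeomorph w' _ (Or.inr hcN) isOpen_ball, r, ⟨hr, rfl, ?_, ?_⟩,
    fun y hy => (hb hy).2⟩
  · intro y hy
    have : 0 ≤ y 0 := hy
    simp [w', piH_of_mem hy, this]
  · refine ⟨((Nn⁻¹ - c)⁻¹ : ℝ≥0), fun y hy z hz => ?_⟩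
    have := (happ.antilipschitz (Or.inr hcN)).le_mul_dist ⟨y, hy⟩ ⟨z, hz⟩
    simpa [Subtype.dist_eq, dist_eq_norm] using this

namespace IsHC

variable {e : OpenPartialHomeomorph E2 ℂ} {w : E2 → ℂ} {p : E2} {r : ℝ}
variable {V : Type*} [NormedAddCommGroup V] [NormedSpace ℂ V]

lemma left_inv (h : IsHC e w p r) {y : E2} (hy : y ∈ ball p r) : e.symm (e y) = y :=
  e.left_inv (h.src ▸ hy)

lemma tendsto_symm (h : IsHC e w p r) {y : E2} (hy : y ∈ ball p r) :
    Tendsto e.symm (𝓝 (e y)) (𝓝 y) := e.tendsto_symm (h.src ▸ hy)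

lemma tendsto_e (h : IsHC e w p r) {y : E2} (hy : y ∈ ball p r) :
    Tendsto e (𝓝 y) (𝓝 (e y)) := e.continuousAt (h.src ▸ hy)

lemma ev_left_inv (h : IsHC e w p r) {y : E2} (hy : y ∈ ball p r) :
    ∀ᶠ z in 𝓝 y, e.symm (e z) = z := e.eventually_left_inverse (h.src ▸ hy)

/-- Complex differentiability in the coordinate `e`. -/
lemma hasDerivAt (h : IsHC e w p r) {y : E2} (hy : y ∈ ball p r) {F : E2 → V} {c : V}
    (hF : HasFDerivAt (fun z => F z - e z • c) (0 : E2 →L[ℝ] V) y) :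
    HasDerivAt (F ∘ e.symm) c (e y) := by
  obtain ⟨C, hC⟩ := h.anti
  have hys : y ∈ e.source := h.src ▸ hy
  have h1 := (hasFDerivAt_iff_isLittleO.1 hF).comp_tendsto (h.tendsto_symm hy)
  have hT : ∀ᶠ t in 𝓝 (e y), t ∈ e.target := e.open_target.mem_nhds (e.map_source hys)
  have h2 : (fun t => e.symm t - y) =O[𝓝 (e y)] fun t => t - e y := by
    refine Asymptotics.IsBigO.of_bound C (hT.mono fun t ht => ?_)
    have := hC _ (h.src ▸ e.map_target ht) y hy
    rwa [e.right_inv ht] at this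
  rw [hasDerivAt_iff_isLittleO]
  refine (h1.trans_isBigO h2).congr' (hT.mono fun t ht => ?_) EventuallyEq.rfl
  simp only [Function.comp, e.right_inv ht, e.left_inv hys, zero_apply, sub_smul]
  abel

/-- At an interior point, a function whose differential is a complex multiple of that of `w`
is complex differentiable in the coordinate `e`. -/
lemma hasDerivAt_int (h : IsHC e w p r) {y : E2} (hy : y ∈ ball p r) (h0 : 0 < y 0)
    {A : E2 →L[ℝ] ℂ} (hw : HasFDerivWithinAt w A HH y) {F : E2 → V} {c : V}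
    (hF : HasFDerivWithinAt F (A.smulRight c) HH y) : HasDerivAt (F ∘ e.symm) c (e y) := by
  apply h.hasDerivAt hy
  have he : HasFDerivAt e A y :=
    (hw.hasFDerivAt (HH_mem_nhds h0)).congr_of_eventuallyEq
      (mem_of_superset (HH_mem_nhds h0) fun z hz => h.eq z hz)
  have := (hF.hasFDerivAt (HH_mem_nhds h0)).sub (he.smul_const c)
  rw [sub_self] at this
  exact this

lemma hasFDerivAt_e (h : IsHC e w p r) {y : E2} (h0 : 0 < y 0)
    {A : E2 →L[ℝ] ℂ} (hw : HasFDerivWithinAt w A HH y) : HasFDerivAt e A y :=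
  (hw.hasFDerivAt (HH_mem_nhds h0)).congr_of_eventuallyEq
    (mem_of_superset (HH_mem_nhds h0) fun z hz => h.eq z hz)

lemma target_preconn (h : IsHC e w p r) : IsPreconnected e.target := by
  rw [← e.image_source_eq_target]
  exact (h.src ▸ (convex_ball p r).isPreconnected).image _ e.continuousOn

/-- Boundary uniqueness. -/
lemma boundary_unique [CompleteSpace V] (h : IsHC e w p r) (hp : p 0 = 0) {F : E2 → V}
    (hi : ∀ y ∈ ball p r, 0 < y 0 → DifferentiableAt ℂ (F ∘ e.symm) (e y))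
    (hb : ∀ y ∈ ball p r, y 0 = 0 → HasFDerivWithinAt F (0 : E2 →L[ℝ] V) HH y) :
    ∀ y ∈ ball p r, y ∈ HH → F y = F p := by
  have hpH : p ∈ HH := le_of_eq hp.symm
  have hneg : ∀ y ∈ ball p r, y 0 ≤ 0 → HasDerivAt ((F ∘ piH) ∘ e.symm) 0 (e y) := by
    intro y hy h0
    apply h.hasDerivAt hy
    simp only [smul_zero, sub_zero]
    have h1 := hb (piH y) (piH_ball hpH hy) (by simp [piH_zero, h0])
    have h2 : Tendsto piH (𝓝 y) (𝓝[HH] (piH y)) :=
      tendsto_nhdsWithin_iff.2 ⟨continuous_piH.continuousAt, Eventually.of_forall piH_mem⟩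
    have h3 := (hasFDerivWithinAt_iff_isLittleO.1 h1).comp_tendsto h2
    have h4 : (fun z => piH z - piH y) =O[𝓝 y] fun z => z - y :=
      Asymptotics.IsBigO.of_bound 1 (Eventually.of_forall fun z => by simpa using piH_lip z y)
    rw [hasFDerivAt_iff_isLittleO]
    simpa [Function.comp_def] using h3.trans_isBigO h4
  have hdiff : DifferentiableOn ℂ ((F ∘ piH) ∘ e.symm) e.target := by
    intro t ht
    have hy : e.symm t ∈ ball p r := h.src ▸ e.map_target ht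
    apply DifferentiableAt.differentiableWithinAt
    rw [← e.right_inv ht]
    rcases le_or_gt (e.symm t 0) 0 with h0 | h0
    · exact (hneg _ hy h0).differentiableAt
    · refine (hi _ hy h0).congr_of_eventuallyEq ?_
      filter_upwards [(h.tendsto_symm hy).eventually (HH_mem_nhds h0)] with s hs
      simp [piH_of_mem hs]
  have han := (hdiff.analyticOnNhd e.open_target).deriv
  let y₁ : E2 := p - (r / 2) • ee 0
  have hy₁ : y₁ ∈ ball p r := by
    have := h.pos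
    simp only [y₁, mem_ball, dist_eq_norm, sub_sub_cancel_left, norm_neg, norm_smul]
    simp [abs_of_pos this]; linarith
  have hy₁0 : y₁ 0 < 0 := by have := h.pos; simp [y₁, hp]; linarith
  have hz : deriv ((F ∘ piH) ∘ e.symm) =ᶠ[𝓝 (e y₁)] 0 := by
    have h1 : ∀ᶠ y in 𝓝 y₁, y ∈ ball p r ∧ y 0 < 0 :=
      Eventually.and (isOpen_ball.mem_nhds hy₁)
        (cont0.continuousAt.eventually_lt continuousAt_const hy₁0)
    filter_upwards [(h.tendsto_symm hy₁).eventually h1,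
      e.open_target.mem_nhds (e.map_source (h.src ▸ hy₁))] with t ht ht'
    have := (hneg _ ht.1 ht.2.le).deriv
    rwa [e.right_inv ht'] at this
  have hz' := han.eqOn_zero_of_preconnected_of_eventuallyEq_zero h.target_preconn
    (e.map_source (h.src ▸ hy₁)) hz
  intro y hy hyH
  have hpb : p ∈ ball p r := mem_ball_self h.pos
  have := e.open_target.is_const_of_deriv_eq_zero h.target_preconn hdiff hz'
    (e.map_source (h.src ▸ hy)) (e.map_source (h.src ▸ hpb))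
  simpa [h.left_inv hy, h.left_inv hpb, piH_of_mem hyH, piH_of_mem hpH] using this

/-- Local identity theorem. -/
lemma identity {W : Type*} [NormedAddCommGroup W] [NormedSpace ℝ W] (h : IsHC e w p r)
    {F : E2 → W} (hi : ∀ y ∈ ball p r, 0 < y 0 → AnalyticAt ℝ (F ∘ e.symm) (e y))
    {y₁ : E2} (hy₁ : y₁ ∈ ball p r) (hy₁H : y₁ ∈ HH) (hz : ∀ᶠ y in 𝓝[HH] y₁, 0 < y 0 → F y = 0) :
    ∀ y ∈ ball p r, 0 < y 0 → F y = 0 := by
  have hb : ∀ᶠ y in 𝓝[HH] y₁, y ∈ ball p r := nhdsWithin_le_nhds (isOpen_ball.mem_nhds hy₁)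
  obtain ⟨y₂, ⟨h2, h2b⟩, h2z⟩ :=
    (((frequently_pos hy₁H).and_eventually hb).and_eventually
      (eventually_eventually_nhdsWithin.2 hz)).exists
  rw [nhdsWithin_HH h2] at h2z
  have hsub : ball p r ∩ {y : E2 | 0 < y 0} ⊆ e.source := fun y hy => h.src ▸ hy.1
  have hpre : IsPreconnected (e '' (ball p r ∩ {y : E2 | 0 < y 0})) :=
    ((convex_ball p r).inter convex_pos).isPreconnected.image _ (e.continuousOn.mono hsub)
  have han : AnalyticOnNhd ℝ (F ∘ e.symm) (e '' (ball p r ∩ {y : E2 | 0 < y 0})) := by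
    rintro _ ⟨y, hy, rfl⟩
    exact hi y hy.1 hy.2
  have hev : (F ∘ e.symm) =ᶠ[𝓝 (e y₂)] 0 := by
    filter_upwards [(h.tendsto_symm h2b).eventually (h2z.and (isOpen_pos.mem_nhds h2))] with t ht
    exact ht.1 ht.2
  have := han.eqOn_zero_of_preconnected_of_eventuallyEq_zero hpre ⟨y₂, ⟨h2b, h2⟩, rfl⟩ hev
  intro y hy h0
  simpa [h.left_inv hy] using this ⟨y, ⟨hy, h0⟩, rfl⟩

/-- Differentiability at all interior points gives analyticity. -/
lemma analyticAt [CompleteSpace V] (h : IsHC e w p r) {F : ℂ → V}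
    (hi : ∀ y ∈ ball p r, 0 < y 0 → DifferentiableAt ℂ F (e y)) {y : E2} (hy : y ∈ ball p r)
    (h0 : 0 < y 0) : AnalyticAt ℂ F (e y) := by
  rw [Complex.analyticAt_iff_eventually_differentiableAt]
  have h1 : ∀ᶠ z in 𝓝 y, z ∈ ball p r ∧ 0 < z 0 :=
    Eventually.and (isOpen_ball.mem_nhds hy) (isOpen_pos.mem_nhds h0)
  filter_upwards [(h.tendsto_symm hy).eventually h1,
    e.open_target.mem_nhds (e.map_source (h.src ▸ hy))] with t ht ht'
  have := hi _ ht.1 ht.2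
  rwa [e.right_inv ht'] at this

end IsHC

end Pool.Agent.MP_30dcea_gt

end MrgPart0

-- ======== part 1: formerly Pool.Agent.MP_30dcea_gt.Alg
section MrgPart1

/-!
Algebraic identities for isotropic vectors in `ℂ³` and for curves on a spherical conic.
-/

namespace Pool.Agent.MP_30dcea_gt

open Complex

/-- Complex 3-space. -/
abbrev C3 : Type := Fin 3 → ℂ

/-- The complex bilinear scalar product. -/
def dt (u v : C3) : ℂ := u 0 * v 0 + u 1 * v 1 + u 2 * v 2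

/-- The diagonal quadratic form with coefficients `a, b, c`. -/
def Qf (a b c : ℝ) (u : C3) : ℂ := a * u 0 ^ 2 + b * u 1 ^ 2 + c * u 2 ^ 2

/-- The weight two form `Q²(u) - (a+b+c) Q(u)`. -/
def G1 (a b c : ℝ) (u : C3) : ℂ := Qf (a ^ 2) (b ^ 2) (c ^ 2) u - (a + b + c : ℝ) * Qf a b c u

/-- The weight twelve relation. -/
def Erel (a b c : ℝ) (u : C3) (K : ℂ) : ℂ :=
  ((a * b * c : ℝ) : ℂ) ^ 2 * G1 a b c u ^ 2 * K ^ 2 -
    Qf a b c u ^ 3 * (2 * (a * b * c : ℝ) * G1 a b c u *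
      (2 * Qf a b c u ^ 2 + (a * b + b * c + c * a : ℝ) * K) -
      (((a * b + b * c + c * a) ^ 2 - 4 * (a + b + c) * (a * b * c) : ℝ) : ℂ) * Qf a b c u ^ 3 +
      4 * ((a * b * c : ℝ) : ℂ) ^ 2 * K * Qf a b c u)

/-- Complex conjugation of a vector. -/
def cj (u : C3) : C3 := fun k => (starRingEnd ℂ) (u k)

lemma Qf_smul (a b c : ℝ) (t : ℂ) (u : C3) : Qf a b c (t • u) = t ^ 2 * Qf a b c u := by
  simp only [Qf, Pi.smul_apply, smul_eq_mul]; ring

lemma G1_smul (a b c : ℝ) (t : ℂ) (u : C3) : G1 a b c (t • u) = t ^ 2 * G1 a b c u := by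
  simp only [G1, Qf_smul]; ring

lemma Erel_smul (a b c : ℝ) (t : ℂ) (u : C3) (K : ℂ) :
    Erel a b c (t • u) (t ^ 4 * K) = t ^ 12 * Erel a b c u K := by
  simp only [Erel, G1_smul, Qf_smul]; ring

lemma Qf_cj (a b c : ℝ) (u : C3) : Qf a b c (cj u) = (starRingEnd ℂ) (Qf a b c u) := by
  simp [Qf, cj]

lemma G1_cj (a b c : ℝ) (u : C3) : G1 a b c (cj u) = (starRingEnd ℂ) (G1 a b c u) := by
  simp only [G1, Qf_cj, map_sub, map_mul, conj_ofReal]

lemma Erel_cj (a b c : ℝ) (u : C3) (K : ℂ) :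
    Erel a b c (cj u) ((starRingEnd ℂ) K) = (starRingEnd ℂ) (Erel a b c u K) := by
  simp only [Erel, G1_cj, Qf_cj, map_sub, map_mul, map_add, map_pow, conj_ofReal, map_ofNat]

/-- Two jets are related when they differ by a weighted scaling, possibly with conjugation. -/
def Rel (u : C3) (K : ℂ) (u' : C3) (K' : ℂ) : Prop :=
  ∃ t : ℂ, t ≠ 0 ∧ ((u' = t • u ∧ K' = t ^ 4 * K) ∨
    (u' = cj (t • u) ∧ K' = (starRingEnd ℂ) (t ^ 4 * K)))

lemma Rel.erel {u u' : C3} {K K' : ℂ} (h : Rel u K u' K') (a b c : ℝ) :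
    Erel a b c u' K' = 0 ↔ Erel a b c u K = 0 := by
  obtain ⟨t, ht, ⟨rfl, rfl⟩ | ⟨rfl, rfl⟩⟩ := h
  · simp [Erel_smul, ht]
  · rw [Erel_cj, Erel_smul]; simp [ht]

lemma Rel.qf {u u' : C3} {K K' : ℂ} (h : Rel u K u' K') (a b c : ℝ) :
    Qf a b c u' = 0 ↔ Qf a b c u = 0 := by
  obtain ⟨t, ht, ⟨rfl, rfl⟩ | ⟨rfl, rfl⟩⟩ := h
  · simp [Qf_smul, ht]
  · rw [Qf_cj, Qf_smul]; simp [ht]

lemma Rel.absIm {u u' : C3} {K K' : ℂ} (h : Rel u K u' K') (a b c : ℝ) :
    |(K' / Qf a b c u' ^ 2).im| = |(K / Qf a b c u ^ 2).im| := by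
  obtain ⟨t, ht, ⟨rfl, rfl⟩ | ⟨rfl, rfl⟩⟩ := h
  · rw [Qf_smul, mul_pow, ← pow_mul, mul_div_mul_left _ _ (pow_ne_zero _ ht)]
  · rw [Qf_cj, Qf_smul, ← map_pow, ← map_div₀, conj_im, abs_neg, mul_pow, ← pow_mul,
      mul_div_mul_left _ _ (pow_ne_zero _ ht)]

/-- On the orthogonal complement of an isotropic vector the form has rank one. -/
lemma rank_one {Γ D Y : C3} (k : Fin 3) (hk : Γ k = 1) (h0 : dt Γ Γ = 0) (h1 : dt Γ D = 0)
    (h2 : dt Γ Y = 0) : dt D D * dt Y Y = dt D Y ^ 2 := by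
  simp only [dt] at *
  fin_cases k <;> simp only [Fin.zero_eta, Fin.mk_one, Fin.reduceFinMk] at hk <;> rw [hk] at h0 h1 h2
  · grind
  · grind
  · grind

lemma G1_ne_zero {a b c : ℝ} (hab : a ≠ b) (hbc : b ≠ c) (hac : a ≠ c) {Γ : C3} (k : Fin 3)
    (hk : Γ k = 1) (h0 : dt Γ Γ = 0) (hq : Qf a b c Γ = 0) : G1 a b c Γ ≠ 0 := by
  intro h
  simp only [G1, hq, mul_zero, sub_zero] at h
  simp only [dt, Qf] at *
  push_cast at h
  have hab' : (a : ℂ) - b ≠ 0 := by exact_mod_cast sub_ne_zero.2 hab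
  have hbc' : (b : ℂ) - c ≠ 0 := by exact_mod_cast sub_ne_zero.2 hbc
  have hac' : (a : ℂ) - c ≠ 0 := by exact_mod_cast sub_ne_zero.2 hac
  have e0 : ((a : ℂ) - b) * (a - c) * Γ 0 ^ 2 = 0 := by
    linear_combination h - (b + c) * hq + b * c * h0
  have e1 : ((a : ℂ) - b) * (b - c) * Γ 1 ^ 2 = 0 := by
    linear_combination -h + (a + c) * hq - a * c * h0
  have e2 : ((a : ℂ) - c) * (b - c) * Γ 2 ^ 2 = 0 := by
    linear_combination h - (a + b) * hq + a * b * h0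
  fin_cases k <;> simp only [Fin.zero_eta, Fin.mk_one, Fin.reduceFinMk] at hk
  · rw [hk] at e0; simp [hab', hac'] at e0
  · rw [hk] at e1; simp [hab', hbc'] at e1
  · rw [hk] at e2; simp [hbc', hac'] at e2

lemma par_aux {a b c x y z v0 v1 v2 : ℝ}
    (h1 : x ^ 2 + y ^ 2 + z ^ 2 = 1) (h2 : a * x ^ 2 + b * y ^ 2 + c * z ^ 2 = 0)
    (h3 : x * v0 + y * v1 + z * v2 = 0) (h4 : a * x * v0 + b * y * v1 + c * z * v2 = 0) :
    v0 * ((a * x) ^ 2 + (b * y) ^ 2 + (c * z) ^ 2) =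
      (v0 * ((c - b) * y * z) + v1 * ((a - c) * z * x) + v2 * ((b - a) * x * y)) *
        ((c - b) * y * z) ∧
    v1 * ((a * x) ^ 2 + (b * y) ^ 2 + (c * z) ^ 2) =
      (v0 * ((c - b) * y * z) + v1 * ((a - c) * z * x) + v2 * ((b - a) * x * y)) *
        ((a - c) * z * x) ∧
    v2 * ((a * x) ^ 2 + (b * y) ^ 2 + (c * z) ^ 2) =
      (v0 * ((c - b) * y * z) + v1 * ((a - c) * z * x) + v2 * ((b - a) * x * y)) *
        ((b - a) * x * y) := by
  refine ⟨?_, ?_, ?_⟩ <;> grind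

lemma conic_aux {a b c x y z r : ℝ}
    (h1 : x ^ 2 + y ^ 2 + z ^ 2 = 1) (h2 : a * x ^ 2 + b * y ^ 2 + c * z ^ 2 = 0)
    (hr : r = (a * x) ^ 2 + (b * y) ^ 2 + (c * z) ^ 2) :
    ((c - b) * y * z) ^ 2 + ((a - c) * z * x) ^ 2 + ((b - a) * x * y) ^ 2 = r ∧
    a * ((c - b) * y * z) ^ 2 + b * ((a - c) * z * x) ^ 2 + c * ((b - a) * x * y) ^ 2 =
      -(a * b * c) ∧
    a ^ 2 * ((c - b) * y * z) ^ 2 + b ^ 2 * ((a - c) * z * x) ^ 2 + c ^ 2 * ((b - a) * x * y) ^ 2 =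
      -r ^ 2 - (a + b + c) * (a * b * c) - (a * b + b * c + c * a) * r ∧
    ((a - b) * (b - c) * (c - a) * x * y * z) ^ 2 = -((r + a * b) * (r + b * c) * (r + c * a)) := by
  subst hr
  refine ⟨?_, ?_, ?_, ?_⟩ <;> grind

lemma gram_aux {a b c x y z w0 w1 w2 : ℝ}
    (h1 : x ^ 2 + y ^ 2 + z ^ 2 = 1) (h2 : a * x ^ 2 + b * y ^ 2 + c * z ^ 2 = 0) :
    (w0 * ((c - b) * y * z) + w1 * ((a - c) * z * x) + w2 * ((b - a) * x * y)) ^ 2 =
      (w0 ^ 2 + w1 ^ 2 + w2 ^ 2) * ((a * x) ^ 2 + (b * y) ^ 2 + (c * z) ^ 2) -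
        (x * w0 + y * w1 + z * w2) ^ 2 * ((a * x) ^ 2 + (b * y) ^ 2 + (c * z) ^ 2) -
        (a * x * w0 + b * y * w1 + c * z * w2) ^ 2 := by
  grind

lemma squares_aux {a b c x y z r : ℝ}
    (h1 : x ^ 2 + y ^ 2 + z ^ 2 = 1) (h2 : a * x ^ 2 + b * y ^ 2 + c * z ^ 2 = 0)
    (hr : r = (a * x) ^ 2 + (b * y) ^ 2 + (c * z) ^ 2) :
    (a - b) * (a - c) * x ^ 2 = r + b * c ∧ (b - a) * (b - c) * y ^ 2 = r + a * c ∧
      (c - a) * (c - b) * z ^ 2 = r + a * b := by
  subst hr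
  refine ⟨?_, ?_, ?_⟩ <;> grind

/-- Algebra along a boundary curve lying on a nondegenerate spherical conic. -/
lemma boundary_alg {a b c x y z v0 v1 v2 w0 w1 w2 β β' : ℝ} (habc : a * b * c ≠ 0)
    (h1 : x ^ 2 + y ^ 2 + z ^ 2 = 1) (h2 : a * x ^ 2 + b * y ^ 2 + c * z ^ 2 = 0)
    (h3 : x * v0 + y * v1 + z * v2 = 0) (h4 : a * x * v0 + b * y * v1 + c * z * v2 = 0)
    (h5 : v0 ^ 2 + v1 ^ 2 + v2 ^ 2 + (x * w0 + y * w1 + z * w2) = 0)
    (h6 : a * v0 ^ 2 + b * v1 ^ 2 + c * v2 ^ 2 + (a * x * w0 + b * y * w1 + c * z * w2) = 0)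
    (h7 : β ^ 2 = v0 ^ 2 + v1 ^ 2 + v2 ^ 2) (h8 : v0 * w0 + v1 * w1 + v2 * w2 = β * β')
    (hβ : β ≠ 0) (u D : C3)
    (hu0 : u 0 = v0 + I * (β * x : ℝ)) (hu1 : u 1 = v1 + I * (β * y : ℝ))
    (hu2 : u 2 = v2 + I * (β * z : ℝ))
    (hD0 : D 0 = w0 + I * (β' * x + β * v0 : ℝ)) (hD1 : D 1 = w1 + I * (β' * y + β * v1 : ℝ))
    (hD2 : D 2 = w2 + I * (β' * z + β * v2 : ℝ)) :
    Qf a b c u ≠ 0 ∧
      dt D D / Qf a b c u ^ 2 = (((a * x) ^ 2 + (b * y) ^ 2 + (c * z) ^ 2)⁻¹ : ℝ) ∧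
      Erel a b c u (dt D D) = 0 := by
  have ha : a ≠ 0 := fun h => habc (by simp [h])
  have hb : b ≠ 0 := fun h => habc (by simp [h])
  have hc : c ≠ 0 := fun h => habc (by simp [h])
  obtain ⟨p0, p1, p2⟩ := par_aux h1 h2 h3 h4
  have hgram := gram_aux (w0 := w0) (w1 := w1) (w2 := w2) h1 h2
  generalize hr : (a * x) ^ 2 + (b * y) ^ 2 + (c * z) ^ 2 = r at *
  obtain ⟨c1, c2, c3, c4⟩ := conic_aux h1 h2 hr.symm
  have hr0 : r ≠ 0 := by
    intro h
    have s0 := sq_nonneg (a * x)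
    have s1 := sq_nonneg (b * y)
    have s2 := sq_nonneg (c * z)
    have e0 : (a * x) ^ 2 = 0 := by linarith only [s0, s1, s2, hr, h]
    have e1 : (b * y) ^ 2 = 0 := by linarith only [s0, s1, s2, hr, h]
    have e2 : (c * z) ^ 2 = 0 := by linarith only [s0, s1, s2, hr, h]
    simp [ha, hb, hc] at e0 e1 e2
    simp [e0, e1, e2] at h1
  obtain ⟨l, hl0, hl1, hl2⟩ : ∃ l : ℝ, v0 = l * ((c - b) * y * z) ∧ v1 = l * ((a - c) * z * x) ∧
      v2 = l * ((b - a) * x * y) := by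
    refine ⟨(v0 * ((c - b) * y * z) + v1 * ((a - c) * z * x) + v2 * ((b - a) * x * y)) / r,
      ?_, ?_, ?_⟩
    · rw [div_mul_eq_mul_div, eq_div_iff hr0, p0]
    · rw [div_mul_eq_mul_div, eq_div_iff hr0, p1]
    · rw [div_mul_eq_mul_div, eq_div_iff hr0, p2]
  clear p0 p1 p2
  have hβ2 : β ^ 2 = l ^ 2 * r := by rw [h7, hl0, hl1, hl2, ← c1]; ring
  have hl : l ≠ 0 := by rintro rfl; exact hβ (by simpa using hβ2)
  have hq : a * v0 ^ 2 + b * v1 ^ 2 + c * v2 ^ 2 = -(l ^ 2 * (a * b * c)) := by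
    rw [hl0, hl1, hl2]; linear_combination l ^ 2 * c2
  have hQ : Qf a b c u = (-(l ^ 2 * (a * b * c)) : ℝ) := by
    rw [← hq]
    simp only [Qf, hu0, hu1, hu2]
    apply Complex.ext
    · simp [pow_two]; linear_combination -β ^ 2 * h2
    · simp [pow_two]; linear_combination 2 * β * h4
  have hK0 : dt D D = (w0 ^ 2 + w1 ^ 2 + w2 ^ 2 - β' ^ 2 - β ^ 4 : ℝ) := by
    simp only [dt, hD0, hD1, hD2]
    apply Complex.ext
    · rw [ofReal_re]
      simp [pow_two]; linear_combination -β' ^ 2 * h1 - 2 * β * β' * h3 + β ^ 2 * h7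
    · rw [ofReal_im]
      simp [pow_two]; linear_combination 2 * β' * h5 + 2 * β' * h7 + 2 * β * h8
  have hwt : (w0 * ((c - b) * y * z) + w1 * ((a - c) * z * x) + w2 * ((b - a) * x * y)) ^ 2 =
      r * β' ^ 2 := by
    have : l ^ 2 * (w0 * ((c - b) * y * z) + w1 * ((a - c) * z * x) + w2 * ((b - a) * x * y)) ^ 2 =
        l ^ 2 * (r * β' ^ 2) := by
      have e : l * (w0 * ((c - b) * y * z) + w1 * ((a - c) * z * x) + w2 * ((b - a) * x * y)) =
          β * β' := by rw [← h8, hl0, hl1, hl2]; ring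
      rw [← mul_pow, e, mul_pow, hβ2]; ring
    exact mul_left_cancel₀ (pow_ne_zero 2 hl) this
  have hKr : (w0 ^ 2 + w1 ^ 2 + w2 ^ 2 - β' ^ 2 - β ^ 4) = (l ^ 2 * (a * b * c)) ^ 2 / r := by
    have e1 : x * w0 + y * w1 + z * w2 = -β ^ 2 := by linarith only [h5, h7]
    have e2 : a * x * w0 + b * y * w1 + c * z * w2 = l ^ 2 * (a * b * c) := by
      linarith only [h6, hq]
    rw [e1, e2, hwt] at hgram
    field_simp
    linear_combination -hgram
  have hQ0 : (-(l ^ 2 * (a * b * c)) : ℝ) ≠ 0 := by simp [hl, ha, hb, hc]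
  obtain ⟨P, hP⟩ : ∃ P : ℝ, P = (a - b) * (b - c) * (c - a) * x * y * z := ⟨_, rfl⟩
  rw [← hP] at c4
  have hG : G1 a b c u =
      (-(l ^ 2 * (2 * r ^ 2 + (a * b + b * c + c * a) * r)) : ℝ) + I * (2 * β * l * P : ℝ) := by
    rw [G1, hQ]
    simp only [Qf, hu0, hu1, hu2]
    apply Complex.ext
    · simp only [pow_two, add_re, sub_re, mul_re, ofReal_re, ofReal_im, I_re, I_im, add_im, mul_im]
      rw [hl0, hl1, hl2]
      linear_combination l ^ 2 * c3 - β ^ 2 * hr - r * hβ2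
    · simp only [pow_two, add_re, sub_im, mul_re, ofReal_re, ofReal_im, I_re, I_im, add_im, mul_im]
      rw [hl0, hl1, hl2, hP]
      ring
  refine ⟨?_, ?_, ?_⟩
  · rw [hQ]; exact_mod_cast hQ0
  · rw [hQ, hK0, hKr]
    norm_cast
    field_simp
  · have hr' : (r : ℂ) ≠ 0 := by exact_mod_cast hr0
    have c4' : (P : ℂ) ^ 2 = -((r + a * b) * (r + b * c) * (r + c * a)) := by exact_mod_cast c4
    have hβ' : (β : ℂ) ^ 2 = l ^ 2 * r := by exact_mod_cast hβ2
    have hsq : (G1 a b c u + l ^ 2 * (2 * r ^ 2 + (a * b + b * c + c * a) * r)) ^ 2 =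
        4 * l ^ 4 * r * ((r + a * b) * (r + b * c) * (r + c * a)) := by
      rw [hG]; push_cast
      linear_combination (4 * (β : ℂ) ^ 2 * l ^ 2 * P ^ 2) * I_sq - 4 * l ^ 2 * P ^ 2 * hβ' -
        4 * l ^ 4 * r * c4'
    rw [Erel, hQ, hK0, hKr]
    generalize G1 a b c u = g at hsq
    push_cast
    field_simp
    linear_combination (l : ℂ) ^ 8 * (a * b * c) ^ 6 * hsq

end Pool.Agent.MP_30dcea_gt

end MrgPart1

-- marker of a merged file
example : 731051 + 706345 = 731051 + 706345 := rfl
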