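import Mathlib.Algebra.Order.Archimedean.Real.Hom
import Mathlib.Analysis.InnerProductSpace.Calculus
import Mathlib.MeasureTheory.Integral.CurveIntegral.Poincare
import Pool.Agent.MP_30dcea_gt.Alg

/-!
A minimal immersion read in a chart: the isotropic vector `Φ`, the Beltrami coefficient and the
holomorphic primitive.
-/

open scoped Manifold ContDiff Topology NNReal
open Set Filter Metric Complex

namespace Pool.Agent.MP_30dcea_gt

lemma inner_E3 (u v : E3) : inner ℝ u v = u 0 * v 0 + u 1 * v 1 + u 2 * v 2 := by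
  simp [PiLp.inner_apply, Fin.sum_univ_three]; ring

lemma norm_sq_E3 (u : E3) : ‖u‖ ^ 2 = u 0 ^ 2 + u 1 ^ 2 + u 2 ^ 2 := by
  rw [← real_inner_self_eq_norm_sq, inner_E3]; ring

/-- The derivative within the half-plane. -/
noncomputable abbrev dd {G : Type*} [NormedAddCommGroup G] [NormedSpace ℝ G] (f : E2 → G)
    (y : E2) : E2 →L[ℝ] G := fderivWithin ℝ f HH y

/-- Smoothness within the half-plane. -/
abbrev Sm {G : Type*} [NormedAddCommGroup G] [NormedSpace ℝ G] (f : E2 → G) (y : E2) : Prop :=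
  ContDiffWithinAt ℝ ∞ f HH y

section

variable {G : Type*} [NormedAddCommGroup G] [NormedSpace ℝ G] {f : E2 → G} {y : E2}

lemma Sm.has (h : Sm f y) : HasFDerivWithinAt f (dd f y) HH y :=
  (h.differentiableWithinAt (by simp)).hasFDerivWithinAt

lemma Sm.dd (h : Sm f y) (hy : y ∈ HH) : Sm (dd f) y :=
  h.fderivWithin_right uniqueDiffOn_HH (by simp) hy

lemma Sm.ddv (h : Sm f y) (hy : y ∈ HH) (v : E2) : Sm (fun z => Pool.Agent.MP_30dcea_gt.dd f z v) y :=
  (h.dd hy).clm_apply contDiffWithinAt_const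

lemma dd_eq {f' : E2 →L[ℝ] G} (h : HasFDerivWithinAt f f' HH y) (hy : y ∈ HH) : dd f y = f' :=
  h.fderivWithin (uniqueDiffOn_HH y hy)

lemma dd_expand (A : E2 →L[ℝ] G) (v : E2) : A v = v 0 • A (ee 0) + v 1 • A (ee 1) := by
  conv_lhs => rw [E2_ext v]
  simp only [map_add, map_smul]

lemma Sm.symm [CompleteSpace G] (h : Sm f y) (hy : y ∈ HH) :
    Pool.Agent.MP_30dcea_gt.dd (fun z => Pool.Agent.MP_30dcea_gt.dd f z (ee 0)) y (ee 1) =
      Pool.Agent.MP_30dcea_gt.dd (fun z => Pool.Agent.MP_30dcea_gt.dd f z (ee 1)) y (ee 0) := by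
  have hcl : y ∈ closure (interior HH) := by
    rw [← range_I2] at hy ⊢
    exact I2.range_subset_closure_interior hy
  have hs := h.isSymmSndFDerivWithinAt
    (by rw [minSmoothness_of_isRCLikeNormedField]; exact ENat.LEInfty.out) uniqueDiffOn_HH hcl hy
  have h1 := (h.dd hy).has
  have e : ∀ v : E2, Pool.Agent.MP_30dcea_gt.dd (fun z => Pool.Agent.MP_30dcea_gt.dd f z v) y =
      (ContinuousLinearMap.apply ℝ G v).comp
        (Pool.Agent.MP_30dcea_gt.dd (Pool.Agent.MP_30dcea_gt.dd f) y) := fun v =>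
    dd_eq ((ContinuousLinearMap.apply ℝ G v).hasFDerivAt.comp_hasFDerivWithinAt y h1) hy
  rw [e, e]
  exact hs.eq (ee 1) (ee 0)

end

lemma Sm.cdiv {f g : E2 → ℂ} {y : E2} (hf : Sm f y) (hg : Sm g y) (h : g y ≠ 0) :
    Sm (fun z => f z / g z) y := by
  simp only [div_eq_mul_inv]
  exact hf.mul (hg.inv h)

lemma Sm.ofReal {f : E2 → ℝ} {y : E2} (hf : Sm f y) : Sm (fun z => (f z : ℂ)) y :=
  hf.continuousLinearMap_comp ofRealCLM

/-- The inclusion of real vectors in complex vectors. -/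
noncomputable def ofR : E3 →L[ℝ] C3 :=
  ContinuousLinearMap.pi fun k => Complex.ofRealCLM.comp (EuclideanSpace.proj k)

@[simp] lemma ofR_apply (u : E3) (k : Fin 3) : ofR u k = u k := by simp [ofR]

/-- The complex vector `u + i v`. -/
noncomputable def cx (u v : E3) : C3 := ofR u + I • ofR v

@[simp] lemma cx_apply (u v : E3) (k : Fin 3) : cx u v k = u k + I * v k := by simp [cx]

lemma has_cx {f g : E2 → E3} {f' g' : E2 →L[ℝ] E3} {y : E2} (hf : HasFDerivWithinAt f f' HH y)
    (hg : HasFDerivWithinAt g g' HH y) :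
    HasFDerivWithinAt (fun z => cx (f z) (g z)) (ofR.comp f' + I • ofR.comp g') HH y :=
  (ofR.hasFDerivAt.comp_hasFDerivWithinAt y hf).add
    ((ofR.hasFDerivAt.comp_hasFDerivWithinAt y hg).const_smul I)

variable (X : E2 → E3)

/-- The coordinate tangent vectors. -/
noncomputable def da (i : Fin 2) (y : E2) : E3 := dd X y (ee i)

/-- First fundamental form. -/
noncomputable def gE (y : E2) : ℝ := inner ℝ (da X 0 y) (da X 0 y)
/-- First fundamental form. -/
noncomputable def gF (y : E2) : ℝ := inner ℝ (da X 0 y) (da X 1 y)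
/-- First fundamental form. -/
noncomputable def gG (y : E2) : ℝ := inner ℝ (da X 1 y) (da X 1 y)
/-- Area element. -/
noncomputable def gW (y : E2) : ℝ := Real.sqrt (gE X y * gG X y - gF X y ^ 2)
/-- The rotated tangent vector along `e₁`. -/
noncomputable def bb (y : E2) : E3 := (gW X y)⁻¹ • (gG X y • da X 0 y - gF X y • da X 1 y)
/-- The rotated tangent vector along `e₀`. -/
noncomputable def bz (y : E2) : E3 := (gW X y)⁻¹ • (gF X y • da X 0 y - gE X y • da X 1 y)
/-- The isotropic vector. -/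
noncomputable def Phi (y : E2) : C3 := cx (da X 1 y) (bb X y)
/-- The Beltrami coefficient. -/
noncomputable def mu (y : E2) : ℂ := ((gF X y : ℂ) - I * gW X y) / gG X y
/-- The derivative of the isotropic vector along `e₁`. -/
noncomputable def DPhi (y : E2) : C3 := dd (Phi X) y (ee 1)
/-- The quartic differential. -/
noncomputable def KK (y : E2) : ℂ := dt (DPhi X y) (DPhi X y)

/-- `X` is a smooth immersion at the point `y`. -/
structure Pre (y : E2) : Prop where
  mem : y ∈ HH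
  smooth : Sm X y
  inj : ∀ v, dd X y v = 0 → v = 0

/-- `X` is a smooth minimal immersion with free boundary on the sphere, at the point `y`. -/
structure Good (y : E2) : Prop extends Pre X y where
  harm : 0 < y 0 → dd (bz X) y (ee 1) = dd (bb X) y (ee 0)
  norm : y 0 = 0 → ‖X y‖ = 1
  tang : y 0 = 0 → ∃ v, dd X y v = X y

variable {X}

namespace Pre

variable {y : E2}

lemma da_ne (h : Pre X y) : da X 1 y ≠ 0 := fun h0 => by
  have := congrArg (fun v : E2 => v 1) (h.inj _ h0)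
  simp at this

lemma gG_pos (h : Pre X y) : 0 < gG X y := real_inner_self_pos.2 h.da_ne

lemma det_pos (h : Pre X y) : 0 < gE X y * gG X y - gF X y ^ 2 := by
  have hG := h.gG_pos
  have hne : gG X y • da X 0 y - gF X y • da X 1 y ≠ 0 := by
    intro h0
    have : dd X y (gG X y • ee 0 - gF X y • ee 1) = 0 := by
      rw [map_sub, map_smul, map_smul]; exact h0
    have := congrArg (fun v : E2 => v 0) (h.inj _ this)
    simp at this
    exact hG.ne' this
  have h1 := real_inner_self_pos.2 hne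
  have e : inner ℝ (gG X y • da X 0 y - gF X y • da X 1 y) (gG X y • da X 0 y - gF X y • da X 1 y)
      = gG X y * (gE X y * gG X y - gF X y ^ 2) := by
    simp only [inner_sub_left, inner_sub_right, real_inner_smul_left, real_inner_smul_right]
    rw [real_inner_comm (da X 0 y) (da X 1 y)]
    simp only [gE, gF, gG]; ring
  rw [e] at h1
  exact (mul_pos_iff_of_pos_left hG).1 h1

lemma gW_pos (h : Pre X y) : 0 < gW X y := Real.sqrt_pos.2 h.det_pos

lemma gW_sq (h : Pre X y) : gW X y ^ 2 = gE X y * gG X y - gF X y ^ 2 :=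
  Real.sq_sqrt h.det_pos.le

lemma sm_da (h : Pre X y) (i : Fin 2) : Sm (da X i) y := h.smooth.ddv h.mem _
lemma sm_gE (h : Pre X y) : Sm (gE X) y := (h.sm_da 0).inner ℝ (h.sm_da 0)
lemma sm_gF (h : Pre X y) : Sm (gF X) y := (h.sm_da 0).inner ℝ (h.sm_da 1)
lemma sm_gG (h : Pre X y) : Sm (gG X) y := (h.sm_da 1).inner ℝ (h.sm_da 1)
lemma sm_gW (h : Pre X y) : Sm (gW X) y :=
  ((h.sm_gE.mul h.sm_gG).sub (h.sm_gF.pow 2)).sqrt h.det_pos.ne'
lemma sm_bb (h : Pre X y) : Sm (bb X) y :=
  (h.sm_gW.inv h.gW_pos.ne').smul ((h.sm_gG.smul (h.sm_da 0)).sub (h.sm_gF.smul (h.sm_da 1)))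
lemma sm_bz (h : Pre X y) : Sm (bz X) y :=
  (h.sm_gW.inv h.gW_pos.ne').smul ((h.sm_gF.smul (h.sm_da 0)).sub (h.sm_gE.smul (h.sm_da 1)))
lemma sm_Phi (h : Pre X y) : Sm (Phi X) y :=
  ((h.sm_da 1).continuousLinearMap_comp ofR).add
    ((h.sm_bb.continuousLinearMap_comp ofR).const_smul I)
lemma sm_Phik (h : Pre X y) (k : Fin 3) : Sm (fun z => Phi X z k) y :=
  contDiffWithinAt_pi.1 h.sm_Phi k
lemma sm_mu (h : Pre X y) : Sm (mu X) y :=
  Sm.cdiv (h.sm_gF.ofReal.sub (contDiffWithinAt_const.mul h.sm_gW.ofReal)) h.sm_gG.ofReal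
    (by simpa using h.gG_pos.ne')
lemma sm_DPhi (h : Pre X y) : Sm (DPhi X) y := h.sm_Phi.ddv h.mem _
lemma sm_DPhik (h : Pre X y) (k : Fin 3) : Sm (fun z => DPhi X z k) y :=
  contDiffWithinAt_pi.1 h.sm_DPhi k
lemma sm_KK (h : Pre X y) : Sm (KK X) y :=
  (((h.sm_DPhik 0).mul (h.sm_DPhik 0)).add ((h.sm_DPhik 1).mul (h.sm_DPhik 1))).add
    ((h.sm_DPhik 2).mul (h.sm_DPhik 2))

lemma mu_im (h : Pre X y) : (mu X y).im ≠ 0 := by
  have h1 := h.gW_pos
  have h2 := h.gG_pos
  simp only [mu, div_ofReal_im]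
  simp [h1.ne', h2.ne']

lemma inner_da_bb (_h : Pre X y) : inner ℝ (da X 1 y) (bb X y) = 0 := by
  simp only [bb, inner_sub_right, real_inner_smul_right]
  rw [real_inner_comm (da X 0 y) (da X 1 y)]
  simp only [gF, gG]; ring

lemma inner_bb_bb (h : Pre X y) : inner ℝ (bb X y) (bb X y) = gG X y := by
  have h1 := h.gW_pos
  have h2 := h.gW_sq
  simp only [bb, inner_sub_left, inner_sub_right, real_inner_smul_left, real_inner_smul_right]
  rw [real_inner_comm (da X 0 y) (da X 1 y)]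
  simp only [gE, gF, gG] at h2 ⊢
  field_simp
  rw [h2]; ring

lemma isotropic (h : Pre X y) : dt (Phi X y) (Phi X y) = 0 := by
  have h1 := h.inner_da_bb
  have h2 := h.inner_bb_bb
  simp only [gG, inner_E3] at h1 h2
  simp only [dt, Phi, cx_apply]
  apply Complex.ext
  · simp; linarith
  · simp; linarith

lemma mu_smul (h : Pre X y) : cx (da X 0 y) (bz X y) = mu X y • Phi X y := by
  have h1 := h.gW_pos
  have h2 := h.gW_sq
  have h3 := h.gG_pos
  funext k
  simp only [Phi, Pi.smul_apply, cx_apply, smul_eq_mul, mu, bb, bz, PiLp.smul_apply,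
    PiLp.sub_apply]
  apply Complex.ext
  · simp [div_ofReal_re, div_ofReal_im]; field_simp; ring
  · simp [div_ofReal_re, div_ofReal_im]; field_simp; linear_combination (da X 1 y k) * h2

lemma th_smul (h : Pre X y) (v : E2) :
    th (mu X y) v • Phi X y = cx (dd X y v) (v 0 • bz X y + v 1 • bb X y) := by
  rw [th_apply, add_smul, mul_smul, ← h.mu_smul, dd_expand (dd X y) v]
  funext k
  simp [Phi, da]; ring

lemma re_th (h : Pre X y) (v : E2) (k : Fin 3) :
    (th (mu X y) v * Phi X y k).re = dd X y v k := by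
  have := congrFun (h.th_smul v) k
  simp only [Pi.smul_apply, smul_eq_mul] at this
  rw [this]; simp

lemma exists_ne (h : Pre X y) : ∃ k, Phi X y k ≠ 0 := by
  by_contra hc
  push Not at hc
  apply h.da_ne
  ext k
  simpa [Phi] using congrArg Complex.re (hc k)

end Pre

/-- `X` is good near `p`. -/
def Loc (X : E2 → E3) (p : E2) : Prop := p ∈ HH ∧ ∀ᶠ y in 𝓝[HH] p, Good X y

namespace Loc

variable {p : E2}

lemma good (h : Loc X p) : Good X p := h.2.self_of_nhdsWithin h.1

lemma ev (h : Loc X p) : ∀ᶠ y in 𝓝[HH] p, Loc X y :=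
  (eventually_eventually_nhdsWithin.2 h.2).mp
    (eventually_mem_nhdsWithin.mono fun _ hy h' => ⟨hy, h'⟩)

lemma harm (h : Loc X p) : dd (bz X) p (ee 1) = dd (bb X) p (ee 0) :=
  eq_of_interior (f := fun y => dd (bz X) y (ee 1)) (g := fun y => dd (bb X) y (ee 0)) h.1
    (h.good.sm_bz.ddv h.1 _).continuousWithinAt (h.good.sm_bb.ddv h.1 _).continuousWithinAt
    (h.2.mono fun _ hy => hy.harm)

/-- The Cauchy-Riemann equation for the isotropic vector. -/
lemma dPhi (h : Loc X p) (v : E2) : dd (Phi X) p v =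
    th (mu X p) v • DPhi X p + ((v 0 : ℂ) * dd (mu X) p (ee 1)) • Phi X p := by
  have g := h.good
  have h1 : dd (Phi X) p = _ := dd_eq (has_cx (g.sm_da 1).has g.sm_bb.has) h.1
  have h2 : dd (fun z => cx (da X 0 z) (bz X z)) p = _ :=
    dd_eq (has_cx (g.sm_da 0).has g.sm_bz.has) h.1
  have h3 : dd (fun z => mu X z • Phi X z) p = _ := dd_eq (g.sm_mu.has.smul g.sm_Phi.has) h.1
  have h4 : dd (fun z => cx (da X 0 z) (bz X z)) p = dd (fun z => mu X z • Phi X z) p :=
    Filter.EventuallyEq.fderivWithin_eq (h.2.mono fun _ hy => hy.mu_smul) g.mu_smul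
  have h5 : dd (Phi X) p (ee 0) = dd (fun z => cx (da X 0 z) (bz X z)) p (ee 1) := by
    have s := g.smooth.symm h.1
    rw [h1, h2]
    simp only [add_apply, ContinuousLinearMap.comp_apply,
      smul_apply]
    rw [h.harm]
    congr 2
    exact s.symm
  rw [dd_expand (dd (Phi X) p) v, h5, h4, h3]
  funext k
  simp [DPhi]; ring

lemma dt_DPhi (h : Loc X p) : dt (Phi X p) (DPhi X p) = 0 := by
  have g := h.good
  have hk : ∀ k, HasFDerivWithinAt (fun z => Phi X z k)
      ((ContinuousLinearMap.proj k).comp (dd (Phi X) p)) HH p := fun k =>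
    hasFDerivWithinAt_pi'.1 g.sm_Phi.has k
  have h1 := dd_eq ((((hk 0).mul (hk 0)).add ((hk 1).mul (hk 1))).add ((hk 2).mul (hk 2))) h.1
  have h2 : dd (fun z => dt (Phi X z) (Phi X z)) p = dd (fun _ => (0 : ℂ)) p :=
    Filter.EventuallyEq.fderivWithin_eq (h.2.mono fun _ hy => hy.isotropic) g.isotropic
  have h3 : dd (fun z => dt (Phi X z) (Phi X z)) p = _ := h1
  rw [h3] at h2
  have := congrArg (fun A : E2 →L[ℝ] ℂ => A (ee 1)) h2
  simp [dd] at this
  simp only [dt, DPhi]
  linear_combination this / 2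

/-- The holomorphic primitive. -/
lemma exists_prim (h : Loc X p) : ∃ W : E2 → C3, (∀ y k, (W y k).re = X y k) ∧
    ∀ᶠ y in 𝓝[HH] p, HasFDerivWithinAt W ((th (mu X y)).smulRight (Phi X y)) HH y := by
  obtain ⟨r, hr, hb⟩ := Metric.mem_nhdsWithin_iff.1 h.ev
  let P : Fin 2 → E3 →L[ℝ] E2 →L[ℝ] E3 := fun i =>
    ContinuousLinearMap.smulRightL ℝ E2 E3 (EuclideanSpace.proj i)
  have hconv : Convex ℝ (ball p r ∩ HH) := (convex_ball p r).inter convex_HH
  obtain ⟨Y, hY⟩ : ∃ Y : E2 → E3, ∀ y ∈ ball p r ∩ HH,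
      HasFDerivWithinAt Y (P 0 (bz X y) + P 1 (bb X y)) (ball p r ∩ HH) y :=
    hconv.exists_forall_hasFDerivWithinAt_of_hasFDerivWithinAt_symmetric
    (dω := fun y => (P 0).comp (dd (bz X) y) + (P 1).comp (dd (bb X) y))
    (fun y hy => (((P 0).hasFDerivAt.comp_hasFDerivWithinAt y (hb hy).good.sm_bz.has).add
      ((P 1).hasFDerivAt.comp_hasFDerivWithinAt y (hb hy).good.sm_bb.has)).mono
        inter_subset_right)
    (fun y hy u _ v _ => by
      have := (hb hy).harm
      simp only [P, add_apply, ContinuousLinearMap.comp_apply,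
        ContinuousLinearMap.smulRightL_apply_apply, ContinuousLinearMap.smulRight_apply]
      rw [dd_expand (dd (bz X) y) u, dd_expand (dd (bz X) y) v, dd_expand (dd (bb X) y) u,
        dd_expand (dd (bb X) y) v, this]
      simp only [PiLp.proj_apply]
      module)
  refine ⟨fun y => cx (X y) (Y y), fun y k => by simp, ?_⟩
  have hb' : ∀ᶠ y in 𝓝[HH] p, y ∈ ball p r := nhdsWithin_le_nhds (ball_mem_nhds p hr)
  filter_upwards [hb', self_mem_nhdsWithin] with y hy hyH
  have g := (hb ⟨hy, hyH⟩).good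
  have h1 : HasFDerivWithinAt Y _ HH y := (hY y ⟨hy, hyH⟩).mono_of_mem_nhdsWithin
    (inter_mem (nhdsWithin_le_nhds (isOpen_ball.mem_nhds hy)) self_mem_nhdsWithin)
  convert has_cx g.smooth.has h1 using 1
  ext1 v
  rw [ContinuousLinearMap.smulRight_apply, g.th_smul]
  simp [cx, P]

end Loc

end Pool.Agent.MP_30dcea_gt
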