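import Mathlib.RingTheory.Flat.TorsionFree
import Mathlib.RingTheory.Finiteness.ModuleFinitePresentation
import Mathlib.Analysis.Analytic.Order
import Mathlib.Analysis.Complex.OpenMapping
import Mathlib.Combinatorics.SimpleGraph.Basic
import Mathlib.RingTheory.PiTensorProduct
import Mathlib.RingTheory.SimpleRing.Principal
import Mathlib.Order.CompletePartialOrder
import Mathlib.RingTheory.TotallySplit
import Mathlib.RingTheory.Etale.Weakly
import Pool.Agent.MP_30dcea_gt.Alg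
import Pool.Agent.MP_30dcea_gt.Chart

-- ======== part 0: formerly Pool.Agent.MP_30dcea_gt.Zero
section MrgPart0

/-!
An isotropic holomorphic curve satisfying the weight twelve relation cannot have an isolated zero
of the quadratic form.
-/

open scoped Topology
open Set Filter Complex

namespace Pool.Agent.MP_30dcea_gt

lemma order_aux {q K A g B₁ B₂ : ℂ → ℂ} {t₀ : ℂ} (hq : AnalyticAt ℂ q t₀) (hK : AnalyticAt ℂ K t₀)
    (hA : AnalyticAt ℂ A t₀) (hg : AnalyticAt ℂ g t₀) (h₁ : AnalyticAt ℂ B₁ t₀)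
    (h₂ : AnalyticAt ℂ B₂ t₀) (hq0 : q t₀ = 0) (hg0 : g t₀ ≠ 0)
    (e1 : K * A =ᶠ[𝓝 t₀] deriv q ^ 2)
    (e2 : g * K ^ 2 =ᶠ[𝓝 t₀] q ^ 3 * (B₁ * K + B₂ * q ^ 2)) : ∀ᶠ t in 𝓝 t₀, q t = 0 := by
  by_contra hne
  rw [← analyticOrderAt_eq_top] at hne
  have hn0 : analyticOrderAt q t₀ ≠ 0 := hq.analyticOrderAt_ne_zero.2 hq0
  obtain ⟨n, hn⟩ := ENat.ne_top_iff_exists.1 hne
  obtain ⟨m, rfl⟩ : ∃ m, n = m + 1 := by
    refine Nat.exists_eq_succ_of_ne_zero ?_
    rintro rfl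
    exact hn0 (by simpa using hn.symm)
  have hd : analyticOrderAt (deriv q) t₀ = m :=
    analyticOrderAt_deriv_of_pos hq (by simpa using hn.symm)
  have o1 := analyticOrderAt_congr e1
  rw [analyticOrderAt_mul hK hA, analyticOrderAt_pow hq.deriv, hd] at o1
  have o2 := analyticOrderAt_congr e2
  rw [analyticOrderAt_mul hg (hK.pow 2), analyticOrderAt_pow hK, hg.analyticOrderAt_eq_zero.2 hg0,
    analyticOrderAt_mul (hq.pow 3) ((h₁.mul hK).add (h₂.mul (hq.pow 2))),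
    analyticOrderAt_pow hq, ← hn] at o2
  have o3 := le_analyticOrderAt_add (f := B₁ * K) (g := B₂ * q ^ 2) (z₀ := t₀)
  rw [analyticOrderAt_mul h₁ hK, analyticOrderAt_mul h₂ (hq.pow 2), analyticOrderAt_pow hq,
    ← hn] at o3
  have hKt : analyticOrderAt K t₀ ≠ ⊤ := by
    intro h
    rw [h, top_add, two_nsmul] at o1
    exact ENat.natCast_ne_top (m + m) (by exact_mod_cast o1.symm)
  obtain ⟨j, hj⟩ := ENat.ne_top_iff_exists.1 hKt
  rw [← hj] at o1 o2 o3
  have b1 : j ≤ 2 * m := by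
    have : (j : ℕ∞) ≤ 2 • (m : ℕ∞) := o1 ▸ le_self_add
    rw [two_nsmul] at this
    norm_cast at this
    omega
  have b2 : (j : ℕ∞) ≤ analyticOrderAt (B₁ * K + B₂ * q ^ 2) t₀ := by
    refine le_trans (le_min le_add_self (le_trans ?_ le_add_self)) o3
    rw [two_nsmul]
    norm_cast
    omega
  have b3 : 3 • ((m + 1 : ℕ) : ℕ∞) + j ≤ 2 • (j : ℕ∞) := by
    rw [zero_add] at o2
    rw [o2]
    gcongr
  simp only [nsmul_eq_mul] at b3
  norm_cast at b3
  omega

lemma zero_lemma {a b c : ℝ} (hab : a ≠ b) (hbc : b ≠ c) (hac : a ≠ c) (habc : a * b * c ≠ 0)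
    {Γ : ℂ → C3} {t₀ : ℂ} (hΓ : AnalyticAt ℂ Γ t₀) (k : Fin 3)
    (h : ∀ᶠ t in 𝓝 t₀, Γ t k = 1 ∧ dt (Γ t) (Γ t) = 0 ∧
      Erel a b c (Γ t) (dt (deriv Γ t) (deriv Γ t)) = 0)
    (h0 : Qf a b c (Γ t₀) = 0) : ∀ᶠ t in 𝓝 t₀, Qf a b c (Γ t) = 0 := by
  have hc : ∀ j, AnalyticAt ℂ (fun t => Γ t j) t₀ := fun j => analyticAt_pi_iff.1 hΓ j
  have hD : ∀ j, AnalyticAt ℂ (fun t => deriv Γ t j) t₀ := fun j => analyticAt_pi_iff.1 hΓ.deriv j
  have h0' := hc 0
  have h1' := hc 1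
  have h2' := hc 2
  have hD0 := hD 0
  have hD1 := hD 1
  have hD2 := hD 2
  have hq : AnalyticAt ℂ (fun t => Qf a b c (Γ t)) t₀ := by unfold Qf; fun_prop
  have hG : AnalyticAt ℂ (fun t => G1 a b c (Γ t)) t₀ := by unfold G1 Qf; fun_prop
  have hK : AnalyticAt ℂ (fun t => dt (deriv Γ t) (deriv Γ t)) t₀ := by unfold dt; fun_prop
  let Y : ℂ → C3 := fun t j => (![(a : ℂ), b, c] j) * Γ t j - if j = k then Qf a b c (Γ t) else 0
  have hY : ∀ j, AnalyticAt ℂ (fun t => Y t j) t₀ := by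
    intro j
    have := hc j
    by_cases hj : j = k <;> simp only [Y, hj, if_true, if_false] <;> fun_prop
  have hY0 := hY 0
  have hY1 := hY 1
  have hY2 := hY 2
  have hA : AnalyticAt ℂ (fun t => 4 * dt (Y t) (Y t)) t₀ := by unfold dt; fun_prop
  have hder : ∀ᶠ t in 𝓝 t₀, ∀ j, HasDerivAt (fun s => Γ s j) (deriv Γ t j) t :=
    hΓ.eventually_analyticAt.mono fun t ht j => hasDerivAt_pi.1 ht.differentiableAt.hasDerivAt j
  refine order_aux (B₁ := fun t => 2 * (a * b * c : ℝ) * G1 a b c (Γ t) *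
      (a * b + b * c + c * a : ℝ) + 4 * ((a * b * c : ℝ) : ℂ) ^ 2 * Qf a b c (Γ t))
    (B₂ := fun t => 4 * (a * b * c : ℝ) * G1 a b c (Γ t) -
      (((a * b + b * c + c * a) ^ 2 - 4 * (a + b + c) * (a * b * c) : ℝ) : ℂ) * Qf a b c (Γ t))
    (g := fun t => ((a * b * c : ℝ) : ℂ) ^ 2 * G1 a b c (Γ t) ^ 2)
    hq hK hA (by fun_prop) (by fun_prop) (by fun_prop) h0 ?_ ?_ ?_
  · have h1 := h.self_of_nhds
    exact mul_ne_zero (pow_ne_zero _ (by exact_mod_cast habc))
      (pow_ne_zero _ (G1_ne_zero hab hbc hac k h1.1 h1.2.1 h0))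
  · filter_upwards [h.eventually_nhds, hder] with t ht hd
    have h1 := ht.self_of_nhds
    have d1 : deriv Γ t k = 0 := (hd k).unique
      ((hasDerivAt_const t (1 : ℂ)).congr_of_eventuallyEq (ht.mono fun s hs => hs.1))
    have d2 : dt (Γ t) (deriv Γ t) = 0 := by
      have e := ((((hd 0).mul (hd 0)).add ((hd 1).mul (hd 1))).add ((hd 2).mul (hd 2))).unique
        ((hasDerivAt_const t (0 : ℂ)).congr_of_eventuallyEq (ht.mono fun s hs => hs.2.1))
      simp only [dt]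
      linear_combination e / 2
    have d3 : deriv (fun s => Qf a b c (Γ s)) t =
        2 * (a * Γ t 0 * deriv Γ t 0 + b * Γ t 1 * deriv Γ t 1 + c * Γ t 2 * deriv Γ t 2) := by
      have e := (((((hd 0).pow 2).const_mul (a : ℂ)).add (((hd 1).pow 2).const_mul (b : ℂ))).add
        (((hd 2).pow 2).const_mul (c : ℂ))).deriv
      refine Eq.trans ?_ (e.trans ?_)
      · rfl
      · simp; ring
    have d4 : dt (Γ t) (Y t) = 0 := by
      have := h1.1
      fin_cases k <;> simp [dt, Y, Qf] at this ⊢ <;> rw [this] <;> ring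
    have d5 : 2 * dt (deriv Γ t) (Y t) = deriv (fun s => Qf a b c (Γ s)) t := by
      rw [d3]
      fin_cases k <;> simp [dt, Y] at d1 ⊢ <;> rw [d1] <;> ring
    have := rank_one k h1.1 h1.2.1 d2 d4
    simp only [Pi.mul_apply, Pi.pow_apply]
    rw [← d5]
    linear_combination 4 * this
  · filter_upwards [h] with t ht
    have := ht.2.2
    simp only [Erel] at this
    simp only [Pi.mul_apply, Pi.pow_apply, Pi.add_apply]
    linear_combination this

end Pool.Agent.MP_30dcea_gt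

end MrgPart0

-- ======== part 1: formerly Pool.Agent.MP_30dcea_gt.Hol
section MrgPart1

/-!
Holomorphic coordinates adapted to a minimal immersion, and invariance of the jet `(Φ, K)` under
a change of chart.
-/

open scoped Manifold ContDiff Topology NNReal
open Set Filter Metric Complex

namespace Pool.Agent.MP_30dcea_gt

variable {X : E2 → E3} {p : E2}

/-- A holomorphic primitive `W` of the isotropic form, whose `k`-th component is a coordinate. -/
structure HPack (X : E2 → E3) (p : E2) (W : E2 → C3) (k : Fin 3)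
    (e : OpenPartialHomeomorph E2 ℂ) (r : ℝ) : Prop where
  hc : IsHC e (fun y => W y k) p r
  re : ∀ y j, (W y j).re = X y j
  loc : ∀ y ∈ ball p r, y ∈ HH → Loc X y
  der : ∀ y ∈ ball p r, y ∈ HH → HasFDerivWithinAt W ((th (mu X y)).smulRight (Phi X y)) HH y
  ne : ∀ y ∈ ball p r, y ∈ HH → Phi X y k ≠ 0

lemma has_comp {W : E2 → C3} {A : E2 →L[ℝ] ℂ} {u : C3} {y : E2}
    (h : HasFDerivWithinAt W (A.smulRight u) HH y) (j : Fin 3) :
    HasFDerivWithinAt (fun z => W z j) (A.smulRight (u j)) HH y :=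
  (hasFDerivWithinAt_pi'.1 h j).congr_fderiv (by ext1 v; simp)

lemma Loc.exists_pack (h : Loc X p) (k : Fin 3) (hk : Phi X p k ≠ 0) {U : Set E2}
    (hU : U ∈ 𝓝[HH] p) : ∃ W e r, HPack X p W k e r ∧ ball p r ∩ HH ⊆ U := by
  obtain ⟨W, hre, hW⟩ := h.exists_prim
  have hne : ∀ᶠ y in 𝓝[HH] p, Phi X y k ≠ 0 :=
    (h.good.sm_Phik k).continuousWithinAt.eventually_ne hk
  have hcont : ContinuousWithinAt (fun y => (th (mu X y)).smulRight (Phi X y k)) HH p := by
    have e : (fun y => (th (mu X y)).smulRight (Phi X y k)) = fun y => Phi X y k • th (mu X y) := by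
      funext y; ext1 v; simp [mul_comm]
    rw [e]
    exact (h.good.sm_Phik k).continuousWithinAt.smul
      (continuous_th.continuousAt.comp_continuousWithinAt h.good.sm_mu.continuousWithinAt)
  obtain ⟨e, r, hc, hsub⟩ := exists_HC h.1 (hW.mono fun y hy => has_comp hy k) hcont
    (fun v hv => th_eq_zero h.good.mu_im (by simpa [hk, -th_apply] using hv))
    (inter_mem hU ((h.ev.and hW).and hne))
  exact ⟨W, e, r, ⟨hc, hre, fun y hy hH => (hsub ⟨hy, hH⟩).2.1.1,
    fun y hy hH => (hsub ⟨hy, hH⟩).2.1.2, fun y hy hH => (hsub ⟨hy, hH⟩).2.2⟩,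
    fun y hy => (hsub hy).1⟩

lemma Loc.exists_pack' (h : Loc X p) {U : Set E2} (hU : U ∈ 𝓝[HH] p) :
    ∃ W k e r, HPack X p W k e r ∧ ball p r ∩ HH ⊆ U := by
  obtain ⟨k, hk⟩ := h.good.exists_ne
  obtain ⟨W, e, r, h'⟩ := h.exists_pack k hk hU
  exact ⟨W, k, e, r, h'⟩

namespace HPack

variable {W : E2 → C3} {k : Fin 3} {e : OpenPartialHomeomorph E2 ℂ} {r : ℝ} {y : E2}

lemma ev_ball (h : HPack X p W k e r) : ∀ᶠ y in 𝓝[HH] p, y ∈ ball p r ∧ y ∈ HH :=
  Eventually.and (nhdsWithin_le_nhds (ball_mem_nhds p h.hc.pos)) self_mem_nhdsWithin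

lemma hol {V : Type*} [NormedAddCommGroup V] [NormedSpace ℂ V] (h : HPack X p W k e r)
    (hy : y ∈ ball p r) (h0 : 0 < y 0) {F : E2 → V} {c : V}
    (hF : HasFDerivWithinAt F ((th (mu X y)).smulRight c) HH y) :
    HasDerivAt (F ∘ e.symm) ((Phi X y k)⁻¹ • c) (e y) := by
  refine h.hc.hasDerivAt_int hy h0 (has_comp (h.der y hy h0.le) k) ?_
  convert hF using 1
  ext1 v
  simp only [ContinuousLinearMap.smulRight_apply, smul_smul, smul_eq_mul]
  rw [mul_assoc, mul_inv_cancel₀ (h.ne y hy h0.le), mul_one]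

lemma derW (h : HPack X p W k e r) (hy : y ∈ ball p r) (h0 : 0 < y 0) :
    HasDerivAt (W ∘ e.symm) ((Phi X y k)⁻¹ • Phi X y) (e y) :=
  h.hol hy h0 (h.der y hy h0.le)

lemma anW (h : HPack X p W k e r) (hy : y ∈ ball p r) (h0 : 0 < y 0) :
    AnalyticAt ℂ (W ∘ e.symm) (e y) :=
  h.hc.analyticAt (fun _ hz hz0 => (h.derW hz hz0).differentiableAt) hy h0

lemma Phi_eq (h : HPack X p W k e r) (hy : y ∈ ball p r) (h0 : 0 < y 0) :
    Phi X y = Phi X y k • deriv (W ∘ e.symm) (e y) := by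
  rw [(h.derW hy h0).deriv, smul_smul, mul_inv_cancel₀ (h.ne y hy h0.le), one_smul]

lemma Gam_k (h : HPack X p W k e r) (hy : y ∈ ball p r) (h0 : 0 < y 0) :
    deriv (W ∘ e.symm) (e y) k = 1 := by
  rw [(h.derW hy h0).deriv]
  simp [h.ne y hy h0.le]

lemma Gam_iso (h : HPack X p W k e r) (hy : y ∈ ball p r) (h0 : 0 < y 0) :
    dt (deriv (W ∘ e.symm) (e y)) (deriv (W ∘ e.symm) (e y)) = 0 := by
  have := (h.loc y hy h0.le).good.isotropic
  rw [(h.derW hy h0).deriv]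
  simp only [dt, Pi.smul_apply, smul_eq_mul] at this ⊢
  linear_combination (Phi X y k)⁻¹ ^ 2 * this

lemma ev_int (hy : y ∈ ball p r) (h0 : 0 < y 0) : ∀ᶠ z in 𝓝 y, z ∈ ball p r ∧ 0 < z 0 :=
  Eventually.and (isOpen_ball.mem_nhds hy) (isOpen_pos.mem_nhds h0)

lemma KK_eq (h : HPack X p W k e r) (hy : y ∈ ball p r) (h0 : 0 < y 0) :
    KK X y = Phi X y k ^ 4 *
      dt (deriv (deriv (W ∘ e.symm)) (e y)) (deriv (deriv (W ∘ e.symm)) (e y)) := by
  have l := h.loc y hy h0.le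
  have hne := h.ne y hy h0.le
  have h1 : Phi X =ᶠ[𝓝 y] fun z => Phi X z k • deriv (W ∘ e.symm) (e z) :=
    (ev_int hy h0).mono fun z hz => h.Phi_eq hz.1 hz.2
  have h2 := h.hc.hasFDerivAt_e h0 (has_comp (h.der y hy h0.le) k)
  have h3 := ((h.anW hy h0).deriv.differentiableAt.hasDerivAt.hasFDerivAt.restrictScalars
    ℝ).comp y h2
  have h4 := (((l.good.sm_Phik k).has.hasFDerivAt (HH_mem_nhds h0)).smul h3).congr_of_eventuallyEq h1
  have h5 : DPhi X y = Phi X y k ^ 2 • deriv (deriv (W ∘ e.symm)) (e y) +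
      dd (fun z => Phi X z k) y (ee 1) • deriv (W ∘ e.symm) (e y) := by
    rw [DPhi, dd_eq h4.hasFDerivWithinAt l.1]
    simp [smul_smul, pow_two]
  have h6 := l.dt_DPhi
  have h7 := h.Gam_iso hy h0
  have h10 := h.Phi_eq hy h0
  rw [KK, h5]
  rw [h5] at h6
  generalize Phi X y k = φ at *
  rw [h10] at h6
  generalize deriv (deriv (W ∘ e.symm)) (e y) = D at *
  generalize deriv (W ∘ e.symm) (e y) = G at *
  generalize dd (fun z => Phi X z k) y (ee 1) = s at *
  simp only [dt, Pi.smul_apply, Pi.add_apply, smul_eq_mul] at *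
  have h8 : φ ^ 3 * (G 0 * D 0 + G 1 * D 1 + G 2 * D 2) = 0 := by
    linear_combination h6 - φ * s * h7
  have h9 := (mul_eq_zero.1 h8).resolve_left (pow_ne_zero _ hne)
  linear_combination 2 * φ ^ 2 * s * h9 + s ^ 2 * h7

lemma anX (h : HPack X p W k e r) (hy : y ∈ ball p r) (h0 : 0 < y 0) (j : Fin 3) :
    AnalyticAt ℝ (fun t => X (e.symm t) j) (e y) := by
  have h1 : AnalyticAt ℝ (fun t => (W ∘ e.symm) t j) (e y) :=
    (analyticAt_pi_iff.1 (h.anW hy h0) j).restrictScalars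
  have := (reCLM.analyticAt _).comp h1
  convert this using 1
  funext t
  simp [h.re]

/-- Boundary uniqueness for a smooth function, holomorphic inside, zero on the boundary. -/
lemma bu_smooth (h : HPack X p W k e r) (hp : p 0 = 0) {F : E2 → ℂ}
    (hs : ∀ y ∈ ball p r, y ∈ HH → Sm F y)
    (hi : ∀ y ∈ ball p r, 0 < y 0 → DifferentiableAt ℂ (F ∘ e.symm) (e y))
    (hb : ∀ y ∈ ball p r, y 0 = 0 → F y = 0) : ∀ y ∈ ball p r, y ∈ HH → F y = 0 := by
  have key := h.hc.boundary_unique hp hi fun y hy h0 => by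
    have hH : y ∈ HH := le_of_eq h0.symm
    have hball : ∀ᶠ z in 𝓝[HH] y, z ∈ ball p r := nhdsWithin_le_nhds (isOpen_ball.mem_nhds hy)
    have d1 : dd F y (ee 1) = 0 := tan_zero h0 (hs y hy hH).has (hball.mono fun z hz => hb z hz)
    have d0 : dd F y (ee 0) = mu X y * dd F y (ee 1) := by
      refine eq_of_interior (f := fun z => dd F z (ee 0)) (g := fun z => mu X z * dd F z (ee 1)) hH
        ((hs y hy hH).ddv hH _).continuousWithinAt
        ((h.loc y hy hH).good.sm_mu.mul ((hs y hy hH).ddv hH _)).continuousWithinAt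
        (hball.mono fun z hz hz0 => ?_)
      have h2 := h.hc.hasFDerivAt_e hz0 (has_comp (h.der z hz hz0.le) k)
      have h3 := (((hi z hz hz0).hasDerivAt.hasFDerivAt.restrictScalars ℝ).comp z
        h2).congr_of_eventuallyEq (f₁ := F) ((h.hc.ev_left_inv hz).mono fun s hs => by simp [hs])
      rw [dd_eq h3.hasFDerivWithinAt hz0.le]
      simp; ring
    have : dd F y = 0 := by
      ext1 v
      rw [dd_expand, d0, d1]; simp
    exact this ▸ (hs y hy hH).has
  intro y hy hH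
  rw [key y hy hH, hb p (mem_ball_self h.hc.pos) hp]

/-- Boundary uniqueness for a function with explicit holomorphic differential. -/
lemma bu_first (h : HPack X p W k e r) (hp : p 0 = 0) {F c : E2 → ℂ}
    (hF : ∀ y ∈ ball p r, y ∈ HH → HasFDerivWithinAt F ((th (mu X y)).smulRight (c y)) HH y)
    (hb : ∀ y ∈ ball p r, y 0 = 0 → c y = 0) : ∀ y ∈ ball p r, y ∈ HH → F y = F p :=
  h.hc.boundary_unique hp (fun y hy h0 => (h.hol hy h0 (hF y hy h0.le)).differentiableAt)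
    fun y hy h0 => (hF y hy (le_of_eq h0.symm)).congr_fderiv (by ext1 v; simp [hb y hy h0])

end HPack

lemma iso_imag {u : C3} (h : dt u u = 0) (hre : ∀ k, (u k).re = 0) : u = 0 := by
  have h1 := congrArg Complex.re h
  simp [dt, hre] at h1
  have e0 : (u 0).im = 0 := by nlinarith [sq_nonneg (u 0).im, sq_nonneg (u 1).im, sq_nonneg (u 2).im]
  have e1 : (u 1).im = 0 := by nlinarith [sq_nonneg (u 0).im, sq_nonneg (u 1).im, sq_nonneg (u 2).im]
  have e2 : (u 2).im = 0 := by nlinarith [sq_nonneg (u 0).im, sq_nonneg (u 1).im, sq_nonneg (u 2).im]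
  funext k
  fin_cases k <;> apply Complex.ext <;> simp [hre, e0, e1, e2]

lemma dichotomy {u u' : C3} (hu : dt u u = 0) (hu' : dt u' u' = 0) {s τ : ℂ}
    (hre : ∀ k, (u' k).re = (s * u k).re) (him : ∀ k, (u' k).im = (τ * u k).re)
    (hs : s ≠ 0) (hne : u ≠ 0) : u' = s • u ∨ u' = cj (s • u) := by
  obtain ⟨σ, rfl⟩ : ∃ σ, τ = σ * s := ⟨τ / s, by field_simp⟩
  have hz : dt (s • u) (s • u) = 0 := by
    simp only [dt, Pi.smul_apply, smul_eq_mul] at hu ⊢
    linear_combination s ^ 2 * hu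
  have hz0 : s • u ≠ 0 := smul_ne_zero hs hne
  have hre' : ∀ k, (u' k).re = ((s • u) k).re := hre
  have him' : ∀ k, (u' k).im = σ.re * ((s • u) k).re - σ.im * ((s • u) k).im := fun k => by
    rw [him k, mul_assoc, mul_re]; rfl
  generalize s • u = z at *
  have a1 := congrArg Complex.re hz
  have a2 := congrArg Complex.im hz
  have b1 := congrArg Complex.re hu'
  have b2 := congrArg Complex.im hu'
  simp only [dt, add_re, add_im, mul_re, mul_im, hre', him', zero_re, zero_im] at a1 a2 b1 b2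
  have hN : (z 0).re ^ 2 + (z 1).re ^ 2 + (z 2).re ^ 2 ≠ 0 := by
    intro h
    apply hz0
    apply iso_imag hz
    intro k
    have s0 := sq_nonneg (z 0).re
    have s1 := sq_nonneg (z 1).re
    have s2 := sq_nonneg (z 2).re
    fin_cases k
    · exact pow_eq_zero_iff two_ne_zero |>.1 (by linarith : (z 0).re ^ 2 = 0)
    · exact pow_eq_zero_iff two_ne_zero |>.1 (by linarith : (z 1).re ^ 2 = 0)
    · exact pow_eq_zero_iff two_ne_zero |>.1 (by linarith : (z 2).re ^ 2 = 0)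
  have c1 : σ.re = 0 := by
    have : σ.re * ((z 0).re ^ 2 + (z 1).re ^ 2 + (z 2).re ^ 2) = 0 := by
      linear_combination b2 / 2 + σ.im * a2 / 2
    exact (mul_eq_zero.1 this).resolve_right hN
  rw [c1] at b1
  have c2 : (σ.im + 1) * (σ.im - 1) = 0 := by
    have : (σ.im + 1) * (σ.im - 1) * ((z 0).re ^ 2 + (z 1).re ^ 2 + (z 2).re ^ 2) = 0 := by
      linear_combination -b1 + σ.im ^ 2 * a1
    exact (mul_eq_zero.1 this).resolve_right hN
  rcases mul_eq_zero.1 c2 with c | c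
  · left
    have : σ.im = -1 := by linarith
    funext k
    apply Complex.ext <;> simp [hre', him', c1, this]
  · right
    have : σ.im = 1 := by linarith
    funext k
    apply Complex.ext <;> simp [cj, hre', him', c1, this]

end Pool.Agent.MP_30dcea_gt

end MrgPart1

-- ======== part 2: formerly Pool.Agent.MP_30dcea_gt.Inv
section MrgPart2

/-!
Invariance of the jet `(Φ, K)` under a change of chart.
-/

open scoped Manifold ContDiff Topology NNReal
open Set Filter Metric Complex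

namespace Pool.Agent.MP_30dcea_gt

variable {X : E2 → E3}

lemma dt_cj_ne {u : C3} (h : u ≠ 0) : dt u (cj u) ≠ 0 := by
  intro h0
  have h1 := congrArg Complex.re h0
  simp only [dt, cj, mul_conj, add_re, ofReal_re, zero_re] at h1
  have s0 := normSq_nonneg (u 0)
  have s1 := normSq_nonneg (u 1)
  have s2 := normSq_nonneg (u 2)
  apply h
  funext k
  fin_cases k
  · exact normSq_eq_zero.1 (by linarith : normSq (u 0) = 0)
  · exact normSq_eq_zero.1 (by linarith : normSq (u 1) = 0)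
  · exact normSq_eq_zero.1 (by linarith : normSq (u 2) = 0)

lemma dt_cj_cj (u v : C3) : dt (cj u) (cj v) = (starRingEnd ℂ) (dt u v) := by simp [dt, cj]

lemma cj_cj (u : C3) : cj (cj u) = u := by funext k; simp [cj]

lemma dt_smul_left (s : ℂ) (u v : C3) : dt (s • u) v = s * dt u v := by
  simp only [dt, Pi.smul_apply, smul_eq_mul]; ring

/-- Conjugation as a real linear map. -/
noncomputable def cjL : C3 →L[ℝ] C3 :=
  ContinuousLinearMap.pi fun k => (conjCLE : ℂ →L[ℝ] ℂ).comp (ContinuousLinearMap.proj k)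

lemma cjL_apply (u : C3) : cjL u = cj u := by funext k; simp [cjL, cj]

lemma continuousAt_dt {f g : E2 → C3} {y : E2} (hf : ContinuousAt f y) (hg : ContinuousAt g y) :
    ContinuousAt (fun z => dt (f z) (g z)) y := by
  have h1 := continuousAt_pi.1 hf
  have h2 := continuousAt_pi.1 hg
  exact (((h1 0).mul (h2 0)).add ((h1 1).mul (h2 1))).add ((h1 2).mul (h2 2))

lemma Good.bb_eq {y : E2} (_h : Good X y) :
    bb X y = dd X y ((gW X y)⁻¹ • (gG X y • ee 0 - gF X y • ee 1)) := by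
  rw [map_smul, map_sub, map_smul, map_smul]; rfl

lemma Good.Phi_ne {y : E2} (h : Good X y) : Phi X y ≠ 0 := by
  obtain ⟨k, hk⟩ := h.exists_ne
  exact fun h0 => hk (congrFun h0 k)

lemma inv_aux {y' y : E2} {ψ : E2 → E2} {ψ' : E2 →L[ℝ] E2} (l : Loc X y) (hy : 0 < y 0)
    (hψ : HasFDerivAt ψ ψ' y') (hψy : ψ y' = y) {U : E2 → C3} {U' : E2 →L[ℝ] C3}
    (hU : HasFDerivAt U U' y') {a : E2 → ℂ} (ha : ∀ᶠ z in 𝓝 y', U z = a z • Phi X (ψ z))
    (ha0 : a y' = th (mu X y) (ψ' (ee 1))) :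
    dt (U' (ee 1)) (U' (ee 1)) = a y' ^ 4 * KK X y := by
  subst hψy
  obtain ⟨k, hk⟩ := l.good.exists_ne
  have hP := (l.good.sm_Phi.has.hasFDerivAt (HH_mem_nhds hy)).comp y' hψ
  have hPk : DifferentiableAt ℝ (fun z => Phi X (ψ z) k) y' :=
    differentiableAt_pi.1 hP.differentiableAt k
  have hUk : DifferentiableAt ℝ (fun z => U z k) y' := differentiableAt_pi.1 hU.differentiableAt k
  have hb : DifferentiableAt ℝ (fun z => U z k * (Phi X (ψ z) k)⁻¹) y' := hUk.mul (hPk.inv hk)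
  have hev : ∀ᶠ z in 𝓝 y', U z k * (Phi X (ψ z) k)⁻¹ = a z := by
    filter_upwards [ha, hPk.continuousAt.eventually_ne hk] with z h1 h2
    rw [h1]; simp [h2]
  have hA : DifferentiableAt ℝ a y' := hb.congr_of_eventuallyEq (EventuallyEq.symm hev)
  have h1 := hU.unique ((hA.hasFDerivAt.smul hP).congr_of_eventuallyEq ha)
  have h2 := l.good.isotropic
  have h3 := l.dt_DPhi
  rw [h1]
  simp only [add_apply, smul_apply, ContinuousLinearMap.comp_apply,
    ContinuousLinearMap.smulRight_apply, Function.comp_apply]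
  rw [l.dPhi, ← ha0, KK]
  generalize (ψ' (ee 1) 0 : ℂ) * dd (mu X) (ψ y') (ee 1) = s
  generalize fderiv ℝ a y' (ee 1) = t
  simp only [dt, Pi.add_apply, Pi.smul_apply, smul_eq_mul] at h2 h3 ⊢
  linear_combination (a y' * s + t) ^ 2 * h2 + 2 * a y' ^ 2 * (a y' * s + t) * h3

lemma inv {X' : E2 → E3} {y y' : E2} {ψ : E2 → E2} (l : Loc X y) (l' : Loc X' y') (hy : 0 < y 0)
    (hy' : 0 < y' 0) (hψ : ∀ᶠ z in 𝓝 y', DifferentiableAt ℝ ψ z) (hψy : ψ y' = y)
    (hX : X' =ᶠ[𝓝 y'] X ∘ ψ) : Rel (Phi X y) (KK X y) (Phi X' y') (KK X' y') := by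
  subst hψy
  have hd := hψ.self_of_nhds
  have e1 : ∀ᶠ z in 𝓝 y', Good X' z ∧ 0 < z 0 :=
    Eventually.and (nhdsWithin_HH hy' ▸ l'.2) (isOpen_pos.mem_nhds hy')
  have e2 : ∀ᶠ z in 𝓝 y', Good X (ψ z) ∧ 0 < ψ z 0 :=
    hd.continuousAt.eventually (Eventually.and (nhdsWithin_HH hy ▸ l.2) (isOpen_pos.mem_nhds hy))
  let s : E2 → ℂ := fun z => th (mu X (ψ z)) (fderiv ℝ ψ z (ee 1))
  have key : ∀ᶠ z in 𝓝 y', Good X (ψ z) ∧ s z ≠ 0 ∧
      (Phi X' z = s z • Phi X (ψ z) ∨ Phi X' z = cj (s z • Phi X (ψ z))) := by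
    filter_upwards [e1, e2, hψ, hX.eventually_nhds] with z h1 h2 h3 h4
    have c : dd X' z = (dd X (ψ z)).comp (fderiv ℝ ψ z) :=
      dd_eq (((h2.1.smooth.has.hasFDerivAt (HH_mem_nhds h2.2)).comp z
        h3.hasFDerivAt).congr_of_eventuallyEq h4).hasFDerivWithinAt h1.1.mem
    have hre : ∀ k, (Phi X' z k).re = (s z * Phi X (ψ z) k).re := fun k => by
      rw [h2.1.re_th]; simp [Phi, da, c]
    have hs : s z ≠ 0 := by
      intro h0
      apply h1.1.da_ne
      ext k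
      simpa [h0, Phi] using hre k
    refine ⟨h2.1, hs, dichotomy h2.1.isotropic h1.1.isotropic hre
      (τ := th (mu X (ψ z)) (fderiv ℝ ψ z ((gW X' z)⁻¹ • (gG X' z • ee 0 - gF X' z • ee 1))))
      (fun k => ?_) hs h2.1.Phi_ne⟩
    rw [h2.1.re_th, Phi, h1.1.bb_eq, c]
    simp [-map_smul, -map_sub]
  have hP' := l'.good.sm_Phi.has.hasFDerivAt (HH_mem_nhds hy')
  have hP := ((l.good.sm_Phi.has.hasFDerivAt (HH_mem_nhds hy)).comp y' hd.hasFDerivAt).continuousAt
  obtain ⟨g0, hs0, h0 | h0⟩ := key.self_of_nhds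
  · have c : ContinuousAt (fun z => dt (Phi X' z) (cjL (Phi X (ψ z)))) y' :=
      continuousAt_dt hP'.continuousAt (cjL.continuous.continuousAt.comp hP)
    have hne : dt (Phi X' y') (cjL (Phi X (ψ y'))) ≠ 0 := by
      rw [h0, dt_smul_left, cjL_apply]
      exact mul_ne_zero hs0 (dt_cj_ne g0.Phi_ne)
    have ha : ∀ᶠ z in 𝓝 y', Phi X' z = s z • Phi X (ψ z) := by
      filter_upwards [key, c.eventually_ne hne] with z h1 h2
      refine h1.2.2.resolve_right fun h3 => h2 ?_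
      rw [h3, cjL_apply, dt_cj_cj, dt_smul_left, h1.1.isotropic]; simp
    exact ⟨s y', hs0, Or.inl ⟨h0, inv_aux l hy hd.hasFDerivAt rfl hP' ha rfl⟩⟩
  · have c : ContinuousAt (fun z => dt (cjL (Phi X' z)) (cjL (Phi X (ψ z)))) y' :=
      continuousAt_dt (cjL.continuous.continuousAt.comp hP'.continuousAt)
        (cjL.continuous.continuousAt.comp hP)
    have hne : dt (cjL (Phi X' y')) (cjL (Phi X (ψ y'))) ≠ 0 := by
      rw [h0, cjL_apply, cj_cj, dt_smul_left, cjL_apply]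
      exact mul_ne_zero hs0 (dt_cj_ne g0.Phi_ne)
    have ha : ∀ᶠ z in 𝓝 y', cjL (Phi X' z) = s z • Phi X (ψ z) := by
      filter_upwards [key, c.eventually_ne hne] with z h1 h2
      rcases h1.2.2 with h3 | h3
      · refine absurd ?_ h2
        rw [h3, cjL_apply, cjL_apply, dt_cj_cj, dt_smul_left, h1.1.isotropic]; simp
      · rw [h3, cjL_apply, cj_cj]
    have := inv_aux l hy hd.hasFDerivAt rfl (cjL.hasFDerivAt.comp y' hP') ha rfl
    refine ⟨s y', hs0, Or.inr ⟨h0, ?_⟩⟩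
    rw [← this]
    simp only [ContinuousLinearMap.comp_apply, cjL_apply, dt_cj_cj, conj_conj]
    rfl

end Pool.Agent.MP_30dcea_gt

end MrgPart2

-- ======== part 3: formerly Pool.Agent.MP_30dcea_gt.Bdry
section MrgPart3

/-!
Local analysis at the boundary and the local steps of the noncircular case.
-/

open scoped Manifold ContDiff Topology NNReal
open Set Filter Metric Complex

namespace Pool.Agent.MP_30dcea_gt

variable {X : E2 → E3} {p : E2}

lemma has_E3 {f : E2 → E3} {f' : E2 →L[ℝ] E3} {y : E2} (h : HasFDerivWithinAt f f' HH y)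
    (j : Fin 3) :
    HasFDerivWithinAt (fun z => f z j) ((EuclideanSpace.proj j : E3 →L[ℝ] ℝ).comp f') HH y :=
  (EuclideanSpace.proj j : E3 →L[ℝ] ℝ).hasFDerivAt.comp_hasFDerivWithinAt y h

lemma Sm.comp3 {f : E2 → E3} {y : E2} (h : Sm f y) (j : Fin 3) : Sm (fun z => f z j) y :=
  h.continuousLinearMap_comp (EuclideanSpace.proj j : E3 →L[ℝ] ℝ)

lemma tan_bil {f g : E2 → E3} (hp : p 0 = 0) (hf : Sm f p) (hg : Sm g p) {a b c κ : ℝ}
    (h : ∀ᶠ y in 𝓝[HH] p, y 0 = 0 →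
      a * (f y 0 * g y 0) + b * (f y 1 * g y 1) + c * (f y 2 * g y 2) = κ) :
    a * (f p 0 * dd g p (ee 1) 0 + g p 0 * dd f p (ee 1) 0) +
      b * (f p 1 * dd g p (ee 1) 1 + g p 1 * dd f p (ee 1) 1) +
      c * (f p 2 * dd g p (ee 1) 2 + g p 2 * dd f p (ee 1) 2) = 0 := by
  have := tan_zero hp (((((has_E3 hf.has 0).mul (has_E3 hg.has 0)).const_mul a).add
    (((has_E3 hf.has 1).mul (has_E3 hg.has 1)).const_mul b)).add
    (((has_E3 hf.has 2).mul (has_E3 hg.has 2)).const_mul c)) h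
  simpa [mul_add] using this

lemma sq_const {f : E2 → ℝ} (hp : p 0 = 0) (hf : Sm f p) {κ : ℝ}
    (h : ∀ᶠ y in 𝓝[HH] p, y 0 = 0 → f y ^ 2 = κ) : dd f p (ee 1) = 0 := by
  have hH : p ∈ HH := le_of_eq hp.symm
  by_cases h0 : f p = 0
  · have hk : κ = 0 := by rw [← h.self_of_nhdsWithin hH hp, h0]; simp
    exact tan_zero hp hf.has (c := 0) (h.mono fun y hy h1 => by simpa [hk] using hy h1)
  · have := tan_zero hp (hf.has.mul hf.has) (c := κ) (h.mono fun y hy h1 => by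
      simpa [pow_two] using hy h1)
    simp only [add_apply, smul_apply, smul_eq_mul] at this
    have h2 : f p * dd f p (ee 1) = 0 := by linarith
    exact (mul_eq_zero.1 h2).resolve_left h0

/-- The normal component of the rotated tangent vector. -/
noncomputable def beta (X : E2 → E3) (y : E2) : ℝ := inner ℝ (bb X y) (X y)

lemma Good.sm_beta {y : E2} (h : Good X y) : Sm (beta X) y := h.sm_bb.inner ℝ h.smooth

lemma Good.unit {y : E2} (h : Good X y) (h0 : y 0 = 0) : X y 0 ^ 2 + X y 1 ^ 2 + X y 2 ^ 2 = 1 := by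
  rw [← norm_sq_E3, h.norm h0]; simp

namespace Loc

lemma orth (l : Loc X p) (hp : p 0 = 0) :
    X p 0 * da X 1 p 0 + X p 1 * da X 1 p 1 + X p 2 * da X 1 p 2 = 0 := by
  have := tan_bil hp l.good.smooth l.good.smooth (a := 1) (b := 1) (c := 1) (κ := 1)
    (l.2.mono fun y hy h0 => by linear_combination hy.unit h0)
  simp only [da]
  linear_combination this / 2

lemma bb_eq (l : Loc X p) (hp : p 0 = 0) : bb X p = beta X p • X p := by
  have g := l.good
  obtain ⟨v, hv⟩ := g.tang hp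
  have h1 := l.orth hp
  have h2 := g.unit hp
  have hG := g.gG_pos
  have hW := g.gW_pos
  rw [dd_expand] at hv
  have hv' : X p = v 0 • da X 0 p + v 1 • da X 1 p := hv.symm
  have h3 : v 0 * gF X p + v 1 * gG X p = 0 := by
    rw [hv'] at h1
    simp only [gF, gG, inner_E3]
    simp only [PiLp.add_apply, PiLp.smul_apply, smul_eq_mul] at h1
    linear_combination h1
  have h4 : gG X p • X p = (v 0 * gW X p) • bb X p := by
    rw [bb, smul_smul, mul_assoc, mul_inv_cancel₀ hW.ne', mul_one]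
    conv_lhs => rw [hv']
    have : gG X p * v 1 = -(v 0 * gF X p) := by linear_combination h3
    rw [smul_add, smul_smul, smul_smul, this, smul_sub, smul_smul, smul_smul,
      mul_comm (gG X p), neg_smul, sub_eq_add_neg]
  have hv0 : v 0 * gW X p ≠ 0 := by
    intro h0
    rw [h0, zero_smul, smul_eq_zero] at h4
    rcases h4 with h4 | h4
    · exact hG.ne' h4
    · rw [h4] at h2; simp at h2
  have h5 : bb X p = (gG X p / (v 0 * gW X p)) • X p := by
    rw [div_eq_inv_mul, ← smul_smul, h4, smul_smul, inv_mul_cancel₀ hv0, one_smul]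
  have h6 : beta X p = gG X p / (v 0 * gW X p) := by
    rw [beta, h5, real_inner_smul_left, real_inner_self_eq_norm_sq, g.norm hp]; simp
  rw [h6, h5]

lemma beta_sq (l : Loc X p) (hp : p 0 = 0) :
    beta X p ^ 2 = da X 1 p 0 ^ 2 + da X 1 p 1 ^ 2 + da X 1 p 2 ^ 2 := by
  have h1 := l.good.inner_bb_bb
  rw [l.bb_eq hp, real_inner_smul_left, real_inner_smul_right, real_inner_self_eq_norm_sq,
    l.good.norm hp, gG, inner_E3] at h1
  linear_combination h1

lemma beta_ne (l : Loc X p) (hp : p 0 = 0) : beta X p ≠ 0 := by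
  intro h0
  have h1 := l.beta_sq hp
  have h2 := l.good.gG_pos
  rw [gG, inner_E3] at h2
  rw [h0] at h1
  linarith

lemma Phi_bd (l : Loc X p) (hp : p 0 = 0) (k : Fin 3) :
    Phi X p k = da X 1 p k + I * (beta X p * X p k : ℝ) := by
  simp [Phi, l.bb_eq hp]

lemma conic (l : Loc X p) (hp : p 0 = 0) {a b c : ℝ} (habc : a * b * c ≠ 0)
    (hq : ∀ᶠ y in 𝓝[HH] p, y 0 = 0 → a * X y 0 ^ 2 + b * X y 1 ^ 2 + c * X y 2 ^ 2 = 0) :
    Qf a b c (Phi X p) ≠ 0 ∧
      KK X p / Qf a b c (Phi X p) ^ 2 =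
        (((a * X p 0) ^ 2 + (b * X p 1) ^ 2 + (c * X p 2) ^ 2)⁻¹ : ℝ) ∧
      Erel a b c (Phi X p) (KK X p) = 0 := by
  have g := l.good
  have h4 : ∀ᶠ y in 𝓝[HH] p, y 0 = 0 →
      a * (X y 0 * da X 1 y 0) + b * (X y 1 * da X 1 y 1) + c * (X y 2 * da X 1 y 2) = 0 := by
    filter_upwards [l.2, eventually_eventually_nhdsWithin.2 hq] with y h1 h2 h0
    have := tan_bil h0 h1.smooth h1.smooth (a := a) (b := b) (c := c) (κ := 0)
      (h2.mono fun z hz h0 => by linear_combination hz h0)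
    simp only [da]
    linear_combination this / 2
  have h5 := tan_bil hp g.smooth (g.sm_da 1) (a := 1) (b := 1) (c := 1) (κ := 0)
    (l.ev.mono fun y hy h0 => by linear_combination hy.orth h0)
  have h6 := tan_bil hp g.smooth (g.sm_da 1) h4
  have h8 : dd (fun y => beta X y * beta X y - (da X 1 y 0 * da X 1 y 0 + da X 1 y 1 * da X 1 y 1 +
      da X 1 y 2 * da X 1 y 2)) p (ee 1) = 0 := by
    have hs := g.sm_da 1
    exact tan_zero hp (Sm.has ((g.sm_beta.mul g.sm_beta).sub ((((hs.comp3 0).mul (hs.comp3 0)).add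
      ((hs.comp3 1).mul (hs.comp3 1))).add ((hs.comp3 2).mul (hs.comp3 2))))) (c := 0)
      (l.ev.mono fun y hy h0 => by linear_combination hy.beta_sq h0)
  have h8' := dd_eq ((g.sm_beta.has.mul g.sm_beta.has).sub
    ((((has_E3 (g.sm_da 1).has 0).mul (has_E3 (g.sm_da 1).has 0)).add
      ((has_E3 (g.sm_da 1).has 1).mul (has_E3 (g.sm_da 1).has 1))).add
      ((has_E3 (g.sm_da 1).has 2).mul (has_E3 (g.sm_da 1).has 2)))) l.1
  have h8'' := h8.symm.trans (congrArg (fun A : E2 →L[ℝ] ℝ => A (ee 1)) h8')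
  have h9 := tan_zero hp (g.sm_bb.has.sub (g.sm_beta.has.smul g.smooth.has)) (c := 0)
    (l.ev.mono fun y hy h0 => by simp [hy.bb_eq h0])
  have h10 : DPhi X p = cx (dd (da X 1) p (ee 1)) (dd (bb X) p (ee 1)) := by
    have := dd_eq (has_cx (g.sm_da 1).has g.sm_bb.has) l.1
    exact congrArg (fun A : E2 →L[ℝ] C3 => A (ee 1)) this
  have h11 : dd (bb X) p (ee 1) = dd (beta X) p (ee 1) • X p + beta X p • da X 1 p := by
    simp only [sub_apply, add_apply, smul_apply, ContinuousLinearMap.smulRight_apply] at h9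
    rw [sub_eq_zero.1 h9, add_comm]; rfl
  have h12 : ∀ k, DPhi X p k = dd (da X 1) p (ee 1) k +
      I * (dd (beta X) p (ee 1) * X p k + beta X p * da X 1 p k : ℝ) := fun k => by
    simp [h10, h11]
  simp at h8''
  exact boundary_alg habc (g.unit hp) (hq.self_of_nhdsWithin l.1 hp) (l.orth hp)
    (by linear_combination h4.self_of_nhdsWithin l.1 hp)
    (by simp only [da] at h5 ⊢; linear_combination h5)
    (by simp only [da] at h6 ⊢; linear_combination h6) (l.beta_sq hp)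
    (by linear_combination h8'' / 2) (l.beta_ne hp) _ _ (l.Phi_bd hp 0) (l.Phi_bd hp 1)
    (l.Phi_bd hp 2) (h12 0) (h12 1) (h12 2)

end Loc

end Pool.Agent.MP_30dcea_gt

end MrgPart3

-- ======== part 4: formerly Pool.Agent.MP_30dcea_gt.Local
section MrgPart4

/-!
Local steps: identity theorem, boundary uniqueness, isolated zeros and the maximum principle.
-/

open scoped Manifold ContDiff Topology NNReal
open Set Filter Metric Complex

namespace Pool.Agent.MP_30dcea_gt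

variable {X : E2 → E3} {p : E2}

/-- The weight zero quotient of the quartic differential by the square of the quadratic one. -/
noncomputable def rho (a b c : ℝ) (X : E2 → E3) (y : E2) : ℂ := KK X y / Qf a b c (Phi X y) ^ 2

lemma Good.sm_Qf {y : E2} (g : Good X y) (a b c : ℝ) : Sm (fun z => Qf a b c (Phi X z)) y :=
  ((contDiffWithinAt_const.mul ((g.sm_Phik 0).pow 2)).add
    (contDiffWithinAt_const.mul ((g.sm_Phik 1).pow 2))).add
    (contDiffWithinAt_const.mul ((g.sm_Phik 2).pow 2))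

lemma Good.sm_G1 {y : E2} (g : Good X y) (a b c : ℝ) : Sm (fun z => G1 a b c (Phi X z)) y :=
  (g.sm_Qf _ _ _).sub (contDiffWithinAt_const.mul (g.sm_Qf a b c))

lemma Good.sm_Erel {y : E2} (g : Good X y) (a b c : ℝ) :
    Sm (fun z => Erel a b c (Phi X z) (KK X z)) y := by
  have h1 := g.sm_Qf a b c
  have h2 := g.sm_G1 a b c
  have h3 := g.sm_KK
  exact ((contDiffWithinAt_const.mul (h2.pow 2)).mul (h3.pow 2)).sub ((h1.pow 3).mul
    ((((contDiffWithinAt_const.mul h2).mul ((contDiffWithinAt_const.mul (h1.pow 2)).add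
      (contDiffWithinAt_const.mul h3))).sub (contDiffWithinAt_const.mul (h1.pow 3))).add
      ((contDiffWithinAt_const.mul h3).mul h1)))

lemma Good.sm_rho {y : E2} (g : Good X y) {a b c : ℝ} (h : Qf a b c (Phi X y) ≠ 0) :
    Sm (rho a b c X) y := Sm.cdiv g.sm_KK ((g.sm_Qf a b c).pow 2) (pow_ne_zero _ h)

lemma an_Qf {G : ℂ → C3} {t : ℂ} (h : AnalyticAt ℂ G t) (a b c : ℝ) :
    AnalyticAt ℂ (fun s => Qf a b c (G s)) t := by
  have h0 := analyticAt_pi_iff.1 h 0
  have h1 := analyticAt_pi_iff.1 h 1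
  have h2 := analyticAt_pi_iff.1 h 2
  unfold Qf; fun_prop

lemma an_dt {G : ℂ → C3} {t : ℂ} (h : AnalyticAt ℂ G t) :
    AnalyticAt ℂ (fun s => dt (G s) (G s)) t := by
  have h0 := analyticAt_pi_iff.1 h 0
  have h1 := analyticAt_pi_iff.1 h 1
  have h2 := analyticAt_pi_iff.1 h 2
  unfold dt; fun_prop

lemma an_Erel {G : ℂ → C3} {t : ℂ} (h : AnalyticAt ℂ G t) (a b c : ℝ) :
    AnalyticAt ℂ (fun s => Erel a b c (G s) (dt (deriv G s) (deriv G s))) t := by
  have h0 := an_Qf h a b c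
  have h1 := an_Qf h (a ^ 2) (b ^ 2) (c ^ 2)
  have h2 := an_dt h.deriv
  unfold Erel G1; fun_prop

namespace HPack

variable {W : E2 → C3} {k : Fin 3} {e : OpenPartialHomeomorph E2 ℂ} {r : ℝ} {y : E2}

lemma Qf_eq (h : HPack X p W k e r) (hy : y ∈ ball p r) (h0 : 0 < y 0) (a b c : ℝ) :
    Qf a b c (Phi X y) = Phi X y k ^ 2 * Qf a b c (deriv (W ∘ e.symm) (e y)) := by
  rw [← Qf_smul, ← h.Phi_eq hy h0]

lemma Erel_eq (h : HPack X p W k e r) (hy : y ∈ ball p r) (h0 : 0 < y 0) (a b c : ℝ) :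
    Erel a b c (Phi X y) (KK X y) = Phi X y k ^ 12 * Erel a b c (deriv (W ∘ e.symm) (e y))
      (dt (deriv (deriv (W ∘ e.symm)) (e y)) (deriv (deriv (W ∘ e.symm)) (e y))) := by
  rw [← Erel_smul, ← h.Phi_eq hy h0, ← h.KK_eq hy h0]

lemma rho_eq (h : HPack X p W k e r) (hy : y ∈ ball p r) (h0 : 0 < y 0) (a b c : ℝ) :
    rho a b c X y = dt (deriv (deriv (W ∘ e.symm)) (e y)) (deriv (deriv (W ∘ e.symm)) (e y)) /
      Qf a b c (deriv (W ∘ e.symm) (e y)) ^ 2 := by
  rw [rho, h.Qf_eq hy h0, h.KK_eq hy h0, mul_pow, ← pow_mul,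
    mul_div_mul_left _ _ (pow_ne_zero _ (h.ne y hy h0.le))]

lemma ev_symm (h : HPack X p W k e r) (hy : y ∈ ball p r) (h0 : 0 < y 0) :
    ∀ᶠ t in 𝓝 (e y), e.symm t ∈ ball p r ∧ 0 < e.symm t 0 ∧ e (e.symm t) = t := by
  filter_upwards [(h.hc.tendsto_symm hy).eventually (ev_int hy h0),
    e.open_target.mem_nhds (e.map_source (h.hc.src ▸ hy))] with t h1 h2
  exact ⟨h1.1, h1.2, e.right_inv h2⟩

lemma an_rho (h : HPack X p W k e r) (hy : y ∈ ball p r) (h0 : 0 < y 0) {a b c : ℝ}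
    (hq : Qf a b c (Phi X y) ≠ 0) : AnalyticAt ℂ (rho a b c X ∘ e.symm) (e y) := by
  have h1 := (h.anW hy h0).deriv
  rw [h.Qf_eq hy h0] at hq
  refine ((an_dt h1.deriv).div ((an_Qf h1 a b c).pow 2)
    (pow_ne_zero _ (right_ne_zero_of_mul hq))).congr ?_
  filter_upwards [h.ev_symm hy h0] with t ht
  rw [Function.comp_apply, h.rho_eq ht.1 ht.2.1, ht.2.2]
  rfl

end HPack

namespace Loc

lemma identity {V : Type*} [NormedAddCommGroup V] [NormedSpace ℝ V] (l : Loc X p) (P : E2 → Prop)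
    (hP : ∀ W k e r, HPack X p W k e r → ∃ f : ℂ → V, ∀ y ∈ ball p r, 0 < y 0 →
      AnalyticAt ℝ f (e y) ∧ (P y ↔ f (e y) = 0)) :
    ∀ᶠ y in 𝓝[HH] p, (∀ᶠ z in 𝓝[HH] y, 0 < z 0 → P z) → ∀ᶠ z in 𝓝[HH] p, 0 < z 0 → P z := by
  obtain ⟨W, k, e, r, h, -⟩ := l.exists_pack' univ_mem
  obtain ⟨f, hf⟩ := hP W k e r h
  filter_upwards [h.ev_ball] with y hy hz
  have := h.hc.identity (F := f ∘ e) (fun z hz h0 => (hf z hz h0).1.congr
    ((h.ev_symm hz h0).mono fun t ht => by simp [ht.2.2])) hy.1 hy.2 (by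
      filter_upwards [hz, nhdsWithin_le_nhds (isOpen_ball.mem_nhds hy.1)] with z h1 h2 h0
      exact (hf z h2 h0).2.1 (h1 h0))
  filter_upwards [h.ev_ball] with z hz h0
  exact (hf z hz.1 h0).2.2 (this z hz.1 h0)

lemma identity_Erel (l : Loc X p) (a b c : ℝ) :
    ∀ᶠ y in 𝓝[HH] p, (∀ᶠ z in 𝓝[HH] y, 0 < z 0 → Erel a b c (Phi X z) (KK X z) = 0) →
      ∀ᶠ z in 𝓝[HH] p, 0 < z 0 → Erel a b c (Phi X z) (KK X z) = 0 :=
  l.identity (V := ℂ) _ fun W k e r h => ⟨_, fun y hy h0 =>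
    ⟨(an_Erel (h.anW hy h0).deriv a b c).restrictScalars, by
      rw [h.Erel_eq hy h0]; simp [h.ne y hy h0.le]⟩⟩

lemma identity_Qf (l : Loc X p) (a b c : ℝ) :
    ∀ᶠ y in 𝓝[HH] p, (∀ᶠ z in 𝓝[HH] y, 0 < z 0 → Qf a b c (Phi X z) = 0) →
      ∀ᶠ z in 𝓝[HH] p, 0 < z 0 → Qf a b c (Phi X z) = 0 :=
  l.identity (V := ℂ) _ fun W k e r h => ⟨_, fun y hy h0 =>
    ⟨(an_Qf (h.anW hy h0).deriv a b c).restrictScalars, by
      rw [h.Qf_eq hy h0]; simp [h.ne y hy h0.le]⟩⟩

lemma identity_X (l : Loc X p) (f : ℝ × ℝ × ℝ → ℝ) (hf : ∀ u, AnalyticAt ℝ f u) :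
    ∀ᶠ y in 𝓝[HH] p, (∀ᶠ z in 𝓝[HH] y, 0 < z 0 → f (X z 0, X z 1, X z 2) = 0) →
      ∀ᶠ z in 𝓝[HH] p, 0 < z 0 → f (X z 0, X z 1, X z 2) = 0 :=
  l.identity (V := ℝ) _ fun W k e r h =>
    ⟨fun t => f (X (e.symm t) 0, X (e.symm t) 1, X (e.symm t) 2), fun y hy h0 =>
      ⟨(hf _).comp ((h.anX hy h0 0).prod ((h.anX hy h0 1).prod (h.anX hy h0 2))), by
        simp only [h.hc.left_inv hy]⟩⟩

lemma Erel_near (l : Loc X p) (hp : p 0 = 0) {a b c : ℝ} (habc : a * b * c ≠ 0)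
    (hq : ∀ᶠ y in 𝓝[HH] p, y 0 = 0 → a * X y 0 ^ 2 + b * X y 1 ^ 2 + c * X y 2 ^ 2 = 0) :
    ∀ᶠ z in 𝓝[HH] p, Erel a b c (Phi X z) (KK X z) = 0 := by
  obtain ⟨W, k, e, r, h, hU⟩ := l.exists_pack' (eventually_eventually_nhdsWithin.2 hq)
  have := h.bu_smooth hp (F := fun z => Erel a b c (Phi X z) (KK X z) / Phi X z k ^ 12)
    (fun y hy hH => Sm.cdiv ((h.loc y hy hH).good.sm_Erel a b c)
      (((h.loc y hy hH).good.sm_Phik k).pow 12) (pow_ne_zero _ (h.ne y hy hH)))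
    (fun y hy h0 => by
      refine (an_Erel (h.anW hy h0).deriv a b c).differentiableAt.congr_of_eventuallyEq ?_
      filter_upwards [h.ev_symm hy h0] with t ht
      simp only [Function.comp_apply]
      rw [h.Erel_eq ht.1 ht.2.1, ht.2.2,
        mul_div_cancel_left₀ _ (pow_ne_zero _ (h.ne _ ht.1 ht.2.1.le))])
    (fun y hy h0 => by
      have hH : y ∈ HH := le_of_eq h0.symm
      simp only [((h.loc y hy hH).conic h0 habc (hU ⟨hy, hH⟩)).2.2, zero_div])
  filter_upwards [h.ev_ball] with z hz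
  exact (div_eq_zero_iff.1 (this z hz.1 hz.2)).resolve_right (pow_ne_zero _ (h.ne z hz.1 hz.2))

lemma Qf_zero (l : Loc X p) (hp : 0 < p 0) {a b c : ℝ} (hab : a ≠ b) (hbc : b ≠ c) (hac : a ≠ c)
    (habc : a * b * c ≠ 0) (hE : ∀ᶠ z in 𝓝[HH] p, Erel a b c (Phi X z) (KK X z) = 0)
    (h0 : Qf a b c (Phi X p) = 0) : ∀ᶠ z in 𝓝[HH] p, Qf a b c (Phi X z) = 0 := by
  obtain ⟨W, k, e, r, h, hU⟩ := l.exists_pack' hE
  have hb : p ∈ ball p r := mem_ball_self h.hc.pos
  have := zero_lemma hab hbc hac habc (h.anW hb hp).deriv k (by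
    filter_upwards [h.ev_symm hb hp] with t ht
    have h1 := h.Gam_k ht.1 ht.2.1
    have h2 := h.Gam_iso ht.1 ht.2.1
    have h3 : Erel a b c (Phi X (e.symm t)) (KK X (e.symm t)) = 0 := hU ⟨ht.1, ht.2.1.le⟩
    rw [h.Erel_eq ht.1 ht.2.1] at h3
    rw [ht.2.2] at h1 h2 h3
    exact ⟨h1, h2, (mul_eq_zero.1 h3).resolve_left (pow_ne_zero _ (h.ne _ ht.1 ht.2.1.le))⟩) (by
    rw [h.Qf_eq hb hp] at h0
    exact (mul_eq_zero.1 h0).resolve_left (pow_ne_zero _ (h.ne _ hb hp.le)))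
  rw [nhdsWithin_HH hp]
  filter_upwards [(h.hc.tendsto_e hb).eventually this, HPack.ev_int hb hp] with z h1 h2
  rw [h.Qf_eq h2.1 h2.2, h1, mul_zero]

end Loc

lemma im_max {f : ℂ → ℂ} {t₀ : ℂ} (hf : AnalyticAt ℂ f t₀)
    (hm : ∀ᶠ t in 𝓝 t₀, |(f t).im| ≤ |(f t₀).im|) : ∀ᶠ t in 𝓝 t₀, |(f t).im| = |(f t₀).im| := by
  obtain ⟨s, hs, hs'⟩ : ∃ s : ℝ, |s| = 1 ∧ s * (f t₀).im = |(f t₀).im| := by
    rcases le_total 0 (f t₀).im with h | h
    · exact ⟨1, by simp, by simp [abs_of_nonneg h]⟩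
    · exact ⟨-1, by simp, by simp [abs_of_nonpos h]⟩
  have hn : ∀ t, ‖cexp (-(s * I * f t))‖ = Real.exp (s * (f t).im) := fun t => by
    rw [norm_exp]; simp
  have hle : ∀ t, s * (f t).im ≤ |(f t).im| := fun t => by
    calc s * (f t).im ≤ |s * (f t).im| := le_abs_self _
      _ = _ := by rw [abs_mul, hs, one_mul]
  have hd : ∀ᶠ t in 𝓝 t₀, DifferentiableAt ℂ (fun t => cexp (-(s * I * f t))) t :=
    hf.eventually_analyticAt.mono fun t ht =>
      ((ht.differentiableAt.const_mul _).neg).cexp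
  have hmax : IsLocalMax (norm ∘ fun t => cexp (-(s * I * f t))) t₀ := by
    filter_upwards [hm] with t ht
    simp only [Function.comp_apply, hn, Real.exp_le_exp]
    rw [hs']
    exact (hle t).trans ht
  filter_upwards [norm_eventually_eq_of_isLocalMax hd hmax, hm] with t h1 h2
  rw [hn, hn, Real.exp_eq_exp, hs'] at h1
  exact le_antisymm h2 (h1 ▸ hle t)

lemma im_zero_const {f : ℂ → ℂ} {t₀ : ℂ} (hf : AnalyticAt ℂ f t₀)
    (hm : ∀ᶠ t in 𝓝 t₀, (f t).im = 0) : ∀ᶠ t in 𝓝 t₀, f t = f t₀ := by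
  refine hf.eventually_constant_or_nhds_le_map_nhds.resolve_right fun h => ?_
  have h1 : ∀ᶠ w in 𝓝 (f t₀), w.im = 0 := h hm
  have h2 : Tendsto (fun s : ℝ => f t₀ + s * I) (𝓝[>] 0) (𝓝 (f t₀)) := by
    have : Continuous fun s : ℝ => f t₀ + s * I := by fun_prop
    simpa using (this.tendsto 0).mono_left nhdsWithin_le_nhds
  obtain ⟨s, h3, h4⟩ := ((h2.eventually h1).and self_mem_nhdsWithin).exists
  simp [hm.self_of_nhds] at h3
  simp [h3] at h4

namespace Loc

lemma rho_max (l : Loc X p) (hp : 0 < p 0) {a b c : ℝ} (hq : Qf a b c (Phi X p) ≠ 0)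
    (hm : ∀ᶠ z in 𝓝[HH] p, |(rho a b c X z).im| ≤ |(rho a b c X p).im|) :
    ∀ᶠ z in 𝓝[HH] p, |(rho a b c X z).im| = |(rho a b c X p).im| := by
  obtain ⟨W, k, e, r, h, -⟩ := l.exists_pack' univ_mem
  have hb : p ∈ ball p r := mem_ball_self h.hc.pos
  rw [nhdsWithin_HH hp] at hm ⊢
  have := im_max (h.an_rho hb hp hq) (by
    filter_upwards [(h.hc.tendsto_symm hb).eventually hm] with t ht
    simpa [h.hc.left_inv hb] using ht)
  filter_upwards [(h.hc.tendsto_e hb).eventually this, h.hc.ev_left_inv hb] with z h1 h2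
  simpa [h.hc.left_inv hb, h2] using h1

lemma noncirc_end (l : Loc X p) (hp : p 0 = 0) {a b c : ℝ} (hab : a ≠ b) (hbc : b ≠ c)
    (hac : a ≠ c) (habc : a * b * c ≠ 0)
    (hq : ∀ᶠ y in 𝓝[HH] p, y 0 = 0 → a * X y 0 ^ 2 + b * X y 1 ^ 2 + c * X y 2 ^ 2 = 0)
    (him : ∀ᶠ y in 𝓝[HH] p, 0 < y 0 → (rho a b c X y).im = 0) : False := by
  have hq0 := (l.conic hp habc hq).1
  have hne : ∀ᶠ y in 𝓝[HH] p, Qf a b c (Phi X y) ≠ 0 :=
    (l.good.sm_Qf a b c).continuousWithinAt.eventually_ne hq0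
  obtain ⟨W, k, e, r, h, hU⟩ := l.exists_pack'
    (((eventually_eventually_nhdsWithin.2 hq).and hne).and him)
  obtain ⟨y₁, hy₁0, hy₁, -⟩ := ((frequently_pos l.1).and_eventually h.ev_ball).exists
  have hc := im_zero_const (h.an_rho hy₁ hy₁0 (hU ⟨hy₁, hy₁0.le⟩).1.2)
    ((h.ev_symm hy₁ hy₁0).mono fun t ht => (hU ⟨ht.1, ht.2.1.le⟩).2 ht.2.1)
  have hconst := h.hc.identity (F := fun y => rho a b c X y - rho a b c X y₁)
    (fun y hy h0 => ((h.an_rho hy h0 (hU ⟨hy, h0.le⟩).1.2).sub analyticAt_const).restrictScalars)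
    hy₁ hy₁0.le (by
      rw [nhdsWithin_HH hy₁0]
      filter_upwards [(h.hc.tendsto_e hy₁).eventually hc, h.hc.ev_left_inv hy₁] with z h1 h2 _
      simpa [h.hc.left_inv hy₁, h2, sub_eq_zero] using h1)
  have hr : ∀ᶠ y in 𝓝[HH] p, y 0 = 0 →
      (a * X y 0) ^ 2 + (b * X y 1) ^ 2 + (c * X y 2) ^ 2 = ((rho a b c X y₁).re)⁻¹ := by
    filter_upwards [h.ev_ball] with y hy h0
    have h1 : rho a b c X y = rho a b c X y₁ :=
      eq_of_interior (g := fun _ => rho a b c X y₁) hy.2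
        ((h.loc y hy.1 hy.2).good.sm_rho (hU hy).1.2).continuousWithinAt continuousWithinAt_const
        (mem_of_superset (nhdsWithin_le_nhds (isOpen_ball.mem_nhds hy.1)) fun z hz h0 =>
          sub_eq_zero.1 (hconst z hz h0))
    have h2 := ((h.loc y hy.1 hy.2).conic h0 habc (hU hy).1.1).2.1
    rw [← h1, rho, h2, ofReal_re, inv_inv]
  have hab' := sub_ne_zero.2 hab
  have hbc' := sub_ne_zero.2 hbc
  have hac' := sub_ne_zero.2 hac
  have hba' := sub_ne_zero.2 hab.symm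
  have hcb' := sub_ne_zero.2 hbc.symm
  have hca' := sub_ne_zero.2 hac.symm
  have hs : ∀ᶠ y in 𝓝[HH] p, y 0 = 0 →
      X y 0 ^ 2 = (((rho a b c X y₁).re)⁻¹ + b * c) / ((a - b) * (a - c)) ∧
      X y 1 ^ 2 = (((rho a b c X y₁).re)⁻¹ + a * c) / ((b - a) * (b - c)) ∧
      X y 2 ^ 2 = (((rho a b c X y₁).re)⁻¹ + a * b) / ((c - a) * (c - b)) := by
    filter_upwards [hr, hq, l.2] with y h1 h2 h3 h0
    obtain ⟨s1, s2, s3⟩ := squares_aux (h3.unit h0) (h2 h0) (h1 h0).symm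
    refine ⟨?_, ?_, ?_⟩
    · rw [← s1]; field_simp
    · rw [← s2]; field_simp
    · rw [← s3]; field_simp
  have g := l.good
  have d : ∀ j, dd (fun y => X y j) p (ee 1) = da X 1 p j := fun j => by
    rw [dd_eq (has_E3 g.smooth.has j) l.1]; rfl
  apply g.da_ne
  ext j
  fin_cases j
  · exact (d 0).symm.trans (sq_const hp (g.smooth.comp3 0) (hs.mono fun y hy h0 => (hy h0).1))
  · exact (d 1).symm.trans (sq_const hp (g.smooth.comp3 1) (hs.mono fun y hy h0 => (hy h0).2.1))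
  · exact (d 2).symm.trans (sq_const hp (g.smooth.comp3 2) (hs.mono fun y hy h0 => (hy h0).2.2))

end Loc

end Pool.Agent.MP_30dcea_gt

end MrgPart4

-- ======== part 5: formerly Pool.Agent.MP_30dcea_gt.Circ
section MrgPart5

/-!
Local steps for a boundary arc lying in a plane.
-/

open scoped Manifold ContDiff Topology NNReal
open Set Filter Metric Complex

namespace Pool.Agent.MP_30dcea_gt

variable {X : E2 → E3} {p : E2}

lemma Good.dd_comp {y : E2} (g : Good X y) (j : Fin 3) (v : E2) :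
    dd (fun z => X z j) y v = dd X y v j := by
  rw [dd_eq (has_E3 g.smooth.has j) g.mem]; rfl

namespace Loc

lemma plane (l : Loc X p) (hp : p 0 = 0) {a b c : ℝ}
    (hz : ∀ᶠ y in 𝓝[HH] p, y 0 = 0 → a * X y 0 + b * X y 1 + c * X y 2 = 0) :
    ∀ᶠ y in 𝓝[HH] p, a * X y 0 + b * X y 1 + c * X y 2 = 0 := by
  obtain ⟨W, k, e, r, h, hU⟩ := l.exists_pack' (eventually_eventually_nhdsWithin.2 hz)
  have := h.bu_first hp (F := fun y => a * W y 0 + b * W y 1 + c * W y 2)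
    (c := fun y => a * Phi X y 0 + b * Phi X y 1 + c * Phi X y 2)
    (fun y hy hH => (((((has_comp (h.der y hy hH) 0).const_mul (a : ℂ)).add
      ((has_comp (h.der y hy hH) 1).const_mul (b : ℂ))).add
      ((has_comp (h.der y hy hH) 2).const_mul (c : ℂ)))).congr_fderiv (by
        ext1 v; simp [-th_apply]; ring))
    (fun y hy h0 => by
      have hH : y ∈ HH := le_of_eq h0.symm
      have ly := h.loc y hy hH
      have hy' : ∀ᶠ z in 𝓝[HH] y, z 0 = 0 → a * X z 0 + b * X z 1 + c * X z 2 = 0 := hU ⟨hy, hH⟩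
      have h1 := tan_zero h0 ((((has_E3 ly.good.smooth.has 0).const_mul a).add
        ((has_E3 ly.good.smooth.has 1).const_mul b)).add
        ((has_E3 ly.good.smooth.has 2).const_mul c)) hy'
      have h2 := hy'.self_of_nhdsWithin hH h0
      simp at h1
      simp only [ly.Phi_bd h0, da]
      apply Complex.ext
      · simpa using h1
      · simp; linear_combination beta X y * h2)
  filter_upwards [h.ev_ball] with y hy
  have h1 := congrArg Complex.re (this y hy.1 hy.2)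
  simp [h.re] at h1
  rw [h1, hz.self_of_nhdsWithin l.1 hp]

lemma flat (l : Loc X p) (hp : p 0 = 0) {z₀ : ℝ} (hz : ∀ᶠ y in 𝓝[HH] p, y 0 = 0 → X y 2 = z₀) :
    da X 1 p 2 = 0 := tan_zero hp (has_E3 l.good.smooth.has 2) hz

lemma height_lt (l : Loc X p) (hp : p 0 = 0) {z₀ : ℝ}
    (hz : ∀ᶠ y in 𝓝[HH] p, y 0 = 0 → X y 2 = z₀) : z₀ ^ 2 < 1 := by
  by_contra hc
  have h : ∀ᶠ y in 𝓝[HH] p, y 0 = 0 → X y 0 = 0 ∧ X y 1 = 0 := by
    filter_upwards [hz, l.2] with y h1 h2 h0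
    have h3 := h2.unit h0
    rw [h1 h0] at h3
    constructor <;> nlinarith [sq_nonneg (X y 0), sq_nonneg (X y 1)]
  apply l.good.da_ne
  ext j
  fin_cases j
  · exact tan_zero hp (has_E3 l.good.smooth.has 0) (h.mono fun y hy h0 => (hy h0).1)
  · exact tan_zero hp (has_E3 l.good.smooth.has 1) (h.mono fun y hy h0 => (hy h0).2)
  · exact l.flat hp hz

lemma rot_sq (l : Loc X p) (hp : p 0 = 0) {z₀ R : ℝ} (hR : R ^ 2 = 1 - z₀ ^ 2)
    (hz : ∀ᶠ y in 𝓝[HH] p, y 0 = 0 → X y 2 = z₀) :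
    (X p 0 * da X 1 p 1 - X p 1 * da X 1 p 0) ^ 2 = R ^ 2 * beta X p ^ 2 := by
  have h1 := l.flat hp hz
  have h2 := l.orth hp
  have h3 := l.beta_sq hp
  have h4 := l.good.unit hp
  rw [hz.self_of_nhdsWithin l.1 hp] at h4
  rw [h1] at h2 h3
  rw [h3, hR, ← h4]
  linear_combination -(X p 0 * da X 1 p 0 + X p 1 * da X 1 p 1) * h2

lemma exists_sign (l : Loc X p) (hp : p 0 = 0) {z₀ R : ℝ} (hR : R ^ 2 = 1 - z₀ ^ 2) (hR0 : 0 < R)
    (hz : ∀ᶠ y in 𝓝[HH] p, y 0 = 0 → X y 2 = z₀) : ∃ η : ℝ, (η = 1 ∨ η = -1) ∧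
      ∀ᶠ y in 𝓝[HH] p, y 0 = 0 → R * da X 1 y 0 = -(η * beta X y * X y 1) ∧
        R * da X 1 y 1 = η * beta X y * X y 0 := by
  let J : E2 → ℝ := fun y => (X y 0 * da X 1 y 1 - X y 1 * da X 1 y 0) * beta X y
  have g := l.good
  have hJ : ContinuousWithinAt J HH p :=
    ((((g.smooth.comp3 0).mul ((g.sm_da 1).comp3 1)).sub
      ((g.smooth.comp3 1).mul ((g.sm_da 1).comp3 0))).mul g.sm_beta).continuousWithinAt
  have hJ0 : J p ≠ 0 := by
    refine mul_ne_zero (fun h0 => ?_) (l.beta_ne hp)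
    have := l.rot_sq hp hR hz
    rw [h0] at this
    have h1 := l.beta_ne hp
    have : 0 < R ^ 2 * beta X p ^ 2 := by positivity
    linarith
  obtain ⟨η, hη, hpos⟩ : ∃ η : ℝ, (η = 1 ∨ η = -1) ∧ 0 < η * J p := by
    rcases hJ0.lt_or_gt with h | h
    · exact ⟨-1, Or.inr rfl, by linarith⟩
    · exact ⟨1, Or.inl rfl, by linarith⟩
  refine ⟨η, hη, ?_⟩
  have hev : ∀ᶠ y in 𝓝[HH] p, 0 < η * J y :=
    (continuousWithinAt_const.mul hJ).eventually (lt_mem_nhds hpos)
  filter_upwards [hev, l.ev, eventually_eventually_nhdsWithin.2 hz] with y h1 h2 h3 h0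
  have e1 := h2.rot_sq h0 hR h3
  have e2 := h2.flat h0 h3
  have e3 := h2.orth h0
  have e4 := h2.good.unit h0
  have hη2 : η ^ 2 = 1 := by rcases hη with rfl | rfl <;> simp
  rw [h3.self_of_nhdsWithin h2.1 h0] at e4
  rw [e2] at e3
  have e5 : X y 0 * da X 1 y 1 - X y 1 * da X 1 y 0 = η * R * beta X y := by
    have : (X y 0 * da X 1 y 1 - X y 1 * da X 1 y 0 - η * R * beta X y) *
        (X y 0 * da X 1 y 1 - X y 1 * da X 1 y 0 + η * R * beta X y) = 0 := by
      linear_combination e1 - R ^ 2 * beta X y ^ 2 * hη2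
    rcases mul_eq_zero.1 this with h | h
    · linarith
    · exfalso
      have h5 : η * J y = -(R * beta X y ^ 2) := by
        simp only [J]
        linear_combination η * beta X y * h - R * beta X y ^ 2 * hη2
      have : 0 ≤ R * beta X y ^ 2 := by positivity
      linarith
  constructor
  · apply mul_left_cancel₀ hR0.ne'
    linear_combination da X 1 y 0 * hR - da X 1 y 0 * e4 + X y 0 * e3 - X y 1 * e5
  · apply mul_left_cancel₀ hR0.ne'
    linear_combination da X 1 y 1 * hR - da X 1 y 1 * e4 + X y 1 * e3 + X y 0 * e5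

lemma circ (l : Loc X p) (hp : p 0 = 0) {z₀ R : ℝ} (hz0 : z₀ ≠ 0) (hR : R ^ 2 = 1 - z₀ ^ 2)
    (hR0 : 0 < R) (hz : ∀ᶠ y in 𝓝[HH] p, y 0 = 0 → X y 2 = z₀) :
    ∀ᶠ y in 𝓝[HH] p, X y 0 ^ 2 + X y 1 ^ 2 = R ^ 2 * (Real.cosh ((X y 2 - z₀) / (R * z₀)) +
      R * Real.sinh ((X y 2 - z₀) / (R * z₀))) ^ 2 := by
  obtain ⟨η, hη, hs⟩ := l.exists_sign hp hR hR0 hz
  have hη2 : (η : ℂ) ^ 2 = 1 := by rcases hη with rfl | rfl <;> simp
  obtain ⟨W, k, e, r, h, hU⟩ := l.exists_pack' ((eventually_eventually_nhdsWithin.2 hz).and hs)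
  set κ : ℝ := η / (R * z₀) with hκ
  have hR' : (R : ℂ) ≠ 0 := by exact_mod_cast hR0.ne'
  have hz' : (z₀ : ℂ) ≠ 0 := by exact_mod_cast hz0
  have hκ' : (κ : ℂ) * (R * z₀) = η := by rw [hκ]; push_cast; field_simp
  let ξ : E2 → ℂ := fun y => X y 0 + I * X y 1
  -- boundary values
  have bd : ∀ y ∈ ball p r, y 0 = 0 → X y 2 = z₀ ∧ Phi X y 2 = I * beta X y * z₀ ∧
      R * (da X 1 y 0 + I * da X 1 y 1 : ℂ) = I * η * beta X y * ξ y ∧
      R * (Phi X y 0 + I * Phi X y 1) = I * beta X y * (η + R) * ξ y ∧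
      R * (Phi X y 0 - I * Phi X y 1) = I * beta X y * (R - η) * (starRingEnd ℂ) (ξ y) := by
    intro y hy h0
    have hH : y ∈ HH := le_of_eq h0.symm
    have ly := h.loc y hy hH
    obtain ⟨h1, h2⟩ := hU ⟨hy, hH⟩
    obtain ⟨h3, h4⟩ := h2 h0
    have h5 : X y 2 = z₀ := Filter.Eventually.self_of_nhdsWithin h1 hH h0
    have h6 := ly.flat h0 h1
    refine ⟨h5, ?_, ?_, ?_, ?_⟩
    · rw [ly.Phi_bd h0, h5, h6]; push_cast; ring
    · apply Complex.ext <;> simp [ξ] <;> linarith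
    · simp only [ly.Phi_bd h0]
      apply Complex.ext <;> simp [ξ] <;> linarith
    · simp only [ly.Phi_bd h0]
      apply Complex.ext <;> simp [ξ] <;> linarith
  have dξ : ∀ y ∈ ball p r, y ∈ HH → ∃ A : E2 →L[ℝ] ℂ, HasFDerivWithinAt ξ A HH y ∧
      A (ee 1) = da X 1 y 0 + I * da X 1 y 1 := fun y hy hH =>
    ⟨_, (ofRealCLM.hasFDerivAt.comp_hasFDerivWithinAt y
      (has_E3 (h.loc y hy hH).good.smooth.has 0)).add
      ((ofRealCLM.hasFDerivAt.comp_hasFDerivWithinAt y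
        (has_E3 (h.loc y hy hH).good.smooth.has 1)).const_mul I), by simp [da]⟩
  choose! A hA using dξ
  have dE : ∀ (s : ℂ), ∀ y ∈ ball p r, y ∈ HH → HasFDerivWithinAt (fun z => cexp (s * W z 2))
      ((th (mu X y)).smulRight (s * cexp (s * W y 2) * Phi X y 2)) HH y := fun s y hy hH =>
    ((has_comp (h.der y hy hH) 2).const_mul s).cexp.congr_fderiv (by
      ext1 v; simp [-th_apply]; ring)
  have hC := arc_const (F := fun y => ξ y * cexp (-κ * W y 2))
    (F' := fun y => ξ y • (th (mu X y)).smulRight (-κ * cexp (-κ * W y 2) * Phi X y 2) +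
      cexp (-κ * W y 2) • A y) hp fun y hy h0 => by
      have hH : y ∈ HH := le_of_eq h0.symm
      refine ⟨(hA y hy hH).1.mul (dE _ y hy hH), ?_⟩
      obtain ⟨-, b2, b3, -⟩ := bd y hy h0
      simp only [add_apply, smul_apply, ContinuousLinearMap.smulRight_apply, (hA y hy hH).2, b2,
        smul_eq_mul]
      apply mul_left_cancel₀ hR'
      have e1 : th (mu X y) (ee 1) = 1 := by simp
      rw [e1]
      linear_combination cexp (-κ * W y 2) * b3 - cexp (-κ * W y 2) * I * beta X y * ξ y * hκ'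
  set C : ℂ := ξ p * cexp (-κ * W p 2) with hCdef
  have hξ : ∀ y ∈ ball p r, y 0 = 0 → ξ y = C * cexp (κ * W y 2) := fun y hy h0 => by
    rw [← hC y hy h0, mul_assoc, ← Complex.exp_add]; simp
  have hbar : ∀ y, cexp (2 * κ * z₀) * (starRingEnd ℂ) (cexp (-κ * W y 2)) =
      cexp (κ * W y 2) * cexp (2 * κ * (z₀ - X y 2)) := fun y => by
    rw [← Complex.exp_conj, ← Complex.exp_add, ← Complex.exp_add]
    congr 1
    apply Complex.ext <;> simp [h.re] <;> ring
  have hξ' : ∀ y ∈ ball p r, y 0 = 0 →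
      (starRingEnd ℂ) (ξ y) = (starRingEnd ℂ) C * cexp (2 * κ * z₀) * cexp (-κ * W y 2) :=
    fun y hy h0 => by
      rw [hξ y hy h0, map_mul, mul_assoc, ← Complex.exp_conj, ← Complex.exp_add]
      congr 2
      apply Complex.ext <;> simp [h.re, (bd y hy h0).1] <;> ring
  have F1 := h.bu_first hp (F := fun y => W y 0 + I * W y 1 - (1 + η * R) * C * cexp (κ * W y 2))
    (c := fun y => Phi X y 0 + I * Phi X y 1 -
      (1 + η * R) * C * (κ * cexp (κ * W y 2) * Phi X y 2))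
    (fun y hy hH => (((has_comp (h.der y hy hH) 0).add
      ((has_comp (h.der y hy hH) 1).const_mul I)).sub
      ((dE _ y hy hH).const_mul ((1 + η * R) * C))).congr_fderiv (by
        ext1 v; simp [-th_apply]; ring))
    (fun y hy h0 => by
      obtain ⟨-, b2, -, b4, -⟩ := bd y hy h0
      apply mul_left_cancel₀ hR'
      simp only [b2]
      rw [hξ y hy h0] at b4
      linear_combination b4 - (1 + η * R) * C * cexp (κ * W y 2) * I * beta X y * hκ' -
        R * C * cexp (κ * W y 2) * I * beta X y * hη2)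
  have F2 := h.bu_first hp (F := fun y => W y 0 - I * W y 1 -
      (1 - η * R) * ((starRingEnd ℂ) C * cexp (2 * κ * z₀)) * cexp (-κ * W y 2))
    (c := fun y => Phi X y 0 - I * Phi X y 1 -
      (1 - η * R) * ((starRingEnd ℂ) C * cexp (2 * κ * z₀)) * (-κ * cexp (-κ * W y 2) * Phi X y 2))
    (fun y hy hH => (((has_comp (h.der y hy hH) 0).sub
      ((has_comp (h.der y hy hH) 1).const_mul I)).sub
      ((dE _ y hy hH).const_mul
        ((1 - η * R) * ((starRingEnd ℂ) C * cexp (2 * κ * z₀))))).congr_fderiv (by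
        ext1 v; simp [-th_apply]; ring))
    (fun y hy h0 => by
      obtain ⟨-, b2, -, -, b5⟩ := bd y hy h0
      apply mul_left_cancel₀ hR'
      simp only [b2]
      rw [hξ' y hy h0] at b5
      linear_combination b5 + (1 - η * R) * ((starRingEnd ℂ) C * cexp (2 * κ * z₀)) *
        cexp (-κ * W y 2) * I * beta X y * hκ' - R * ((starRingEnd ℂ) C * cexp (2 * κ * z₀)) *
        cexp (-κ * W y 2) * I * beta X y * hη2)
  have hpb : p ∈ ball p r := mem_ball_self h.hc.pos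
  have two : ∀ y, W y 0 + I * W y 1 + (starRingEnd ℂ) (W y 0 - I * W y 1) = 2 * ξ y := fun y => by
    apply Complex.ext <;> simp [ξ, h.re] <;> ring
  have main : ∀ y, (W y 0 + I * W y 1 - (1 + η * R) * C * cexp (κ * W y 2)) +
      (starRingEnd ℂ) (W y 0 - I * W y 1 -
        (1 - η * R) * ((starRingEnd ℂ) C * cexp (2 * κ * z₀)) * cexp (-κ * W y 2)) =
      2 * ξ y - C * cexp (κ * W y 2) *
        ((1 + η * R) + (1 - η * R) * cexp (2 * κ * (z₀ - X y 2))) := fun y => by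
    have e1 : (starRingEnd ℂ) (cexp (2 * κ * z₀)) = cexp (2 * κ * z₀) := by
      rw [← Complex.exp_conj]; simp [map_ofNat]
    rw [map_sub, map_mul, map_mul, map_mul, e1, conj_conj, ← two y]
    simp only [map_sub, map_mul, map_one, conj_ofReal]
    linear_combination -(1 - η * R) * C * hbar y
  filter_upwards [h.ev_ball] with y hy
  have m1 := main y
  have f1 := F1 y hy.1 hy.2
  have f2 := F2 y hy.1 hy.2
  rw [f1, f2, main p, (bd p hpb hp).1, ← hξ p hpb hp] at m1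
  simp only [sub_self, mul_zero, Complex.exp_zero] at m1
  have m2 : 2 * ξ y = C * cexp (κ * W y 2) *
      (((1 + η * R) + (1 - η * R) * Real.exp (2 * κ * (z₀ - X y 2)) : ℝ) : ℂ) := by
    push_cast
    linear_combination -m1
  have n1 : normSq (ξ y) = X y 0 ^ 2 + X y 1 ^ 2 := by simp [ξ, normSq_apply]; ring
  have n2 : normSq (ξ p) = R ^ 2 := by
    have := l.good.unit hp
    rw [(bd p hpb hp).1] at this
    simp [ξ, normSq_apply]; linarith
  have n3 : ∀ s : ℂ, normSq (cexp s) = Real.exp s.re ^ 2 := fun s => by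
    rw [normSq_eq_norm_sq, norm_exp]
  have m3 := congrArg normSq m2
  rw [map_mul, map_mul, map_mul, hCdef, map_mul, n1, n2, n3, n3, normSq_ofReal] at m3
  simp [h.re, (bd p hpb hp).1] at m3
  set t : ℝ := (X y 2 - z₀) / (R * z₀) with ht
  have q1 : Real.exp (-(κ * z₀)) * Real.exp (κ * X y 2) = Real.exp (η * t) := by
    rw [← Real.exp_add, hκ, ht]; congr 1; ring
  have q2 : Real.exp (2 * κ * (z₀ - X y 2)) * Real.exp (η * t) = Real.exp (-(η * t)) := by
    rw [← Real.exp_add, hκ, ht]; congr 1; ring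
  have q3 : (1 + η * R) * Real.exp (η * t) + (1 - η * R) * Real.exp (-(η * t)) =
      2 * (Real.cosh t + R * Real.sinh t) := by
    rw [Real.cosh_eq, Real.sinh_eq]
    rcases hη with rfl | rfl
    · simp; ring
    · simp; ring
  have q4 : Real.exp (-(κ * z₀)) * Real.exp (κ * X y 2) *
      (1 + η * R + (1 - η * R) * Real.exp (2 * κ * (z₀ - X y 2))) =
      2 * (Real.cosh t + R * Real.sinh t) := by
    rw [q1, ← q3, ← q2]; ring
  have q5 : 4 * (X y 0 ^ 2 + X y 1 ^ 2) = R ^ 2 * (2 * (Real.cosh t + R * Real.sinh t)) ^ 2 := by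
    rw [← q4]
    linear_combination m3
  linear_combination q5 / 4

end Loc

end Pool.Agent.MP_30dcea_gt

end MrgPart5

-- marker of a merged file
example : 731051 + 399552 = 731051 + 399552 := rfl
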