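import Mathlib.Analysis.SpecialFunctions.Trigonometric.DerivHyp
import Mathlib.Analysis.InnerProductSpace.Spectrum
import Mathlib.Topology.Separation.Connected
import Mathlib.Geometry.Manifold.Sheaf.Basic
import Pool.Agent.MP_30dcea_gt.Circ

-- ======== part 0: formerly Pool.Agent.MP_30dcea_gt.Open
section MrgPart0

/-!
Local openness of the immersion along a circle and along a catenoid.
-/

open scoped Manifold ContDiff Topology NNReal
open Set Filter Metric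

namespace Pool.Agent.MP_30dcea_gt

variable {X : E2 → E3} {p : E2}

lemma circle_eq {x₀ y₀ a b a' b' R : ℝ} (hR : 0 < R) (h0 : x₀ ^ 2 + y₀ ^ 2 = R ^ 2)
    (h1 : a ^ 2 + b ^ 2 = R ^ 2) (h2 : a' ^ 2 + b' ^ 2 = R ^ 2)
    (hc : x₀ * b - y₀ * a = x₀ * b' - y₀ * a') (hd : 0 < x₀ * a + y₀ * b)
    (hd' : 0 < x₀ * a' + y₀ * b') : a = a' ∧ b = b' := by
  have e : (x₀ * a + y₀ * b) ^ 2 = (x₀ * a' + y₀ * b') ^ 2 := by
    linear_combination (x₀ ^ 2 + y₀ ^ 2) * (h1 - h2) -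
      (x₀ * b - y₀ * a + (x₀ * b' - y₀ * a')) * hc
  have e' := (pow_left_inj₀ hd.le hd'.le two_ne_zero).1 e
  have hR2 : R ^ 2 ≠ 0 := by positivity
  constructor
  · apply mul_left_cancel₀ hR2
    linear_combination x₀ * e' - y₀ * hc - (a - a') * h0
  · apply mul_left_cancel₀ hR2
    linear_combination y₀ * e' + x₀ * hc - (b - b') * h0

lemma Loc.circle_open (l : Loc X p) (hp : p 0 = 0) {z₀ R θ₀ : ℝ} (hR : R ^ 2 = 1 - z₀ ^ 2)
    (hR0 : 0 < R) (hz : ∀ᶠ y in 𝓝[HH] p, y 0 = 0 → X y 2 = z₀)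
    (h0 : X p 0 = R * Real.cos θ₀) (h1 : X p 1 = R * Real.sin θ₀) {P : E2 → Prop}
    (hP : ∀ᶠ y in 𝓝[HH] p, P y) :
    ∀ᶠ θ in 𝓝 θ₀, ∃ y, P y ∧ y 0 = 0 ∧ X y 0 = R * Real.cos θ ∧ X y 1 = R * Real.sin θ := by
  have g := l.good
  have hl := tendsto_line hp
  have hs : HasStrictDerivAt (fun s : ℝ => X p 0 * X (p + s • ee 1) 1 - X p 1 * X (p + s • ee 1) 0)
      (X p 0 * da X 1 (p + (0 : ℝ) • ee 1) 1 - X p 1 * da X 1 (p + (0 : ℝ) • ee 1) 0) 0 := by
    refine hasStrictDerivAt_of_hasDerivAt_of_continuousAt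
      (f' := fun s : ℝ => X p 0 * da X 1 (p + s • ee 1) 1 - X p 1 * da X 1 (p + s • ee 1) 0)
      ((hl.eventually l.2).mono fun s hs => ?_) ?_
    · exact ((hasDerivAt_line hp s (has_E3 hs.smooth.has 1)).const_mul _).sub
        ((hasDerivAt_line hp s (has_E3 hs.smooth.has 0)).const_mul _)
    · have c : ContinuousWithinAt (fun y => X p 0 * da X 1 y 1 - X p 1 * da X 1 y 0) HH p :=
        (continuousWithinAt_const.mul ((g.sm_da 1).comp3 1).continuousWithinAt).sub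
          (continuousWithinAt_const.mul ((g.sm_da 1).comp3 0).continuousWithinAt)
      have := c.tendsto.comp hl
      simpa [ContinuousAt, Function.comp_def] using this
  have hne : X p 0 * da X 1 (p + (0 : ℝ) • ee 1) 1 - X p 1 * da X 1 (p + (0 : ℝ) • ee 1) 0 ≠ 0 := by
    intro h
    have := l.rot_sq hp hR hz
    simp only [zero_smul, add_zero] at h
    rw [h] at this
    have h1 := l.beta_ne hp
    have : 0 < R ^ 2 * beta X p ^ 2 := by positivity
    linarith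
  have hm := hs.map_nhds_eq hne
  have hsq : X p 0 ^ 2 + X p 1 ^ 2 = R ^ 2 := by
    rw [h0, h1]; linear_combination R ^ 2 * Real.cos_sq_add_sin_sq θ₀
  have hpos : ∀ᶠ y in 𝓝[HH] p, 0 < X p 0 * X y 0 + X p 1 * X y 1 := by
    have c : ContinuousWithinAt (fun y => X p 0 * X y 0 + X p 1 * X y 1) HH p :=
      (continuousWithinAt_const.mul (g.smooth.comp3 0).continuousWithinAt).add
        (continuousWithinAt_const.mul (g.smooth.comp3 1).continuousWithinAt)
    exact c.eventually (lt_mem_nhds (by nlinarith))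
  have hS := image_mem_map (m := fun s : ℝ => X p 0 * X (p + s • ee 1) 1 - X p 1 * X (p + s • ee 1) 0)
    (hl.eventually (((hP.and hz).and l.2).and hpos))
  rw [hm] at hS
  have t1 : Tendsto (fun θ => X p 0 * (R * Real.sin θ) - X p 1 * (R * Real.cos θ)) (𝓝 θ₀)
      (𝓝 (X p 0 * X (p + (0 : ℝ) • ee 1) 1 - X p 1 * X (p + (0 : ℝ) • ee 1) 0)) := by
    have : Continuous fun θ => X p 0 * (R * Real.sin θ) - X p 1 * (R * Real.cos θ) := by fun_prop
    simpa [← h0, ← h1] using this.tendsto θ₀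
  have t2 : ∀ᶠ θ in 𝓝 θ₀, 0 < X p 0 * (R * Real.cos θ) + X p 1 * (R * Real.sin θ) := by
    have : Continuous fun θ => X p 0 * (R * Real.cos θ) + X p 1 * (R * Real.sin θ) := by fun_prop
    exact this.continuousAt.eventually (lt_mem_nhds (by simp only [← h0, ← h1]; nlinarith))
  filter_upwards [t1.eventually hS, t2] with θ ⟨s, ⟨⟨⟨a1, a2⟩, a3⟩, a4⟩, a5⟩ a6
  have b0 := line_zero hp s
  have b1 := a3.unit b0
  rw [a2 b0] at b1
  exact ⟨_, a1, b0, circle_eq hR0 hsq (by linarith)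
    (by linear_combination R ^ 2 * Real.cos_sq_add_sin_sq θ) a5 a4 a6⟩

lemma cat_inj {c x y s x' y' s' : ℝ} (hc : 0 < c) (h : x ^ 2 + y ^ 2 = c ^ 2 * Real.cosh s ^ 2)
    (h' : x' ^ 2 + y' ^ 2 = c ^ 2 * Real.cosh s' ^ 2) (e1 : x * Real.exp s = x' * Real.exp s')
    (e2 : y * Real.exp s = y' * Real.exp s') : x = x' ∧ y = y' ∧ s = s' := by
  have k : ∀ t, Real.cosh t * Real.exp t = (Real.exp t ^ 2 + 1) / 2 := fun t => by
    rw [Real.cosh_eq, Real.exp_neg]; field_simp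
  have e3 : c ^ 2 * (Real.cosh s * Real.exp s) ^ 2 = c ^ 2 * (Real.cosh s' * Real.exp s') ^ 2 := by
    linear_combination -Real.exp s ^ 2 * h + Real.exp s' ^ 2 * h' +
      (x * Real.exp s + x' * Real.exp s') * e1 + (y * Real.exp s + y' * Real.exp s') * e2
  have e4 := (pow_left_inj₀ (by positivity) (by positivity) two_ne_zero).1
    (mul_left_cancel₀ (by positivity) e3)
  rw [k, k] at e4
  have e5 : Real.exp s = Real.exp s' :=
    (pow_left_inj₀ (by positivity) (by positivity) two_ne_zero).1 (by linarith)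
  rw [e5] at e1 e2
  exact ⟨mul_right_cancel₀ (Real.exp_pos _).ne' e1, mul_right_cancel₀ (Real.exp_pos _).ne' e2,
    Real.exp_injective e5⟩

lemma Loc.cat_open (l : Loc X p) (hp : 0 < p 0) {c : ℝ} (hc : 0 < c)
    (hz : ∀ᶠ y in 𝓝[HH] p, X y 0 ^ 2 + X y 1 ^ 2 = c ^ 2 * Real.cosh (X y 2 / c) ^ 2)
    {q : ℝ × ℝ} (h0 : X p 0 = c * (Real.cosh q.1 * Real.cos q.2))
    (h1 : X p 1 = c * (Real.cosh q.1 * Real.sin q.2)) (h2 : X p 2 = c * q.1) {P : E2 → Prop}
    (hP : ∀ᶠ y in 𝓝[HH] p, P y) :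
    ∀ᶠ q' in 𝓝 q, ∃ y, P y ∧ X y 0 = c * (Real.cosh q'.1 * Real.cos q'.2) ∧
      X y 1 = c * (Real.cosh q'.1 * Real.sin q'.2) ∧ X y 2 = c * q'.1 := by
  have g := l.good
  rw [nhdsWithin_HH hp] at hz hP
  have d : ∀ j, HasFDerivAt (fun y => X y j)
      ((EuclideanSpace.proj j : E3 →L[ℝ] ℝ).comp (dd X p)) p := fun j =>
    (has_E3 g.smooth.has j).hasFDerivAt (HH_mem_nhds hp)
  have s : ∀ j, ContDiffAt ℝ ∞ (fun y => X y j) p := fun j =>
    (g.smooth.comp3 j).contDiffAt (HH_mem_nhds hp)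
  let G : E2 → ℝ × ℝ := fun y => (X y 0 * Real.exp (X y 2 / c), X y 1 * Real.exp (X y 2 / c))
  have hG : ContDiffAt ℝ ∞ G p :=
    ((s 0).mul ((s 2).div_const c).exp).prodMk ((s 1).mul ((s 2).div_const c).exp)
  have d2 : HasFDerivAt (fun y => X y 2 / c)
      (c⁻¹ • (EuclideanSpace.proj 2 : E3 →L[ℝ] ℝ).comp (dd X p)) p := by
    simpa only [div_eq_mul_inv] using (d 2).mul_const c⁻¹
  have hG' := ((d 0).mul d2.exp).prodMk ((d 1).mul d2.exp)
  have hcon := (((d 0).mul (d 0)).add ((d 1).mul (d 1))).unique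
    (((d2.cosh.mul d2.cosh).const_mul (c ^ 2)).congr_of_eventuallyEq
      (hz.mono fun y hy => by simp only [Pi.add_apply, Pi.mul_apply]; linear_combination hy))
  have hinj : Function.Injective (fderiv ℝ G p : E2 →ₗ[ℝ] ℝ × ℝ) := by
    refine (injective_iff_map_eq_zero _).2 fun v hv => g.inj v ?_
    have e : fderiv ℝ G p = _ := hG'.fderiv
    rw [e] at hv
    have a1 := congrArg (fun A : E2 →L[ℝ] ℝ => A v) hcon
    have a4 := hz.self_of_nhds
    have hE := Real.exp_pos (X p 2 / c)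
    have hch := Real.cosh_pos (X p 2 / c)
    have a5 := Real.cosh_add_sinh (X p 2 / c)
    simp at hv a1
    obtain ⟨a2, a3⟩ := hv
    have b2 : dd X p v 0 = -(X p 0 * c⁻¹ * dd X p v 2) := by
      apply mul_left_cancel₀ hE.ne'
      linear_combination a2
    have b3 : dd X p v 1 = -(X p 1 * c⁻¹ * dd X p v 2) := by
      apply mul_left_cancel₀ hE.ne'
      linear_combination a3
    have b4 : 2 * c * Real.cosh (X p 2 / c) * Real.exp (X p 2 / c) * dd X p v 2 = 0 := by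
      rw [b2, b3] at a1
      rw [← a5]
      field_simp at a1
      apply mul_left_cancel₀ hc.ne'
      linear_combination -a1 - 2 * dd X p v 2 * a4
    have b5 : dd X p v 2 = 0 := (mul_eq_zero.1 b4).resolve_left (by positivity)
    ext j
    fin_cases j <;> simp [b2, b3, b5]
  have hfin : Module.finrank ℝ E2 = Module.finrank ℝ (ℝ × ℝ) := by simp
  let L : E2 ≃L[ℝ] ℝ × ℝ := (LinearMap.linearEquivOfInjective _ hinj hfin).toContinuousLinearEquiv
  have hL : (L : E2 →L[ℝ] ℝ × ℝ) = fderiv ℝ G p := by ext1 v; rfl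
  have hst : HasStrictFDerivAt G (L : E2 →L[ℝ] ℝ × ℝ) p := hL ▸ hG.hasStrictFDerivAt (by simp)
  have hS := image_mem_map (m := G) (hP.and hz)
  rw [hst.map_nhds_eq_of_equiv] at hS
  have t1 : Tendsto (fun q' : ℝ × ℝ => (c * (Real.cosh q'.1 * Real.cos q'.2) * Real.exp q'.1,
      c * (Real.cosh q'.1 * Real.sin q'.2) * Real.exp q'.1)) (𝓝 q) (𝓝 (G p)) := by
    have : Continuous fun q' : ℝ × ℝ => (c * (Real.cosh q'.1 * Real.cos q'.2) * Real.exp q'.1,
      c * (Real.cosh q'.1 * Real.sin q'.2) * Real.exp q'.1) := by fun_prop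
    have e : X p 2 / c = q.1 := by rw [h2]; field_simp
    simpa [G, h0, h1, e] using this.tendsto q
  filter_upwards [t1.eventually hS] with q' ⟨y, ⟨a1, a2⟩, a3⟩
  simp only [G, Prod.mk.injEq] at a3
  obtain ⟨b1, b2, b3⟩ := cat_inj hc a2
    (by linear_combination c ^ 2 * Real.cosh q'.1 ^ 2 * Real.cos_sq_add_sin_sq q'.2) a3.1 a3.2
  exact ⟨y, a1, b1, b2, by rw [← b3]; field_simp⟩

end Pool.Agent.MP_30dcea_gt

end MrgPart0

-- ======== part 1: formerly Pool.Agent.MP_30dcea_gt.Global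
section MrgPart1

/-!
From charts to the surface: propagation of identities and the noncircular case.
-/

open scoped Manifold ContDiff Topology NNReal
open Set Filter Metric

namespace Pool.Agent.MP_30dcea_gt

universe u

variable {N : Type u} [TopologicalSpace N] [ChartedSpace (EuclideanHalfSpace 2) N]

/-- The chart at `x₀`. -/
noncomputable abbrev ch (x₀ : N) : PartialEquiv N E2 := extChartAt I2 x₀

lemma target_HH {x₀ : N} {y : E2} (hy : y ∈ (ch x₀).target) : y ∈ HH :=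
  range_I2 ▸ extChartAt_target_subset_range x₀ hy

lemma target_nhds {x₀ : N} {y : E2} (hy : y ∈ (ch x₀).target) : (ch x₀).target ∈ 𝓝[HH] y :=
  range_I2 ▸ extChartAt_target_mem_nhdsWithin_of_mem hy

lemma ctr_mem (x : N) : ch x x ∈ (ch x).target := mem_extChartAt_target x

lemma param_ctr (x : N) : param x (ch x x) = x := extChartAt_to_inv x

lemma param_ch {x₀ x : N} (hx : x ∈ (ch x₀).source) : param x₀ (ch x₀ x) = x := (ch x₀).left_inv hx

lemma ev_iff {x₀ x : N} (hx : x ∈ (ch x₀).source) (P : N → Prop) :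
    (∀ᶠ x' in 𝓝 x, P x') ↔ ∀ᶠ y in 𝓝[HH] (ch x₀ x), P (param x₀ y) := by
  rw [← map_extChartAt_symm_nhdsWithin_range' hx, range_I2, eventually_map]; rfl

lemma ev_ctr (x : N) (P : N → Prop) :
    (∀ᶠ x' in 𝓝 x, P x') ↔ ∀ᶠ y in 𝓝[HH] (ch x x), P (param x y) :=
  ev_iff (mem_extChartAt_source x) P

lemma tendsto_ch {x₀ x : N} (hx : x ∈ (ch x₀).source) :
    Tendsto (ch x₀) (𝓝 x) (𝓝[HH] (ch x₀ x)) := by
  rw [← range_I2, ← map_extChartAt_nhds' hx]; exact tendsto_map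

lemma mem_interior_target {x₀ : N} {y : E2} (hy : y ∈ (ch x₀).target) :
    y ∈ interior (ch x₀).target ↔ 0 < y 0 := by
  constructor
  · intro h
    have := interior_mono (extChartAt_target_subset_range x₀) h
    rwa [interior_range_modelWithCornersEuclideanHalfSpace] at this
  · intro h
    rw [mem_interior_iff_mem_nhds, ← nhdsWithin_HH h]
    exact target_nhds hy

variable [IsManifold I2 ∞ N]

lemma int_iff {x₀ : N} {y : E2} (hy : y ∈ (ch x₀).target) :
    param x₀ y ∉ I2.boundary N ↔ 0 < y 0 := by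
  have hx : param x₀ y ∈ (chartAt (EuclideanHalfSpace 2) x₀).source := by
    rw [← extChartAt_source I2]; exact (ch x₀).map_target hy
  have := I2.isInteriorPoint_iff_of_mem_atlas (n := ∞) (by simp) (chart_mem_atlas _ x₀) hx
  rw [I2.isInteriorPoint_iff_not_isBoundaryPoint] at this
  refine this.trans ?_
  rw [← mem_interior_target hy]
  have e : ch x₀ (param x₀ y) = y := (ch x₀).right_inv hy
  change ch x₀ (param x₀ y) ∈ interior (ch x₀).target ↔ _
  rw [e]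

lemma bd_iff {x₀ : N} {y : E2} (hy : y ∈ (ch x₀).target) :
    param x₀ y ∈ I2.boundary N ↔ y 0 = 0 := by
  rw [← not_iff_not, int_iff hy]
  have : 0 ≤ y 0 := target_HH hy
  exact ⟨fun h => h.ne', fun h => lt_of_le_of_ne this (Ne.symm h)⟩

lemma bd_ctr (x : N) : x ∈ I2.boundary N ↔ ch x x 0 = 0 := by
  rw [← bd_iff (ctr_mem x), param_ctr]

lemma int_ctr (x : N) : x ∉ I2.boundary N ↔ 0 < ch x x 0 := by
  rw [← int_iff (ctr_mem x), param_ctr]

lemma ev_bd {x₀ : N} {y : E2} (hy : y ∈ (ch x₀).target) {P : N → Prop}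
    (h : ∀ x ∈ I2.boundary N, P x) : ∀ᶠ z in 𝓝[HH] y, z 0 = 0 → P (param x₀ z) :=
  mem_of_superset (target_nhds hy) fun _ hz h0 => h _ ((bd_iff hz).2 h0)

/-- Propagation of a property satisfying a local identity principle. -/
lemma propagate [ConnectedSpace N] (P : N → Prop) (Q : N → E2 → Prop)
    (hPQ : ∀ x₀, ∀ y ∈ (ch x₀).target, 0 < y 0 → (P (param x₀ y) ↔ Q x₀ y))
    (hid : ∀ x₀, ∀ᶠ y in 𝓝[HH] (ch x₀ x₀), (∀ᶠ z in 𝓝[HH] y, 0 < z 0 → Q x₀ z) →
      ∀ᶠ z in 𝓝[HH] (ch x₀ x₀), 0 < z 0 → Q x₀ z)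
    (h : ∃ x₀, ∀ᶠ z in 𝓝[HH] (ch x₀ x₀), 0 < z 0 → Q x₀ z) (x : N) :
    ∀ᶠ z in 𝓝[HH] (ch x x), 0 < z 0 → Q x z := by
  have key : ∀ x₀ x, x ∈ (ch x₀).source → ((∀ᶠ x' in 𝓝 x, x' ∉ I2.boundary N → P x') ↔
      ∀ᶠ z in 𝓝[HH] (ch x₀ x), 0 < z 0 → Q x₀ z) := by
    intro x₀ x hx
    rw [ev_iff hx]
    refine eventually_congr (mem_of_superset (target_nhds ((ch x₀).map_source hx)) fun z hz => ?_)
    simp only [mem_ofPred_eq, int_iff hz]
    exact forall_congr' fun h0 => hPQ x₀ z hz h0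
  have hclo : IsClopen {x : N | ∀ᶠ x' in 𝓝 x, x' ∉ I2.boundary N → P x'} := by
    refine ⟨isClosed_iff_frequently.2 fun x₀ hx₀ => ?_, isOpen_setOfPred_eventually_nhds⟩
    have hs := mem_extChartAt_source (I := I2) x₀
    obtain ⟨x, ⟨h1, h2⟩, h3⟩ := ((hx₀.and_eventually (extChartAt_source_mem_nhds (I := I2) x₀)).and_eventually
      ((tendsto_ch hs).eventually (hid x₀))).exists
    exact (key x₀ x₀ hs).2 (h3 ((key x₀ x h2).1 h1))
  obtain ⟨x₀, hx₀⟩ := h
  have := hclo.eq_univ ⟨x₀, (key x₀ x₀ (mem_extChartAt_source x₀)).2 hx₀⟩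
  exact (key x x (mem_extChartAt_source x)).1 (eq_univ_iff_forall.1 this x)

/-- The immersion is good in every chart. -/
def Nice (Ψ : N → E3) : Prop := ∀ x₀ : N, ∀ y ∈ (ch x₀).target, Good (Ψ ∘ param x₀) y

namespace Nice

variable {Ψ : N → E3}

omit [IsManifold I2 ∞ N] in
lemma loc (h : Nice Ψ) {x₀ : N} {y : E2} (hy : y ∈ (ch x₀).target) : Loc (Ψ ∘ param x₀) y :=
  ⟨target_HH hy, mem_of_superset (target_nhds hy) fun z hz => h x₀ z hz⟩

omit [IsManifold I2 ∞ N] in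
lemma ctr (h : Nice Ψ) (x : N) : Loc (Ψ ∘ param x) (ch x x) := h.loc (ctr_mem x)

omit [IsManifold I2 ∞ N] in
lemma continuous (h : Nice Ψ) : Continuous Ψ := by
  refine continuous_iff_continuousAt.2 fun x => ?_
  have h1 := (h.ctr x).good.smooth.continuousWithinAt.tendsto.comp
    (tendsto_ch (mem_extChartAt_source x))
  simp only [Function.comp_apply, param_ctr] at h1
  refine h1.congr' (mem_of_superset (extChartAt_source_mem_nhds (I := I2) x) fun z hz => ?_)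
  simp only [mem_ofPred_eq, Function.comp_apply, param_ch hz]

lemma rel (h : Nice Ψ) {x₀ : N} {y : E2} (hy : y ∈ (ch x₀).target) (h0 : 0 < y 0) :
    Rel (Phi (Ψ ∘ param x₀) y) (KK (Ψ ∘ param x₀) y)
      (Phi (Ψ ∘ param (param x₀ y)) (ch (param x₀ y) (param x₀ y)))
      (KK (Ψ ∘ param (param x₀ y)) (ch (param x₀ y) (param x₀ y))) := by
  set x := param x₀ y with hx
  have hxs : x ∈ (ch x₀).source := (ch x₀).map_target hy
  have h1 : 0 < ch x x 0 := (int_ctr x).1 ((int_iff hy).2 h0)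
  have h2 : ∀ᶠ z in 𝓝 (ch x x), param x z ∈ (ch x₀).source := by
    rw [← nhdsWithin_HH h1]
    exact (ev_ctr x _).1 (extChartAt_source_mem_nhds' hxs)
  have h3 : ((ch x).symm ≫ ch x₀).source ∈ 𝓝 (ch x x) := by
    rw [PartialEquiv.trans_source]
    refine inter_mem ?_ h2
    rw [← nhdsWithin_HH h1]
    exact target_nhds (ctr_mem x)
  refine inv (ψ := ch x₀ ∘ param x) (h.loc hy) (h.ctr x) h0 h1 ?_ ?_ ?_
  · filter_upwards [eventually_mem_nhds_iff.2 h3] with z hz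
    exact ((contDiffOn_ext_coord_change (I := I2) (n := ∞) x₀ x).contDiffAt hz).differentiableAt
      (by simp)
  · rw [Function.comp_apply, param_ctr]
    exact (ch x₀).right_inv hy
  · filter_upwards [h2] with z hz
    simp only [Function.comp_apply, param_ch hz]

lemma prop_X [ConnectedSpace N] (h : Nice Ψ) (f : ℝ × ℝ × ℝ → ℝ) (hf : ∀ u, AnalyticAt ℝ f u)
    {x₀ : N} (h0 : ∀ᶠ x in 𝓝 x₀, f (Ψ x 0, Ψ x 1, Ψ x 2) = 0) (x : N) :
    f (Ψ x 0, Ψ x 1, Ψ x 2) = 0 := by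
  have := propagate (fun x => f (Ψ x 0, Ψ x 1, Ψ x 2) = 0)
    (fun x₀ y => f ((Ψ ∘ param x₀) y 0, (Ψ ∘ param x₀) y 1, (Ψ ∘ param x₀) y 2) = 0)
    (fun _ _ _ _ => Iff.rfl) (fun x₀ => (h.ctr x₀).identity_X f hf)
    ⟨x₀, ((ev_ctr x₀ _).1 h0).mono fun _ hz _ => hz⟩ x
  have g := (h.ctr x).good
  have e := eq_of_interior (f := fun y =>
    f ((Ψ ∘ param x) y 0, (Ψ ∘ param x) y 1, (Ψ ∘ param x) y 2)) (g := fun _ => 0) g.mem
    ((hf _).continuousAt.comp_continuousWithinAt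
      ((g.smooth.comp3 0).continuousWithinAt.prodMk
        ((g.smooth.comp3 1).continuousWithinAt.prodMk (g.smooth.comp3 2).continuousWithinAt)))
    continuousWithinAt_const this
  simpa only [Function.comp_apply, param_ctr] using e

/-- The boundary does not lie on a noncircular, nondegenerate cone. -/
lemma noncirc [ConnectedSpace N] [CompactSpace N] (h : Nice Ψ) (hB : (I2.boundary N).Nonempty)
    {a b c : ℝ} (hab : a ≠ b) (hbc : b ≠ c) (hac : a ≠ c) (habc : a * b * c ≠ 0)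
    (hq : ∀ x ∈ I2.boundary N, a * Ψ x 0 ^ 2 + b * Ψ x 1 ^ 2 + c * Ψ x 2 ^ 2 = 0) : False := by
  obtain ⟨x₁, hx₁⟩ := hB
  have hx₁0 := (bd_ctr x₁).1 hx₁
  have hq' : ∀ x₀, ∀ y ∈ (ch x₀).target, ∀ᶠ z in 𝓝[HH] y, z 0 = 0 →
      a * (Ψ ∘ param x₀) z 0 ^ 2 + b * (Ψ ∘ param x₀) z 1 ^ 2 + c * (Ψ ∘ param x₀) z 2 ^ 2 = 0 :=
    fun x₀ y hy => ev_bd hy hq
  have hE := propagate
    (fun x => Erel a b c (Phi (Ψ ∘ param x) (ch x x)) (KK (Ψ ∘ param x) (ch x x)) = 0)
    (fun x₀ y => Erel a b c (Phi (Ψ ∘ param x₀) y) (KK (Ψ ∘ param x₀) y) = 0)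
    (fun _ _ hy h0 => (h.rel hy h0).erel a b c) (fun x₀ => (h.ctr x₀).identity_Erel a b c)
    ⟨x₁, ((h.ctr x₁).Erel_near hx₁0 habc (hq' _ _ (ctr_mem x₁))).mono fun _ hz _ => hz⟩
  have hQ : ∀ x₀, ∀ y ∈ (ch x₀).target, Qf a b c (Phi (Ψ ∘ param x₀) y) ≠ 0 := by
    intro x₀ y hy
    rcases (show 0 ≤ y 0 from target_HH hy).eq_or_lt with h0 | h0
    · exact ((h.loc hy).conic h0.symm habc (hq' _ _ hy)).1
    intro hz
    set x := param x₀ y with hx
    have h1 : 0 < ch x x 0 := (int_ctr x).1 ((int_iff hy).2 h0)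
    have h2 := (h.ctr x).Qf_zero h1 hab hbc hac habc (by
      filter_upwards [hE x, nhdsWithin_le_nhds (isOpen_pos.mem_nhds h1)] with z a1 a2
      exact a1 a2) (((h.rel hy h0).qf a b c).2 hz)
    have h3 := propagate (fun x => Qf a b c (Phi (Ψ ∘ param x) (ch x x)) = 0)
      (fun x₀ y => Qf a b c (Phi (Ψ ∘ param x₀) y) = 0)
      (fun _ _ hy h0 => (h.rel hy h0).qf a b c) (fun x₀ => (h.ctr x₀).identity_Qf a b c)
      ⟨x, h2.mono fun _ hz _ => hz⟩ x₁
    exact ((h.ctr x₁).conic hx₁0 habc (hq' _ _ (ctr_mem x₁))).1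
      (eq_of_interior (g := fun _ => 0) (h.ctr x₁).1
        ((h.ctr x₁).good.sm_Qf a b c).continuousWithinAt continuousWithinAt_const h3)
  let m : N → ℝ := fun x => |(rho a b c (Ψ ∘ param x) (ch x x)).im|
  have hm0 : ∀ x₀, ∀ y ∈ (ch x₀).target, y 0 = 0 → (rho a b c (Ψ ∘ param x₀) y).im = 0 :=
    fun x₀ y hy h0 => by
      rw [rho, ((h.loc hy).conic h0 habc (hq' _ _ hy)).2.1, Complex.ofReal_im]
  have hmb : ∀ x ∈ I2.boundary N, m x = 0 := fun x hx => by
    simp only [m, hm0 x _ (ctr_mem x) ((bd_ctr x).1 hx), abs_zero]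
  have hm : ∀ x₀, ∀ y ∈ (ch x₀).target, m (param x₀ y) = |(rho a b c (Ψ ∘ param x₀) y).im| := by
    intro x₀ y hy
    rcases (show 0 ≤ y 0 from target_HH hy).eq_or_lt with h0 | h0
    · rw [hmb _ ((bd_iff hy).2 h0.symm), hm0 _ _ hy h0.symm, abs_zero]
    · exact (h.rel hy h0).absIm a b c
  have hmc : Continuous m := by
    refine continuous_iff_continuousAt.2 fun x => ?_
    have h1 := (((Complex.continuous_im.continuousAt.comp_continuousWithinAt
      ((h.ctr x).good.sm_rho (hQ x _ (ctr_mem x))).continuousWithinAt)).abs).tendsto.comp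
      (tendsto_ch (mem_extChartAt_source x))
    refine h1.congr' (mem_of_superset (extChartAt_source_mem_nhds (I := I2) x) fun z hz => ?_)
    have := hm x _ ((ch x).map_source hz)
    rw [param_ch hz] at this
    exact this.symm
  obtain ⟨x₂, -, hx₂⟩ := isCompact_univ.exists_isMaxOn ⟨x₁, mem_univ _⟩ hmc.continuousOn
  have hmax : ∀ x, m x ≤ m x₂ := fun x => hx₂ (mem_univ x)
  have hM : m x₂ = 0 := by
    by_contra hM
    have hclo : IsClopen {x | m x = m x₂} := by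
      refine ⟨isClosed_eq hmc continuous_const, isOpen_iff_eventually.2 fun x hx => ?_⟩
      have hx' : m x = m x₂ := hx
      have h1 : 0 < ch x x 0 := (int_ctr x).1 fun hb => hM (hx' ▸ hmb x hb)
      have h2 := (h.ctr x).rho_max h1 (hQ x _ (ctr_mem x)) (by
        filter_upwards [target_nhds (ctr_mem x)] with z hz
        rw [← hm x z hz]
        exact (hmax _).trans hx'.ge)
      rw [ev_ctr]
      filter_upwards [h2, target_nhds (ctr_mem x)] with z h3 hz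
      exact ((hm x z hz).trans h3).trans hx'
    have : m x₁ = m x₂ := eq_univ_iff_forall.1 (hclo.eq_univ ⟨x₂, rfl⟩) x₁
    exact hM (this.symm.trans (hmb x₁ hx₁))
  refine (h.ctr x₁).noncirc_end hx₁0 hab hbc hac habc (hq' _ _ (ctr_mem x₁)) ?_
  filter_upwards [target_nhds (ctr_mem x₁)] with z hz _
  have := hmax (param x₁ z)
  rw [hM, hm x₁ z hz] at this
  exact abs_nonpos_iff.1 this

end Nice

end Pool.Agent.MP_30dcea_gt

end MrgPart1

-- ======== part 2: formerly Pool.Agent.MP_30dcea_gt.Cases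
section MrgPart2

/-!
The circular case: the surface is the critical catenoid.
-/

open scoped Manifold ContDiff Topology NNReal
open Set Filter Metric

namespace Pool.Agent.MP_30dcea_gt

universe u

lemma exists_clopen {B : Type u} [TopologicalSpace B] (h : Nat.card (ConnectedComponents B) = 2) :
    ∃ S : Set B, IsClopen S ∧ S.Nonempty ∧ Sᶜ.Nonempty := by
  have : Finite (ConnectedComponents B) := Nat.finite_of_card_ne_zero (by omega)
  have : Nontrivial (ConnectedComponents B) := Finite.one_lt_card_iff_nontrivial.1 (by omega)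
  obtain ⟨c₁, c₂, hc⟩ := exists_pair_ne (ConnectedComponents B)
  obtain ⟨x₁, rfl⟩ := ConnectedComponents.surjective_coe c₁
  obtain ⟨x₂, rfl⟩ := ConnectedComponents.surjective_coe c₂
  exact ⟨ConnectedComponents.mk ⁻¹' {(x₁ : ConnectedComponents B)},
    (isClopen_discrete _).preimage ConnectedComponents.continuous_coe, ⟨x₁, rfl⟩, ⟨x₂, hc.symm⟩⟩

lemma exists_angle {x y R : ℝ} (hR : 0 < R) (h : x ^ 2 + y ^ 2 = R ^ 2) :
    ∃ θ, x = R * Real.cos θ ∧ y = R * Real.sin θ := by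
  have hn : ‖(⟨x, y⟩ : ℂ)‖ = R := by
    rw [← pow_left_inj₀ (norm_nonneg _) hR.le two_ne_zero, Complex.sq_norm, Complex.normSq_mk]
    linarith
  refine ⟨Complex.arg ⟨x, y⟩, ?_, ?_⟩
  · simpa [hn] using (Complex.norm_mul_cos_arg ⟨x, y⟩).symm
  · simpa [hn] using (Complex.norm_mul_sin_arg ⟨x, y⟩).symm

lemma crit_alg {R z₀ : ℝ} (hR0 : 0 < R) (hz : 0 < z₀) (hR : R ^ 2 = 1 - z₀ ^ 2)
    (h : R ^ 2 = R ^ 2 * (Real.cosh ((-z₀ - z₀) / (R * z₀)) +
      R * Real.sinh ((-z₀ - z₀) / (R * z₀))) ^ 2) :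
    R⁻¹ * Real.tanh R⁻¹ = 1 ∧ Real.cosh R⁻¹ = z₀⁻¹ ∧ Real.sinh R⁻¹ = R * z₀⁻¹ := by
  have e : (-z₀ - z₀) / (R * z₀) = -(2 * R⁻¹) := by field_simp; ring
  rw [e, Real.cosh_neg, Real.sinh_neg] at h
  have hT : 0 < R⁻¹ := inv_pos.2 hR0
  have hR1 : R < 1 := by nlinarith
  have hs := Real.sinh_pos_iff.2 hT
  have hc := Real.cosh_pos R⁻¹
  have h1 : 0 < Real.cosh (2 * R⁻¹) + R * -Real.sinh (2 * R⁻¹) := by
    have a1 := Real.sinh_lt_cosh (2 * R⁻¹)
    have a2 : 0 < Real.sinh (2 * R⁻¹) := Real.sinh_pos_iff.2 (by positivity)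
    nlinarith
  have h2 : Real.cosh (2 * R⁻¹) + R * -Real.sinh (2 * R⁻¹) = 1 := by
    have : (Real.cosh (2 * R⁻¹) + R * -Real.sinh (2 * R⁻¹)) ^ 2 = 1 ^ 2 :=
      mul_left_cancel₀ (pow_ne_zero 2 hR0.ne') (by linarith)
    exact (pow_left_inj₀ h1.le zero_le_one two_ne_zero).1 this
  rw [Real.cosh_two_mul, Real.sinh_two_mul] at h2
  have h3 := Real.cosh_sq R⁻¹
  have h4 : Real.sinh R⁻¹ = R * Real.cosh R⁻¹ := by
    apply mul_left_cancel₀ hs.ne'
    linear_combination h2 / 2 - h3 / 2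
  have h5 : Real.cosh R⁻¹ = z₀⁻¹ := by
    rw [h4] at h3
    have : (Real.cosh R⁻¹ * z₀) ^ 2 = 1 ^ 2 := by
      linear_combination h3 + Real.cosh R⁻¹ ^ 2 * hR
    have := (pow_left_inj₀ (by positivity) zero_le_one two_ne_zero).1 this
    exact eq_inv_of_mul_eq_one_left this
  refine ⟨?_, h5, by rw [h4, h5]⟩
  rw [Real.tanh_eq_sinh_div_cosh, h4]
  field_simp

lemma mem_piece {T c : ℝ} (hc : c = (Real.sqrt (Real.cosh T ^ 2 + T ^ 2))⁻¹) (p : E3) :
    p ∈ catenoidPiece T ↔ ∃ s θ : ℝ, |s| ≤ T ∧ p 0 = c * (Real.cosh s * Real.cos θ) ∧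
      p 1 = c * (Real.cosh s * Real.sin θ) ∧ p 2 = c * s := by
  simp only [catenoidPiece, mem_ofPred_eq, ← hc]
  refine exists_congr fun s => exists_congr fun θ => and_congr_right fun _ => ?_
  constructor
  · rintro rfl; simp
  · rintro ⟨h0, h1, h2⟩
    ext j; fin_cases j <;> simp [h0, h1, h2]

variable {N : Type u} [TopologicalSpace N] [ChartedSpace (EuclideanHalfSpace 2) N]
  [IsManifold I2 ∞ N] {Ψ : N → E3}

omit [IsManifold I2 ∞ N] in
lemma bd_nonempty (hbd : Nat.card (ConnectedComponents (I2.boundary N)) = 2) :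
    (I2.boundary N).Nonempty := by
  obtain ⟨S, -, ⟨x, -⟩, -⟩ := exists_clopen hbd
  exact ⟨x, x.2⟩

namespace Nice

lemma unit (h : Nice Ψ) {x : N} (hx : x ∈ I2.boundary N) :
    Ψ x 0 ^ 2 + Ψ x 1 ^ 2 + Ψ x 2 ^ 2 = 1 := by
  simpa only [Function.comp_apply, param_ctr] using (h.ctr x).good.unit ((bd_ctr x).1 hx)

lemma covers [CompactSpace N] (h : Nice Ψ) {z₀ R : ℝ} (hR : R ^ 2 = 1 - z₀ ^ 2) (hR0 : 0 < R)
    (hz : ∀ x ∈ I2.boundary N, Ψ x 2 = z₀) {S : Set (I2.boundary N)} (hS : IsClopen S)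
    (hne : S.Nonempty) (θ : ℝ) :
    ∃ x ∈ S, Ψ x 0 = R * Real.cos θ ∧ Ψ x 1 = R * Real.sin θ := by
  have hBc : IsClosed (I2.boundary N) := I2.isClosed_boundary (n := ∞) (by simp)
  have : CompactSpace (I2.boundary N) := isCompact_iff_compactSpace.1 hBc.isCompact
  have hc := h.continuous
  have hK : IsClosed ((fun x : I2.boundary N => (Ψ x 0, Ψ x 1)) '' S) :=
    (hS.isClosed.isCompact.image (by fun_prop)).isClosed
  have hclo : IsClopen {θ : ℝ | ∃ x ∈ S, Ψ x 0 = R * Real.cos θ ∧ Ψ x 1 = R * Real.sin θ} := by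
    constructor
    · have : Continuous fun θ : ℝ => (R * Real.cos θ, R * Real.sin θ) := by fun_prop
      convert hK.preimage this using 1
      ext θ
      simp
    · refine isOpen_iff_eventually.2 fun θ₀ ⟨x, hx, h0, h1⟩ => ?_
      obtain ⟨O, hO, rfl⟩ := isOpen_induced_iff.1 hS.isOpen
      have := (h.ctr (x : N)).circle_open ((bd_ctr (x : N)).1 x.2) hR hR0
        (ev_bd (ctr_mem (x : N)) hz)
        (by simpa only [Function.comp_apply, param_ctr] using h0)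
        (by simpa only [Function.comp_apply, param_ctr] using h1)
        (((ev_ctr (x : N) (· ∈ O)).1 (hO.mem_nhds hx)).and (target_nhds (ctr_mem (x : N))))
      filter_upwards [this] with θ ⟨y, ⟨a1, a2⟩, a3, a4, a5⟩
      exact ⟨⟨param x y, (bd_iff a2).2 a3⟩, a1, a4, a5⟩
  obtain ⟨x, hx⟩ := hne
  have hu := h.unit x.2
  rw [hz _ x.2] at hu
  obtain ⟨θ₀, h0⟩ := exists_angle hR0 (show Ψ x 0 ^ 2 + Ψ x 1 ^ 2 = R ^ 2 by linarith)
  exact eq_univ_iff_forall.1 (hclo.eq_univ ⟨θ₀, x, hx, h0⟩) θ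

/-- The boundary does not lie on one horizontal circle. -/
lemma one_circle [CompactSpace N] (h : Nice Ψ) (hinj : Function.Injective Ψ)
    (hbd : Nat.card (ConnectedComponents (I2.boundary N)) = 2) {z₀ : ℝ}
    (hz : ∀ x ∈ I2.boundary N, Ψ x 2 = z₀) : False := by
  obtain ⟨S, hS, h1, h2⟩ := exists_clopen hbd
  obtain ⟨x, hx⟩ := bd_nonempty hbd
  have hlt := (h.ctr x).height_lt ((bd_ctr x).1 hx) (ev_bd (ctr_mem x) hz)
  have hR0 : 0 < Real.sqrt (1 - z₀ ^ 2) := Real.sqrt_pos.2 (by linarith)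
  have hR : Real.sqrt (1 - z₀ ^ 2) ^ 2 = 1 - z₀ ^ 2 := Real.sq_sqrt (by linarith)
  obtain ⟨x₁, hx₁, a1, a2⟩ := h.covers hR hR0 hz hS h1 0
  obtain ⟨x₂, hx₂, b1, b2⟩ := h.covers hR hR0 hz hS.compl h2 0
  have : Ψ x₁ = Ψ x₂ := by
    ext j; fin_cases j
    · exact a1.trans b1.symm
    · exact a2.trans b2.symm
    · exact (hz _ x₁.2).trans (hz _ x₂.2).symm
  exact hx₂ (Subtype.ext (hinj this) ▸ hx₁)

/-- If the boundary lies on two opposite horizontal circles, the surface is the critical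
catenoid. -/
lemma two_circles [CompactSpace N] [ConnectedSpace N] (h : Nice Ψ) (hinj : Function.Injective Ψ)
    (hle : ∀ x, ‖Ψ x‖ ≤ 1) (hbd : Nat.card (ConnectedComponents (I2.boundary N)) = 2) {κ : ℝ}
    (hz : ∀ x ∈ I2.boundary N, Ψ x 2 ^ 2 = κ) :
    ∃ T : ℝ, 0 < T ∧ T * Real.tanh T = 1 ∧ range Ψ = catenoidPiece T := by
  obtain ⟨z₀, hz0, hκ⟩ : ∃ z₀ : ℝ, 0 < z₀ ∧ z₀ ^ 2 = κ := by
    obtain ⟨x, hx⟩ := bd_nonempty hbd
    refine ⟨|Ψ x 2|, abs_pos.2 fun h0 => ?_, by rw [sq_abs, hz x hx]⟩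
    refine h.one_circle hinj hbd (z₀ := 0) fun x' hx' => ?_
    have := hz x' hx'
    rw [← hz x hx, h0] at this
    simpa using this
  subst hκ
  have hpm : ∀ x ∈ I2.boundary N, Ψ x 2 = z₀ ∨ Ψ x 2 = -z₀ := fun x hx =>
    sq_eq_sq_iff_eq_or_eq_neg.1 (hz x hx)
  obtain ⟨x₁, hx₁, e₁⟩ : ∃ x ∈ I2.boundary N, Ψ x 2 = z₀ := by
    by_contra hc
    push Not at hc
    exact h.one_circle hinj hbd fun x hx => (hpm x hx).resolve_left (hc x hx)
  obtain ⟨x₂, hx₂, e₂⟩ : ∃ x ∈ I2.boundary N, Ψ x 2 = -z₀ := by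
    by_contra hc
    push Not at hc
    exact h.one_circle hinj hbd fun x hx => (hpm x hx).resolve_right (hc x hx)
  have hc := h.continuous
  have hc2 : Continuous fun x => Ψ x 2 := by fun_prop
  have hnear : ∀ᶠ y in 𝓝[HH] (ch x₁ x₁), y 0 = 0 → (Ψ ∘ param x₁) y 2 = z₀ := by
    have : ∀ᶠ x in 𝓝 x₁, 0 < Ψ x 2 := hc2.continuousAt.eventually (lt_mem_nhds (hz0.trans_eq e₁.symm))
    filter_upwards [(ev_ctr x₁ _).1 this, ev_bd (ctr_mem x₁) hpm] with y a1 a2 h0
    exact (a2 h0).resolve_right fun a3 => by linarith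
  have hlt := (h.ctr x₁).height_lt ((bd_ctr x₁).1 hx₁) hnear
  obtain ⟨R, hR0, hR⟩ : ∃ R : ℝ, 0 < R ∧ R ^ 2 = 1 - z₀ ^ 2 :=
    ⟨_, Real.sqrt_pos.2 (by linarith), Real.sq_sqrt (by linarith)⟩
  have hloc := (h.ctr x₁).circ ((bd_ctr x₁).1 hx₁) hz0.ne' hR hR0 hnear
  have hglob := h.prop_X (fun u => u.1 ^ 2 + u.2.1 ^ 2 - R ^ 2 *
      (Real.cosh ((u.2.2 - z₀) / (R * z₀)) + R * Real.sinh ((u.2.2 - z₀) / (R * z₀))) ^ 2)
    (fun u => by
      have a1 : AnalyticAt ℝ (fun u : ℝ × ℝ × ℝ => u.1) u := analyticAt_fst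
      have a2 : AnalyticAt ℝ (fun u : ℝ × ℝ × ℝ => u.2.1) u := analyticAt_fst.comp analyticAt_snd
      have a3 : AnalyticAt ℝ (fun u : ℝ × ℝ × ℝ => (u.2.2 - z₀) / (R * z₀)) u :=
        ((analyticAt_snd.comp analyticAt_snd).sub analyticAt_const).div_const
      exact ((a1.pow 2).add (a2.pow 2)).sub (analyticAt_const.mul
        (((Real.analyticAt_cosh.comp a3).add
          (analyticAt_const.mul (Real.analyticAt_sinh.comp a3))).pow 2))) (x₀ := x₁)
    ((ev_ctr x₁ _).2 (hloc.mono fun y hy => sub_eq_zero.2 hy))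
  have hu := h.unit hx₂
  obtain ⟨t1, t2, t3⟩ := crit_alg hR0 hz0 hR (by
    have := hglob x₂
    simp only [e₂] at this hu
    linarith)
  set c : ℝ := R * z₀ with hcdef
  have hc0 : 0 < c := by positivity
  have hcat : ∀ x, Ψ x 0 ^ 2 + Ψ x 1 ^ 2 = c ^ 2 * Real.cosh (Ψ x 2 / c) ^ 2 := fun x => by
    have a1 := sub_eq_zero.1 (hglob x)
    have a2 : Ψ x 2 / c = (Ψ x 2 - z₀) / c + R⁻¹ := by rw [hcdef]; field_simp; ring
    rw [a2, Real.cosh_add, t2, t3, a1, hcdef]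
    field_simp
  have hT : 0 < R⁻¹ := inv_pos.2 hR0
  have hceq : c = (Real.sqrt (Real.cosh R⁻¹ ^ 2 + R⁻¹ ^ 2))⁻¹ := by
    have : Real.cosh R⁻¹ ^ 2 + R⁻¹ ^ 2 = c⁻¹ ^ 2 := by
      rw [t2, hcdef]; field_simp; linarith
    rw [this, Real.sqrt_sq (by positivity), inv_inv]
  refine ⟨R⁻¹, hT, t1, Subset.antisymm ?_ ?_⟩
  · rintro _ ⟨x, rfl⟩
    obtain ⟨θ, a1, a2⟩ := exists_angle (R := c * Real.cosh (Ψ x 2 / c))
      (mul_pos hc0 (Real.cosh_pos _)) (by rw [hcat x]; ring)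
    refine (mem_piece hceq _).2 ⟨Ψ x 2 / c, θ, ?_, by rw [a1]; ring, by rw [a2]; ring,
      by field_simp⟩
    by_contra hgt
    push Not at hgt
    have b1 : Real.cosh R⁻¹ < Real.cosh (Ψ x 2 / c) := Real.cosh_lt_cosh.2 (by rwa [abs_of_pos hT])
    have b2 : R⁻¹ ^ 2 < (Ψ x 2 / c) ^ 2 := by
      rw [← sq_abs (Ψ x 2 / c)]; gcongr
    have b3 : ‖Ψ x‖ ^ 2 ≤ 1 := by nlinarith [hle x, norm_nonneg (Ψ x)]
    rw [norm_sq_E3, hcat x] at b3
    have b4 : Ψ x 2 ^ 2 = c ^ 2 * (Ψ x 2 / c) ^ 2 := by field_simp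
    have b5 : c ^ 2 * (Real.cosh R⁻¹ ^ 2 + R⁻¹ ^ 2) = 1 := by
      rw [t2, hcdef]; field_simp; linarith
    have b6 : Real.cosh R⁻¹ ^ 2 < Real.cosh (Ψ x 2 / c) ^ 2 := by
      have := Real.cosh_pos R⁻¹
      gcongr
    have b7 : c ^ 2 * (Real.cosh R⁻¹ ^ 2 + R⁻¹ ^ 2) <
        c ^ 2 * (Real.cosh (Ψ x 2 / c) ^ 2 + (Ψ x 2 / c) ^ 2) := by gcongr
    linarith
  · let A : Set (ℝ × ℝ) := {q | ∃ x, Ψ x 0 = c * (Real.cosh q.1 * Real.cos q.2) ∧
      Ψ x 1 = c * (Real.cosh q.1 * Real.sin q.2) ∧ Ψ x 2 = c * q.1}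
    have hAc : IsClosed A := by
      have k1 : IsClosed (range fun x => (Ψ x 0, Ψ x 1, Ψ x 2)) :=
        (isCompact_range (by fun_prop)).isClosed
      have k2 : Continuous fun q : ℝ × ℝ => (c * (Real.cosh q.1 * Real.cos q.2),
        c * (Real.cosh q.1 * Real.sin q.2), c * q.1) := by fun_prop
      convert k1.preimage k2 using 1
      ext q
      simp [A]
    let D : Set (ℝ × ℝ) := Ioo (-R⁻¹) R⁻¹ ×ˢ univ
    have hD : IsPreconnected D := isPreconnected_Ioo.prod isPreconnected_univ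
    have hopen : ∀ q ∈ D, q ∈ A → q ∈ interior A := by
      rintro q hq ⟨x, a0, a1, a2⟩
      have hx : x ∉ I2.boundary N := fun hx => by
        have b1 : c * q.1 < z₀ := by
          calc c * q.1 < c * R⁻¹ := mul_lt_mul_of_pos_left hq.1.2 hc0
            _ = z₀ := by rw [hcdef]; field_simp
        have b2 : -z₀ < c * q.1 := by
          calc -z₀ = c * -R⁻¹ := by rw [hcdef]; field_simp
            _ < c * q.1 := mul_lt_mul_of_pos_left hq.1.1 hc0
        rcases hpm x hx with b | b <;> linarith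
      have := (h.ctr x).cat_open ((int_ctr x).1 hx) hc0
        (Eventually.of_forall fun y => hcat (param x y))
        (by simpa only [Function.comp_apply, param_ctr] using a0)
        (by simpa only [Function.comp_apply, param_ctr] using a1)
        (by simpa only [Function.comp_apply, param_ctr] using a2) (P := fun _ => True) (by simp)
      rw [mem_interior_iff_mem_nhds]
      filter_upwards [this] with q' ⟨y, _, b⟩
      exact ⟨param x y, b⟩
    have hne : (D ∩ interior A).Nonempty := by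
      obtain ⟨x, hx⟩ : (0 : ℝ) ∈ range fun x => Ψ x 2 :=
        intermediate_value_univ x₂ x₁ hc2 ⟨by linarith, by linarith⟩
      have hx' : Ψ x 2 = 0 := hx
      obtain ⟨θ, a1, a2⟩ := exists_angle hc0 (show Ψ x 0 ^ 2 + Ψ x 1 ^ 2 = c ^ 2 by
        rw [hcat x, hx']; simp)
      have hq : ((0, θ) : ℝ × ℝ) ∈ D := ⟨⟨by simpa using hR0, hT⟩, mem_univ _⟩
      exact ⟨(0, θ), hq, hopen _ hq ⟨x, by simpa using a1, by simpa using a2, by simpa using hx'⟩⟩
    have hsub : D ⊆ interior A := hD.subset_of_closure_inter_subset isOpen_interior hne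
      fun q hq => hopen q hq.2 (closure_minimal interior_subset hAc hq.1)
    have hcl : closure D ⊆ A := closure_minimal (hsub.trans interior_subset) hAc
    intro p hp
    obtain ⟨s, θ, hs, a0, a1, a2⟩ := (mem_piece hceq p).1 hp
    have : (s, θ) ∈ closure D := by
      rw [closure_prod_eq, closure_Ioo (by linarith), closure_univ]
      exact ⟨abs_le.1 hs, mem_univ _⟩
    obtain ⟨x, b0, b1, b2⟩ := hcl this
    refine ⟨x, ?_⟩
    ext j; fin_cases j
    · exact b0.trans a0.symm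
    · exact b1.trans a1.symm
    · exact b2.trans a2.symm

end Nice

end Pool.Agent.MP_30dcea_gt

end MrgPart2

-- ======== part 3: formerly Pool.Agent.MP_30dcea_gt.Rot
section MrgPart3

/-!
Invariance under rotations and the case analysis on the quadric cone.
-/

open scoped Manifold ContDiff Topology NNReal
open Set Filter Metric

namespace Pool.Agent.MP_30dcea_gt

universe u

lemma dd_rot (A : E3 ≃ₗᵢ[ℝ] E3) (f : E2 → E3) {y : E2} (hy : y ∈ HH) (v : E2) :
    dd (A ∘ f) y v = A (dd f y v) := by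
  rw [dd, A.comp_fderivWithin (uniqueDiffOn_HH y hy)]; rfl

lemma Good.rot {X : E2 → E3} {y : E2} (g : Good X y) (A : E3 ≃ₗᵢ[ℝ] E3) : Good (A ∘ X) y := by
  have h1 : ∀ z ∈ HH, ∀ i, da (A ∘ X) i z = A (da X i z) := fun z hz i => dd_rot A X hz _
  have h2 : ∀ z ∈ HH, bb (A ∘ X) z = (A ∘ bb X) z := fun z hz => by
    simp [bb, gW, gE, gF, gG, h1 z hz]
  have h3 : ∀ z ∈ HH, bz (A ∘ X) z = (A ∘ bz X) z := fun z hz => by
    simp [bz, gW, gE, gF, gG, h1 z hz]
  refine ⟨⟨g.mem, A.contDiff.comp_contDiffWithinAt g.smooth, fun v hv => g.inj v ?_⟩, fun h0 => ?_,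
    fun h0 => by simpa using g.norm h0, fun h0 => ?_⟩
  · rw [dd_rot A X g.mem] at hv
    simpa using hv
  · have e2 : dd (bb (A ∘ X)) y = dd (A ∘ bb X) y := fderivWithin_congr h2 (h2 y g.mem)
    have e3 : dd (bz (A ∘ X)) y = dd (A ∘ bz X) y := fderivWithin_congr h3 (h3 y g.mem)
    rw [e2, e3, dd_rot A _ g.mem, dd_rot A _ g.mem, g.harm h0]
  · obtain ⟨v, hv⟩ := g.tang h0
    exact ⟨v, by rw [dd_rot A X g.mem, hv]; rfl⟩

lemma exists_rot {l : E3} (hl : l ≠ 0) :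
    ∃ A : E3 ≃ₗᵢ[ℝ] E3, ∀ x, A x 2 = ‖l‖⁻¹ * inner ℝ l x := by
  have hn : ‖l‖ ≠ 0 := norm_ne_zero_iff.2 hl
  have h1 : ‖(‖l‖⁻¹ • l : E3)‖ = ‖(EuclideanSpace.single 2 1 : E3)‖ := by
    simp [norm_smul, hn]
  refine ⟨Submodule.reflection (ℝ ∙ ((‖l‖⁻¹ • l : E3) - EuclideanSpace.single 2 1))ᗮ, fun x => ?_⟩
  have h2 := Submodule.reflection_sub h1
  have h3 := LinearIsometryEquiv.inner_map_map
    (Submodule.reflection (ℝ ∙ ((‖l‖⁻¹ • l : E3) - EuclideanSpace.single 2 1))ᗮ) (‖l‖⁻¹ • l) x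
  rw [h2, real_inner_smul_left, EuclideanSpace.inner_single_left] at h3
  simpa using h3

variable {N : Type u} [TopologicalSpace N] [ChartedSpace (EuclideanHalfSpace 2) N]
  [IsManifold I2 ∞ N] {Ψ : N → E3}

/-- The image is congruent to the critical catenoid. -/
def Concl (Ψ : N → E3) : Prop :=
  ∃ T : ℝ, 0 < T ∧ T * Real.tanh T = 1 ∧ ∃ A : E3 ≃ₗᵢ[ℝ] E3, range Ψ = A '' catenoidPiece T

omit [TopologicalSpace N] [ChartedSpace (EuclideanHalfSpace 2) N] [IsManifold I2 ∞ N] in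
lemma Concl.of_rot (A : E3 ≃ₗᵢ[ℝ] E3) (h : Concl (A ∘ Ψ)) : Concl Ψ := by
  obtain ⟨T, h1, h2, B, h3⟩ := h
  refine ⟨T, h1, h2, B.trans A.symm, ?_⟩
  rw [LinearIsometryEquiv.coe_trans, image_comp, ← h3, ← range_comp]
  congr 1
  funext x
  simp

/-- The standing hypotheses on the embedding. -/
structure Setting (Ψ : N → E3) : Prop where
  nice : Nice Ψ
  inj : Function.Injective Ψ
  le : ∀ x, ‖Ψ x‖ ≤ 1
  two : Nat.card (ConnectedComponents (I2.boundary N)) = 2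

namespace Setting

omit [IsManifold I2 ∞ N] in
lemma rot (h : Setting Ψ) (A : E3 ≃ₗᵢ[ℝ] E3) : Setting (A ∘ Ψ) :=
  ⟨fun x₀ y hy => (h.nice x₀ y hy).rot A, A.injective.comp h.inj, fun x => by simpa using h.le x,
    h.two⟩

variable [CompactSpace N]

lemma flat (h : Setting Ψ) {l : E3} (hl : l ≠ 0) (hz : ∀ x ∈ I2.boundary N, inner ℝ l (Ψ x) = 0) :
    False := by
  obtain ⟨A, hA⟩ := exists_rot hl
  exact (h.rot A).nice.one_circle (h.rot A).inj h.two (z₀ := 0) fun x hx => by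
    simp [hA, hz x hx]

variable [ConnectedSpace N]

lemma axis (h : Setting Ψ) {l : E3} (hl : l ≠ 0) {κ : ℝ}
    (hz : ∀ x ∈ I2.boundary N, inner ℝ l (Ψ x) ^ 2 = κ) : Concl Ψ := by
  obtain ⟨A, hA⟩ := exists_rot hl
  obtain ⟨T, h1, h2, h3⟩ := (h.rot A).nice.two_circles (h.rot A).inj (h.rot A).le h.two
    (κ := ‖l‖⁻¹ ^ 2 * κ) fun x hx => by
      simp only [Function.comp_apply, hA, mul_pow, hz x hx]
  exact Concl.of_rot A ⟨T, h1, h2, LinearIsometryEquiv.refl ℝ E3, by simpa using h3⟩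

lemma flat_near (h : Setting Ψ) {l : E3} (hl : l ≠ 0) {x₀ : N} (hx₀ : x₀ ∈ I2.boundary N)
    (hz : ∀ᶠ x in 𝓝 x₀, x ∈ I2.boundary N → inner ℝ l (Ψ x) = 0) : False := by
  have h1 := (h.nice.ctr x₀).plane ((bd_ctr x₀).1 hx₀) (a := l 0) (b := l 1) (c := l 2) (by
    filter_upwards [(ev_ctr x₀ _).1 hz, target_nhds (ctr_mem x₀)] with y a1 a2 h0
    rw [← a1 ((bd_iff a2).2 h0), inner_E3]; rfl)
  have h2 := h.nice.prop_X (fun u => l 0 * u.1 + l 1 * u.2.1 + l 2 * u.2.2)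
    (fun u => ((analyticAt_const.mul analyticAt_fst).add
      (analyticAt_const.mul (analyticAt_fst.comp analyticAt_snd))).add
      (analyticAt_const.mul (analyticAt_snd.comp analyticAt_snd))) (x₀ := x₀) ((ev_ctr x₀ _).2 h1)
  exact h.flat hl fun x _ => by rw [inner_E3]; exact h2 x

lemma two_planes (h : Setting Ψ) {l l' : E3} (hl : l ≠ 0) (hl' : l' ≠ 0)
    (hz : ∀ x ∈ I2.boundary N, inner ℝ l (Ψ x) * inner ℝ l' (Ψ x) = 0) : False := by
  by_cases hc : ∀ x ∈ I2.boundary N, inner ℝ l (Ψ x) = 0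
  · exact h.flat hl hc
  push Not at hc
  obtain ⟨x₀, hx₀, h0⟩ := hc
  have hcont : Continuous fun x => inner ℝ l (Ψ x) := continuous_const.inner h.nice.continuous
  refine h.flat_near hl' hx₀ ?_
  filter_upwards [hcont.continuousAt.eventually_ne h0] with x h1 hx
  exact (mul_eq_zero.1 (hz x hx)).resolve_left h1

lemma degenerate (h : Setting Ψ) (i j : Fin 3) (hij : i ≠ j) {a b : ℝ} (ha : a ≠ 0)
    (hz : ∀ x ∈ I2.boundary N, a * Ψ x i ^ 2 + b * Ψ x j ^ 2 = 0) : False := by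
  have hne : ∀ s : ℝ, (EuclideanSpace.single i 1 + EuclideanSpace.single j s : E3) ≠ 0 := by
    intro s h0
    have := congrArg (fun v : E3 => v i) h0
    simp [hij] at this
  refine h.two_planes (hne (Real.sqrt (-b / a))) (hne (-Real.sqrt (-b / a))) fun x hx => ?_
  simp only [inner_add_left, EuclideanSpace.inner_single_left, map_one, conj_trivial, one_mul]
  have e : Ψ x i ^ 2 = -b / a * Ψ x j ^ 2 := by field_simp; linarith [hz x hx]
  rcases le_total 0 (-b / a) with h0 | h0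
  · linear_combination e - Ψ x j ^ 2 * Real.sq_sqrt h0
  · rw [Real.sqrt_eq_zero_of_nonpos h0]
    nlinarith [sq_nonneg (Ψ x i), mul_nonneg_of_nonpos_of_nonpos h0 (neg_nonpos.2 (sq_nonneg (Ψ x j)))]

lemma circular (h : Setting Ψ) (i : Fin 3) {κ : ℝ} (hz : ∀ x ∈ I2.boundary N, Ψ x i ^ 2 = κ) :
    Concl Ψ :=
  h.axis (l := EuclideanSpace.single i 1) (by simp) fun x hx => by
    simpa [EuclideanSpace.inner_single_left] using hz x hx

lemma diagonal (h : Setting Ψ) {a b c : ℝ} (hne : ¬(a = 0 ∧ b = 0 ∧ c = 0))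
    (hq : ∀ x ∈ I2.boundary N, a * Ψ x 0 ^ 2 + b * Ψ x 1 ^ 2 + c * Ψ x 2 ^ 2 = 0) : Concl Ψ := by
  obtain ⟨x₁, hx₁⟩ := bd_nonempty h.two
  have hall : ¬(a = b ∧ b = c) := by
    rintro ⟨rfl, rfl⟩
    have : a = 0 := by linear_combination hq x₁ hx₁ - a * h.nice.unit hx₁
    exact hne ⟨this, this, this⟩
  by_cases hab : a = b
  · have hac : a - c ≠ 0 := fun h0 => hall ⟨hab, by linarith⟩
    refine h.circular 2 (κ := a / (a - c)) fun x hx => ?_
    subst hab
    field_simp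
    linear_combination a * h.nice.unit hx - hq x hx
  by_cases hbc : b = c
  · have hba : b - a ≠ 0 := fun h0 => hab (by linarith)
    refine h.circular 0 (κ := b / (b - a)) fun x hx => ?_
    subst hbc
    field_simp
    linear_combination b * h.nice.unit hx - hq x hx
  by_cases hac : a = c
  · have hba : a - b ≠ 0 := fun h0 => hab (by linarith)
    refine h.circular 1 (κ := a / (a - b)) fun x hx => ?_
    subst hac
    field_simp
    linear_combination a * h.nice.unit hx - hq x hx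
  exfalso
  by_cases ha : a = 0
  · exact h.degenerate 1 2 (by decide) (a := b) (b := c) (fun hb => hab (by rw [ha, hb]))
      fun x hx => by simpa [ha] using hq x hx
  by_cases hb : b = 0
  · exact h.degenerate 0 2 (by decide) ha (b := c) fun x hx => by simpa [hb] using hq x hx
  by_cases hc : c = 0
  · exact h.degenerate 0 1 (by decide) ha (b := b) fun x hx => by simpa [hc] using hq x hx
  exact h.nice.noncirc ⟨x₁, hx₁⟩ hab hbc hac (by positivity) hq

/-- If a linear map preserves the norm along the boundary without being an isometry, the surface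
is the critical catenoid. -/
lemma quadric (h : Setting Ψ) (L : E3 →ₗ[ℝ] E3) (hL : ∀ x ∈ I2.boundary N, ‖L (Ψ x)‖ = 1)
    (hne : ¬∀ v, ‖L v‖ = ‖v‖) : Concl Ψ := by
  let S : E3 →ₗ[ℝ] E3 := LinearMap.adjoint L ∘ₗ L - LinearMap.id
  have hS : S.IsSymmetric := (LinearMap.isSymmetric_adjoint_comp_self L).sub LinearMap.IsSymmetric.id
  have hn : Module.finrank ℝ E3 = 3 := by simp
  let b := hS.eigenvectorBasis hn
  have key : ∀ v, ‖L v‖ ^ 2 - ‖v‖ ^ 2 = hS.eigenvalues hn 0 * b.repr v 0 ^ 2 +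
      hS.eigenvalues hn 1 * b.repr v 1 ^ 2 + hS.eigenvalues hn 2 * b.repr v 2 ^ 2 := by
    intro v
    have e1 : inner ℝ (S v) v = ‖L v‖ ^ 2 - ‖v‖ ^ 2 := by
      simp [S, inner_sub_left, LinearMap.adjoint_inner_left]
    rw [← e1, ← b.repr.inner_map_map, inner_E3]
    simp only [b, hS.eigenvectorBasis_apply_self_apply hn, RCLike.ofReal_real_eq_id, id]
    ring
  refine Concl.of_rot b.repr ((h.rot b.repr).diagonal (a := hS.eigenvalues hn 0)
    (b := hS.eigenvalues hn 1) (c := hS.eigenvalues hn 2) ?_ fun x hx => ?_)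
  · rintro ⟨h0, h1, h2⟩
    refine hne fun v => (pow_left_inj₀ (norm_nonneg _) (norm_nonneg _) two_ne_zero).1 ?_
    have := key v
    rw [h0, h1, h2] at this
    linarith
  · have := key (Ψ x)
    rw [hL x hx, norm_sq_E3, h.nice.unit hx] at this
    simpa using this.symm

end Setting

end Pool.Agent.MP_30dcea_gt

end MrgPart3

-- ======== part 4: formerly Pool.Agent.MP_30dcea_gt.Bridge
section MrgPart4

/-!
From the Steklov hypotheses to the chart description.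
-/

open scoped Manifold ContDiff Topology NNReal
open Set Filter Metric

namespace Pool.Agent.MP_30dcea_gt

universe u

lemma exists_normal (B : E2 →L[ℝ] E2 →L[ℝ] ℝ) (_hs : ∀ v w, B v w = B w v)
    (hp : ∀ v, v ≠ 0 → 0 < B v v) (A : E2 →L[ℝ] E2) (hA : A.IsInvertible) :
    ∃ η, B η η = 1 ∧ (∀ v, A v 0 = 0 → B η v = 0) ∧ A η 0 < 0 := by
  obtain ⟨e, rfl⟩ := hA
  set u₀ := e.symm (ee 0) with hu₀
  set u₁ := e.symm (ee 1) with hu₁
  have h1 : u₁ ≠ 0 := by simp [hu₁]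
  have hG := hp u₁ h1
  set n := B u₁ u₁ • u₀ - B u₀ u₁ • u₁ with hn
  have hn0 : e n 0 = B u₁ u₁ := by simp [hn, hu₀, hu₁]
  have hn1 : n ≠ 0 := by
    intro h; rw [h] at hn0; simp at hn0; exact hG.ne hn0
  have hN := hp n hn1
  have hs0 : 0 < Real.sqrt (B n n) := Real.sqrt_pos.2 hN
  refine ⟨-(Real.sqrt (B n n))⁻¹ • n, ?_, fun v hv => ?_, ?_⟩
  · simp only [map_smul, smul_apply, smul_eq_mul]
    field_simp
    exact (Real.sq_sqrt hN.le).symm
  · have hv' : v = e v 1 • u₁ := by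
      apply e.injective
      rw [map_smul, hu₁, e.apply_symm_apply]
      have hv0 : e v 0 = 0 := hv
      ext i; fin_cases i <;> simp [hv0]
    have : B n u₁ = 0 := by simp [hn, mul_comm]
    rw [hv']
    simp [this]
  · simp only [ContinuousLinearEquiv.coe_coe, map_smul, PiLp.smul_apply, hn0, smul_eq_mul]
    have : 0 < (Real.sqrt (B n n))⁻¹ * B u₁ u₁ := by positivity
    linarith

lemma flux_alg {E F G c p q : ℝ} (hc : 0 < c) (hd : 0 < E * G - F ^ 2)
    (M : Matrix (Fin 2) (Fin 2) ℝ) (h00 : c * M 0 0 = E) (h01 : c * M 0 1 = F)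
    (h10 : c * M 1 0 = F) (h11 : c * M 1 1 = G) :
    0 < Real.sqrt M.det ∧
    Real.sqrt M.det * (M⁻¹ 0 0 * p + M⁻¹ 0 1 * q) =
      (Real.sqrt (E * G - F ^ 2))⁻¹ * (G * p - F * q) ∧
    Real.sqrt M.det * (M⁻¹ 1 0 * p + M⁻¹ 1 1 * q) =
      -((Real.sqrt (E * G - F ^ 2))⁻¹ * (F * p - E * q)) := by
  set W := Real.sqrt (E * G - F ^ 2) with hW
  have hW0 : 0 < W := Real.sqrt_pos.2 hd
  have hW2 : W ^ 2 = E * G - F ^ 2 := Real.sq_sqrt hd.le
  have hdet : M.det = (W / c) ^ 2 := by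
    rw [Matrix.det_fin_two, div_pow, hW2, ← h00, ← h11]
    field_simp
    linear_combination -(c * M 1 0) * h01 - F * h10
  have hsq : Real.sqrt M.det = W / c := by rw [hdet, Real.sqrt_sq (by positivity)]
  have hinv : ∀ i j, M⁻¹ i j = ((W / c) ^ 2)⁻¹ * M.adjugate i j := fun i j => by
    rw [Matrix.inv_def, Ring.inverse_eq_inv', hdet]; rfl
  rw [hsq]
  simp only [hinv, Matrix.adjugate_fin_two]
  refine ⟨by positivity, ?_, ?_⟩
  · simp
    field_simp
    linear_combination p * h11 - q * h01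
  · simp
    field_simp
    linear_combination -p * h10 + q * h00

variable {N : Type u} [TopologicalSpace N] [ChartedSpace (EuclideanHalfSpace 2) N]
  [IsManifold I2 ∞ N]

section

variable {F : Type} [NormedAddCommGroup F] [NormedSpace ℝ F] {f : N → F} {x₀ : N} {y : E2}

lemma sm_comp (hf : ContMDiff I2 𝓘(ℝ, F) ∞ f) (hy : y ∈ (ch x₀).target) : Sm (f ∘ param x₀) y :=
  ((contMDiffOn_iff_contDiffOn.1 (hf.comp_contMDiffOn (contMDiffOn_extChartAt_symm x₀))) y
    hy).mono_of_mem_nhdsWithin (target_nhds hy)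

lemma dd_comp (hf : ContMDiff I2 𝓘(ℝ, F) ∞ f) (hy : y ∈ (ch x₀).target) (v : E2) :
    dd (f ∘ param x₀) y v =
      dmap I2 f (param x₀ y) (mfderivWithin 𝓘(ℝ, E2) I2 (param x₀) (range I2) y v) := by
  have := mfderiv_comp_mfderivWithin y ((hf (param x₀ y)).mdifferentiableAt (by simp))
    (mdifferentiableWithinAt_extChartAt_symm hy)
    (I2.uniqueMDiffOn y (extChartAt_target_subset_range x₀ hy))
  rw [mfderivWithin_eq_fderivWithin, range_I2] at this
  rw [range_I2]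
  exact congrArg (fun A => A v) this

end

omit [IsManifold I2 ∞ N] in
lemma coordVec_eq {x₀ : N} {y : E2} (h0 : 0 < y 0) (i : Fin 2) :
    coordVec x₀ y i = mfderivWithin 𝓘(ℝ, E2) I2 (param x₀) (range I2) y (ee i) := by
  rw [mfderivWithin_of_mem_nhds (range_I2 ▸ HH_mem_nhds h0)]; rfl

variable {g : RMetric I2 N} {σ : ℝ} {Ψ : N → E3}

lemma IsEigenMap.contMDiff (h : IsEigenMap g σ Ψ) : ContMDiff I2 𝓘(ℝ, E3) ∞ Ψ :=
  (EuclideanSpace.equiv (Fin 3) ℝ).symm.contDiff.contMDiff.comp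
    (contMDiff_pi_space.2 fun i => (h.1 i).1)

lemma IsEigenMap.dmap_comp (h : IsEigenMap g σ Ψ) (x : N) (v : TangentSpace I2 x) (k : Fin 3) :
    dmap I2 (fun x => Ψ x k) x v = dmap I2 Ψ x v k := by
  have h1 := ((EuclideanSpace.proj k : E3 →L[ℝ] ℝ).hasMFDerivAt (x := Ψ x)).comp x
    ((h.contMDiff x).mdifferentiableAt (by simp)).hasMFDerivAt
  exact congrArg (fun A => A v) h1.mfderiv

lemma pre_chart (h : IsEigenMap g σ Ψ) (hc : IsConformalEmbedding g Ψ) {x₀ : N} {y : E2}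
    (hy : y ∈ (ch x₀).target) : Pre (Ψ ∘ param x₀) y := by
  refine ⟨target_HH hy, sm_comp h.contMDiff hy, fun v hv => ?_⟩
  rw [dd_comp h.contMDiff hy] at hv
  obtain ⟨c, hc0, hc1⟩ := hc.2 (param x₀ y)
  have h1 := hc1 _ _ ▸ congrArg (fun u => inner ℝ u u) hv
  obtain ⟨e, he⟩ := isInvertible_mfderivWithin_extChartAt_symm (I := I2) hy
  by_contra hne
  have h2 : mfderivWithin 𝓘(ℝ, E2) I2 (param x₀) (range I2) y v ≠ 0 := by
    intro h3
    have h4 : e v = 0 := (congrArg (fun A => A v) he).trans h3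
    exact hne (e.map_eq_zero_iff.1 h4)
  have h3 := mul_pos hc0 (g.pos _ _ h2)
  simp only [inner_zero_left] at h1
  exact h3.ne' h1

lemma flux_chart (h : IsEigenMap g σ Ψ) (hc : IsConformalEmbedding g Ψ) {x₀ : N} {z : E2}
    (hz : z ∈ (ch x₀).target) (h0 : 0 < z 0) (k : Fin 3) :
    0 < Real.sqrt (gmat g x₀ z).det ∧
    Real.sqrt (gmat g x₀ z).det * ∑ j, (gmat g x₀ z)⁻¹ 0 j *
      dcoord ((fun x => Ψ x k) ∘ param x₀) j z = bb (Ψ ∘ param x₀) z k ∧
    Real.sqrt (gmat g x₀ z).det * ∑ j, (gmat g x₀ z)⁻¹ 1 j *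
      dcoord ((fun x => Ψ x k) ∘ param x₀) j z = -bz (Ψ ∘ param x₀) z k := by
  have p := pre_chart h hc hz
  obtain ⟨c, hc0, hc1⟩ := hc.2 (param x₀ z)
  have hM : ∀ i j, c * gmat g x₀ z i j =
      inner ℝ (da (Ψ ∘ param x₀) i z) (da (Ψ ∘ param x₀) j z) := fun i j => by
    rw [da, da, dd_comp h.contMDiff hz, dd_comp h.contMDiff hz, hc1, ← coordVec_eq h0,
      ← coordVec_eq h0]
    rfl
  have hd : ∀ j, dcoord ((fun x => Ψ x k) ∘ param x₀) j z = da (Ψ ∘ param x₀) j z k := fun j =>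
    congrArg (fun A : E2 →L[ℝ] ℝ => A (ee j))
      ((has_E3 p.smooth.has k).hasFDerivAt (HH_mem_nhds h0)).fderiv
  have := flux_alg (p := da (Ψ ∘ param x₀) 0 z k) (q := da (Ψ ∘ param x₀) 1 z k) hc0 p.det_pos
    (gmat g x₀ z) (hM 0 0) (hM 0 1) ((hM 1 0).trans (real_inner_comm _ _)) (hM 1 1)
  simp only [Fin.sum_univ_two, hd]
  exact this

lemma nice_of (hσ : 0 < σ) (h : IsEigenMap g σ Ψ) (hc : IsConformalEmbedding g Ψ) : Nice Ψ := by
  intro x₀ y hy
  have p := pre_chart h hc hy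
  refine ⟨p, fun h0 => ?_, fun h0 => h.2.2 _ ((bd_iff hy).2 h0), fun h0 => ?_⟩
  · ext k
    have h1 := (h.1 k).2.1 x₀ y ((mem_interior_target hy).2 h0)
    have hev : ∀ᶠ z in 𝓝 y, z ∈ (ch x₀).target ∧ 0 < z 0 :=
      Eventually.and (nhdsWithin_HH h0 ▸ target_nhds hy) (isOpen_pos.mem_nhds h0)
    have e0 := (((has_E3 p.sm_bb.has k).hasFDerivAt (HH_mem_nhds h0)).congr_of_eventuallyEq
      (hev.mono fun z hz => (flux_chart h hc hz.1 hz.2 k).2.1)).fderiv
    have e1 := (((has_E3 p.sm_bz.has k).hasFDerivAt (HH_mem_nhds h0)).neg.congr_of_eventuallyEq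
      (hev.mono fun z hz => (flux_chart h hc hz.1 hz.2 k).2.2)).fderiv
    rw [laplaceBeltrami, Fin.sum_univ_two] at h1
    have h2 := (mul_eq_zero.1 h1).resolve_left
      (inv_ne_zero (flux_chart h hc hy h0 k).1.ne')
    rw [dcoord, dcoord, e0, e1] at h2
    simp at h2
    linarith
  · have hx : param x₀ y ∈ I2.boundary N := (bd_iff hy).2 h0
    obtain ⟨η, h1, h2, h3⟩ := exists_normal (g.inner (param x₀ y)) (g.symm _) (g.pos _)
      (mfderiv I2 𝓘(ℝ, E2) (extChartAt I2 (param x₀ y)) (param x₀ y))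
      (isInvertible_mfderiv_extChartAt (mem_extChartAt_source _))
    have h4 : dmap I2 Ψ (param x₀ y) η = σ • Ψ (param x₀ y) := by
      ext k
      rw [← h.dmap_comp]
      exact (h.1 k).2.2 _ hx η ⟨h1, h2, h3⟩
    obtain ⟨e, he⟩ := isInvertible_mfderivWithin_extChartAt_symm (I := I2) hy
    refine ⟨σ⁻¹ • (show E2 from e.symm η), ?_⟩
    have h5 : mfderivWithin 𝓘(ℝ, E2) I2 (param x₀) (range I2) y (e.symm η) = η :=
      (congrArg (fun A => A (e.symm η)) he).symm.trans (e.apply_symm_apply η)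
    rw [map_smul, dd_comp h.contMDiff hy]
    erw [h5]
    rw [h4, smul_smul, inv_mul_cancel₀ hσ.ne', one_smul]
    rfl

lemma exists_linear [CompactSpace N] (hs : Setting Ψ) (hmult : multiplicity g σ = 3)
    (hΨ : IsEigenMap g σ Ψ) {Ξ : N → E3} (hΞ : IsEigenMap g σ Ξ) :
    ∃ L : E3 →ₗ[ℝ] E3, ∀ x, Ξ x = L (Ψ x) := by
  have hli : LinearIndependent ℝ fun (i : Fin 3) (x : N) => Ψ x i := by
    refine Fintype.linearIndependent_iff.2 fun a ha => ?_
    by_contra hne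
    refine hs.flat (l := WithLp.toLp 2 a) (fun h0 => hne fun i => ?_) fun x _ => ?_
    · simpa using congrArg (fun v : E3 => v i) h0
    · have := congrFun ha x
      simp [Fin.sum_univ_three] at this
      rw [inner_E3]
      simpa using this
  have hfin : FiniteDimensional ℝ (Submodule.span ℝ {f : N → ℝ | IsSteklovFn g σ f}) :=
    Module.finite_of_finrank_pos (by rw [multiplicity] at hmult; omega)
  have hle : Submodule.span ℝ (range fun (i : Fin 3) (x : N) => Ψ x i) ≤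
      Submodule.span ℝ {f : N → ℝ | IsSteklovFn g σ f} :=
    Submodule.span_mono (range_subset_iff.2 hΨ.1)
  have heq := Submodule.eq_of_le_of_finrank_eq hle (by
    rw [finrank_span_eq_card hli]; simpa [multiplicity] using hmult.symm)
  have hex : ∀ j, ∃ c : Fin 3 → ℝ, ∑ i, c i • (fun x => Ψ x i) = fun x => Ξ x j := fun j =>
    (Submodule.mem_span_range_iff_exists_fun ℝ).1 (heq ▸ Submodule.subset_span (hΞ.1 j))
  choose M hM using hex
  refine ⟨Matrix.toEuclideanLin (Matrix.of M), fun x => ?_⟩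
  ext j
  have := congrFun (hM j) x
  simp [Fin.sum_univ_three] at this
  simp [Matrix.toLpLin_apply, Matrix.mulVec, dotProduct, Fin.sum_univ_three, this]

theorem main [CompactSpace N] [ConnectedSpace N]
    (hbd : Nat.card (ConnectedComponents (I2.boundary N)) = 2) (hσ : 0 < σ)
    (hmult : multiplicity g σ = 3) (hΨ : IsEigenMap g σ Ψ) (hemb : IsConformalEmbedding g Ψ)
    {Ξ : N → E3} (hΞ : IsEigenMap g σ Ξ) (hne : ∀ A : E3 ≃ₗᵢ[ℝ] E3, Ξ ≠ A ∘ Ψ) : Concl Ψ := by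
  have hs : Setting Ψ := ⟨nice_of hσ hΨ hemb, hemb.1, hΨ.2.1, hbd⟩
  obtain ⟨L, hL⟩ := exists_linear hs hmult hΨ hΞ
  refine hs.quadric L (fun x hx => hL x ▸ hΞ.2.2 x hx) fun hiso => ?_
  exact hne (LinearIsometry.toLinearIsometryEquiv ⟨L, hiso⟩ rfl) (funext hL)

end Pool.Agent.MP_30dcea_gt

end MrgPart4

-- marker of a merged file
example : 731051 + 258927 = 731051 + 258927 := rfl
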